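import Pool.Agent.Lib.DigitChanges.InertPrimes

/-!
# Mertens theorems for primes congruent to 1 modulo 4
-/

open Finset ArithmeticFunction

namespace Pool.Agent.GapSieve

open Pool.Agent.DigitChanges (abel psi_nat_le mertens_lower mertens_upper even_part)

/-- the real-valued character mod 4 -/
noncomputable def c4 (n : ℕ) : ℝ := ((ZMod.χ₄ (n : ZMod 4) : ℤ) : ℝ)

lemma c4_mul (m n : ℕ) : c4 (m * n) = c4 m * c4 n := by
  unfold c4
  rw [Nat.cast_mul, map_mul, Int.cast_mul]

lemma c4_eq (n : ℕ) : c4 n = if n % 2 = 0 then 0 else if n % 4 = 1 then 1 else -1 := by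
  unfold c4
  rw [ZMod.χ₄_nat_eq_if_mod_four]
  split_ifs <;> simp

lemma abs_c4_le (n : ℕ) : |c4 n| ≤ 1 := by
  rw [c4_eq]
  split_ifs <;> simp

lemma sum_c4_period (n : ℕ) : ∑ i ∈ range (n + 4), c4 i = ∑ i ∈ range n, c4 i := by
  rw [sum_range_add]
  simp only [sum_range_succ, range_zero, sum_empty]
  have h : n % 4 = 0 ∨ n % 4 = 1 ∨ n % 4 = 2 ∨ n % 4 = 3 := by omega
  have hval : ∀ k j : ℕ, n % 4 = j → c4 (n + k) = c4 (j + k) := by
    intro k j hj
    unfold c4
    rw [ZMod.χ₄_nat_mod_four (n + k), ZMod.χ₄_nat_mod_four (j + k)]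
    have : (n + k) % 4 = (j + k) % 4 := by omega
    rw [this]
  rcases h with h | h | h | h <;>
  · simp only [hval _ _ h]
    norm_num [c4_eq]

lemma abs_sum_c4_le (n : ℕ) : |∑ i ∈ range n, c4 i| ≤ 1 := by
  induction n using Nat.strong_induction_on with
  | _ n ih =>
    by_cases h : n < 4
    · interval_cases n <;> norm_num [sum_range_succ, c4_eq]
    · obtain ⟨m, rfl⟩ : ∃ m, n = m + 4 := ⟨n - 4, by omega⟩
      rw [sum_c4_period]
      exact ih m (by omega)

lemma abs_sum_c4_shift_le (k n : ℕ) : |∑ i ∈ range n, c4 (k + i)| ≤ 2 := by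
  have h1 : ∑ i ∈ range (k + n), c4 i = ∑ i ∈ range k, c4 i + ∑ i ∈ range n, c4 (k + i) :=
    sum_range_add _ _ _
  have h2 := abs_sum_c4_le (k + n)
  have h3 := abs_sum_c4_le k
  rw [abs_le] at h2 h3 ⊢
  constructor <;> linarith

/-- `∑_{m ≤ N} c4 m / m` -/
noncomputable def X4 (N : ℕ) : ℝ := ∑ m ∈ Ioc 0 N, c4 m / m

lemma abs_X4_sub (N M : ℕ) (h : N ≤ M) : |X4 M - X4 N| ≤ 2 / (N + 1) := by
  have h1 : X4 M - X4 N = ∑ i ∈ range (M - N), c4 (N + 1 + i) * (1 / ((N + 1 + i : ℕ) : ℝ)) := by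
    unfold X4
    rw [← sum_Ioc_consecutive _ (Nat.zero_le N) h, add_sub_cancel_left]
    rw [← Finset.Ico_add_one_add_one_eq_Ioc, sum_Ico_eq_sum_range]
    rw [show M + 1 - (N + 1) = M - N by omega]
    refine sum_congr rfl fun i _ => ?_
    ring
  rw [h1]
  have h2 := abel (fun i => c4 (N + 1 + i)) (fun i => 1 / ((N + 1 + i : ℕ) : ℝ)) 2
    (fun i => by
      apply one_div_le_one_div_of_le (by positivity)
      push_cast; linarith)
    (fun i => by positivity) (fun n => abs_sum_c4_shift_le (N + 1) n) (M - N)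
  refine h2.trans (le_of_eq ?_)
  push_cast
  ring

/-- the value `L(1, χ₄)` -/
lemma exists_L4 : ∃ L : ℝ, 1 / 3 < L ∧ ∀ N : ℕ, |X4 N - L| ≤ 2 / (N + 1) := by
  have hc : CauchySeq X4 := by
    refine cauchySeq_of_le_tendsto_0' (fun N : ℕ => (2 : ℝ) / (N + 1)) ?_ ?_
    · intro n m hnm
      rw [dist_comm, Real.dist_eq]
      exact abs_X4_sub n m hnm
    · have := tendsto_one_div_add_atTop_nhds_zero_nat (𝕜 := ℝ)
      have h2 := this.const_mul (2 : ℝ)
      simp only [mul_zero] at h2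
      refine h2.congr fun n => ?_
      ring
  obtain ⟨L, hL⟩ := cauchySeq_tendsto_of_complete hc
  have hb : ∀ N : ℕ, |X4 N - L| ≤ 2 / (N + 1) := by
    intro N
    have h1 : Filter.Tendsto (fun M => |X4 N - X4 M|) Filter.atTop (nhds |X4 N - L|) :=
      (hL.const_sub (X4 N)).abs
    refine le_of_tendsto h1 ?_
    filter_upwards [Filter.eventually_ge_atTop N] with M hM
    rw [abs_sub_comm]
    exact abs_X4_sub N M hM
  refine ⟨L, ?_, hb⟩
  have h8 := hb 8
  have hX : X4 8 = 76 / 105 := by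
    unfold X4
    rw [show Ioc 0 8 = {1, 2, 3, 4, 5, 6, 7, 8} from rfl]
    norm_num [c4_eq]
  rw [hX, abs_le] at h8
  norm_num at h8 ⊢
  linarith [h8.2]

/-- `∑_{n ≤ N} c4 n log n / n` is bounded. -/
lemma abs_sum_c4_log (N : ℕ) : |∑ n ∈ Ioc 0 N, c4 n * Real.log n / n| ≤ 2 := by
  by_cases h : N < 2
  · interval_cases N <;> simp
  · push Not at h
    have h1 : ∑ n ∈ Ioc 0 N, c4 n * Real.log n / n =
        ∑ i ∈ range (N - 2), c4 (3 + i) * (Real.log ((3 + i : ℕ) : ℝ) / ((3 + i : ℕ) : ℝ)) := by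
      rw [← sum_Ioc_consecutive _ (Nat.zero_le 2) h]
      have h2 : ∑ n ∈ Ioc 0 2, c4 n * Real.log n / (n : ℝ) = 0 := by
        rw [show Ioc 0 2 = {1, 2} from rfl]
        norm_num [c4_eq]
      rw [h2, zero_add, ← Finset.Ico_add_one_add_one_eq_Ioc, sum_Ico_eq_sum_range,
        show N + 1 - (2 + 1) = N - 2 by omega]
      refine sum_congr rfl fun i _ => ?_
      norm_num
      ring
    rw [h1]
    have hanti := Real.log_div_self_antitoneOn
    have h3 := abel (fun i => c4 (3 + i))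
      (fun i => Real.log ((3 + i : ℕ) : ℝ) / ((3 + i : ℕ) : ℝ)) 2
      (fun i => by
        have he := Real.exp_one_lt_d9
        refine hanti ?_ ?_ ?_
        · rw [Set.mem_Ici]; push_cast; have : (0 : ℝ) ≤ i := by positivity
          linarith
        · rw [Set.mem_Ici]; push_cast; have : (0 : ℝ) ≤ i := by positivity
          linarith
        · push_cast; linarith)
      (fun i => by
        have : (1 : ℝ) ≤ ((3 + i : ℕ) : ℝ) := by push_cast; have : (0 : ℝ) ≤ i := by positivity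
                                                 linarith
        exact div_nonneg (Real.log_nonneg this) (by positivity))
      (fun n => abs_sum_c4_shift_le 3 n) (N - 2)
    refine h3.trans ?_
    have h4 : Real.log 3 ≤ 3 - 1 := Real.log_le_sub_one_of_pos (by norm_num)
    norm_num
    linarith

/-- the convolution identity -/
lemma conv_identity4 (N : ℕ) : ∑ n ∈ Ioc 0 N, c4 n * Real.log n / n =
    ∑ d ∈ Ioc 0 N, (c4 d * vonMangoldt d / d) * X4 (N / d) := by
  let f : ArithmeticFunction ℝ := ⟨fun n => c4 n * vonMangoldt n / n, by simp⟩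
  let g : ArithmeticFunction ℝ := ⟨fun n => c4 n / n, by simp⟩
  have h := sum_Ioc_mul_eq_sum_sum f g N
  have hR : ∑ n ∈ Ioc 0 N, f n * ∑ m ∈ Ioc 0 (N / n), g m =
      ∑ d ∈ Ioc 0 N, (c4 d * vonMangoldt d / d) * X4 (N / d) := rfl
  rw [← hR, ← h]
  refine sum_congr rfl fun n hn => ?_
  rw [mem_Ioc] at hn
  rw [mul_apply]
  have h2 : ∀ x ∈ n.divisorsAntidiagonal, f x.1 * g x.2 = c4 n / n * vonMangoldt x.1 := by
    rintro ⟨d, m⟩ hx
    rw [Nat.mem_divisorsAntidiagonal] at hx
    simp only at hx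
    change c4 d * vonMangoldt d / d * (c4 m / m) = c4 n / n * vonMangoldt d
    rw [← hx.1, c4_mul]
    push_cast
    have hd : (d : ℝ) ≠ 0 := by
      rintro h0
      have : d = 0 := by exact_mod_cast h0
      apply hx.2; rw [← hx.1, this, zero_mul]
    have hm : (m : ℝ) ≠ 0 := by
      rintro h0
      have : m = 0 := by exact_mod_cast h0
      apply hx.2; rw [← hx.1, this, mul_zero]
    field_simp
  rw [sum_congr rfl h2, ← mul_sum]
  have h3 : ∑ x ∈ n.divisorsAntidiagonal, vonMangoldt x.1 = Real.log n := by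
    rw [← vonMangoldt_sum]
    exact Nat.sum_divisorsAntidiagonal (fun i _ => vonMangoldt i)
  rw [h3]
  ring

/-- `∑_{d ≤ N} c4 d Λ d / d` is bounded. -/
lemma abs_sum_c4_Lambda (N : ℕ) : |∑ d ∈ Ioc 0 N, c4 d * vonMangoldt d / d| ≤ 42 := by
  obtain ⟨L, hL, hX⟩ := exists_L4
  rcases Nat.eq_zero_or_pos N with h0 | hN
  · subst h0; simp
  have hN' : (0 : ℝ) < N := by exact_mod_cast hN
  have h1 := abs_sum_c4_log N
  rw [conv_identity4] at h1
  have h2 : L * ∑ d ∈ Ioc 0 N, c4 d * vonMangoldt d / d =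
      ∑ d ∈ Ioc 0 N, (c4 d * vonMangoldt d / d) * X4 (N / d) -
      ∑ d ∈ Ioc 0 N, (c4 d * vonMangoldt d / d) * (X4 (N / d) - L) := by
    rw [mul_sum, ← sum_sub_distrib]
    refine sum_congr rfl fun d _ => ?_
    ring
  have h3 : |∑ d ∈ Ioc 0 N, (c4 d * vonMangoldt d / d) * (X4 (N / d) - L)| ≤ 12 := by
    refine (abs_sum_le_sum_abs _ _).trans ?_
    have h4 : ∀ d ∈ Ioc 0 N, |(c4 d * vonMangoldt d / d) * (X4 (N / d) - L)| ≤
        2 / N * vonMangoldt d := by
      intro d hd
      rw [mem_Ioc] at hd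
      have hd0 : (0 : ℝ) < d := by exact_mod_cast hd.1
      have hΛ : 0 ≤ vonMangoldt d := vonMangoldt_nonneg
      rw [abs_mul, abs_div, abs_mul, abs_of_nonneg hΛ, abs_of_pos hd0]
      have h5 : |c4 d| * vonMangoldt d / d ≤ vonMangoldt d / d := by
        apply div_le_div_of_nonneg_right _ hd0.le
        have := abs_c4_le d
        nlinarith
      have h6 : |X4 (N / d) - L| ≤ 2 * d / N := by
        refine (hX (N / d)).trans ?_
        rw [div_le_div_iff₀ (by positivity) hN']
        have h7 : N < d * (N / d + 1) := Nat.lt_mul_div_succ N hd.1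
        have h8 : (N : ℝ) < d * (((N / d : ℕ) : ℝ) + 1) := by exact_mod_cast h7
        nlinarith
      calc |c4 d| * vonMangoldt d / d * |X4 (N / d) - L| ≤ vonMangoldt d / d * (2 * d / N) :=
            mul_le_mul h5 h6 (abs_nonneg _) (by positivity)
        _ = 2 / N * vonMangoldt d := by field_simp
    refine (sum_le_sum h4).trans ?_
    rw [← mul_sum]
    have h9 := psi_nat_le N
    calc 2 / (N : ℝ) * ∑ d ∈ Ioc 0 N, vonMangoldt d ≤ 2 / N * (6 * N) :=
          mul_le_mul_of_nonneg_left h9 (by positivity)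
      _ = 12 := by field_simp; norm_num
  have h4 : |L * ∑ d ∈ Ioc 0 N, c4 d * vonMangoldt d / d| ≤ 14 := by
    rw [h2]
    refine (abs_sub _ _).trans ?_
    linarith
  rw [abs_mul, abs_of_pos (by linarith)] at h4
  have h5 := abs_nonneg (∑ d ∈ Ioc 0 N, c4 d * vonMangoldt d / d)
  nlinarith

/-- the mass of the integers `1 mod 4` -/
noncomputable def U4 (N : ℕ) : ℝ := ∑ d ∈ Ioc 0 N with c4 d = 1, vonMangoldt d / d

lemma U4_eq (N : ℕ) : 2 * U4 N = ∑ d ∈ Ioc 0 N, vonMangoldt d / d -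
    ∑ d ∈ Ioc 0 N with d % 2 = 0, vonMangoldt d / d + ∑ d ∈ Ioc 0 N, c4 d * vonMangoldt d / d := by
  unfold U4
  rw [sum_filter, sum_filter, mul_sum, ← sum_sub_distrib, ← sum_add_distrib]
  refine sum_congr rfl fun d _ => ?_
  rw [c4_eq]
  split_ifs with h1 h2 h3 h4 h5 <;> first | (exfalso; norm_num at *; done) | ring

lemma U4_lower (N : ℕ) (hN : 0 < N) : Real.log N - 45 ≤ 2 * U4 N := by
  rw [U4_eq]
  have h1 := mertens_lower N hN
  have h2 := even_part N
  have h3 := (abs_le.1 (abs_sum_c4_Lambda N)).1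
  linarith

lemma U4_upper (N : ℕ) (hN : 0 < N) : 2 * U4 N ≤ Real.log N + 48 := by
  rw [U4_eq]
  have h1 := mertens_upper N hN
  have h2 : 0 ≤ ∑ d ∈ Ioc 0 N with d % 2 = 0, vonMangoldt d / (d : ℝ) :=
    sum_nonneg fun d _ => div_nonneg vonMangoldt_nonneg (by positivity)
  have h3 := (abs_le.1 (abs_sum_c4_Lambda N)).2
  linarith

/-- prime powers contribute a bounded amount -/
lemma nonprime_bound : ∃ C : ℝ, 0 ≤ C ∧ ∀ N : ℕ,
    ∑ d ∈ Ioc 0 N with ¬ d.Prime, vonMangoldt d / d ≤ C := by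
  obtain ⟨C₀, hC₀⟩ := Chebyshev.psi_sub_theta_le_mul_sqrt
  set C := |C₀| with hC
  have hC0 : 0 ≤ C := abs_nonneg _
  set E : ℕ → ℝ := fun n => ∑ d ∈ Ioc 0 n with ¬ d.Prime, vonMangoldt d with hE
  have hEb : ∀ n, E n ≤ C * √(n : ℝ) := by
    intro n
    have h5 := hC₀ n
    rw [Chebyshev.psi_sub_theta_eq_sum_not_prime, Nat.floor_natCast] at h5
    exact h5.trans (mul_le_mul_of_nonneg_right (le_abs_self _) (Real.sqrt_nonneg _))
  refine ⟨3 * C, by positivity, ?_⟩
  have key : ∀ N : ℕ, 0 < N → ∑ d ∈ Ioc 0 N with ¬ d.Prime, vonMangoldt d / d ≤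
      E N / N + 2 * C * (1 - 1 / √(N : ℝ)) := by
    intro N hN
    induction N, hN using Nat.le_induction with
    | base =>
      have h1 : ∑ d ∈ Ioc 0 1 with ¬ d.Prime, vonMangoldt d / (d : ℝ) = 0 := by
        rw [show Ioc 0 1 = {1} from rfl]
        simp [sum_filter]
      have h2 : 0 ≤ E 1 := sum_nonneg fun _ _ => vonMangoldt_nonneg
      rw [h1]
      norm_num
      exact h2
    | succ n hn ih =>
      have hn0 : (0 : ℝ) < n := by exact_mod_cast (show 0 < n by omega)
      have h1 : ∑ d ∈ Ioc 0 (n + 1) with ¬ d.Prime, vonMangoldt d / (d : ℝ) =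
          ∑ d ∈ Ioc 0 n with ¬ d.Prime, vonMangoldt d / (d : ℝ) +
          (E (n + 1) - E n) / ((n + 1 : ℕ) : ℝ) := by
        simp only [hE]
        rw [sum_filter, sum_filter, sum_filter, sum_filter, sum_Ioc_succ_top (by omega),
          sum_Ioc_succ_top (by omega)]
        split_ifs <;> simp
      rw [h1]
      have hs1 : 0 < √(n : ℝ) := Real.sqrt_pos.2 hn0
      have hs2 : 0 < √((n + 1 : ℕ) : ℝ) := Real.sqrt_pos.2 (by positivity)
      have hsq1 : √(n : ℝ) * √(n : ℝ) = n := Real.mul_self_sqrt hn0.le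
      have hsq2 : √((n + 1 : ℕ) : ℝ) * √((n + 1 : ℕ) : ℝ) = ((n + 1 : ℕ) : ℝ) :=
        Real.mul_self_sqrt (by positivity)
      have hle : √(n : ℝ) ≤ √((n + 1 : ℕ) : ℝ) := Real.sqrt_le_sqrt (by push_cast; linarith)
      -- `E n / n - E n / (n+1) ≤ 2 C (1/√n - 1/√(n+1))`
      have h2 : E n / n - E n / ((n + 1 : ℕ) : ℝ) ≤
          2 * C * (1 / √(n : ℝ) - 1 / √((n + 1 : ℕ) : ℝ)) := by
        have h3 : E n / n - E n / ((n + 1 : ℕ) : ℝ) = E n * (1 / (n * ((n + 1 : ℕ) : ℝ))) := by
          field_simp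
          push_cast
          ring
        have h4 : 1 / √(n : ℝ) - 1 / √((n + 1 : ℕ) : ℝ) =
            1 / (√(n : ℝ) * √((n + 1 : ℕ) : ℝ) * (√(n : ℝ) + √((n + 1 : ℕ) : ℝ))) := by
          field_simp
          push_cast at *
          nlinarith
        rw [h3, h4]
        calc E n * (1 / (n * ((n + 1 : ℕ) : ℝ))) ≤
              C * √(n : ℝ) * (1 / (n * ((n + 1 : ℕ) : ℝ))) :=
              mul_le_mul_of_nonneg_right (hEb n) (by positivity)
          _ = C * (1 / (√(n : ℝ) * ((n + 1 : ℕ) : ℝ))) := by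
              rw [show (n : ℝ) * ((n + 1 : ℕ) : ℝ) = √(n : ℝ) * (√(n : ℝ) * ((n + 1 : ℕ) : ℝ)) by
                rw [← mul_assoc, hsq1]]
              field_simp
          _ ≤ C * (2 * (1 / (√(n : ℝ) * √((n + 1 : ℕ) : ℝ) *
                (√(n : ℝ) + √((n + 1 : ℕ) : ℝ))))) := by
              refine mul_le_mul_of_nonneg_left ?_ hC0
              rw [mul_one_div, div_le_div_iff₀ (by positivity) (by positivity)]
              have : √(n : ℝ) * √((n + 1 : ℕ) : ℝ) * (√(n : ℝ) + √((n + 1 : ℕ) : ℝ)) ≤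
                  2 * (√(n : ℝ) * ((n + 1 : ℕ) : ℝ)) := by
                have h7 : 0 < √(n : ℝ) * √((n + 1 : ℕ) : ℝ) := by positivity
                have h8 : √(n : ℝ) * √((n + 1 : ℕ) : ℝ) * (√(n : ℝ) + √((n + 1 : ℕ) : ℝ)) ≤
                    2 * (√(n : ℝ) * (√((n + 1 : ℕ) : ℝ) * √((n + 1 : ℕ) : ℝ))) := by nlinarith
                rwa [hsq2] at h8
              linarith
          _ = _ := by ring
      have h5 : (E (n + 1) - E n) / ((n + 1 : ℕ) : ℝ) =
          E (n + 1) / ((n + 1 : ℕ) : ℝ) - E n / ((n + 1 : ℕ) : ℝ) := by ring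
      rw [h5]
      linarith
  intro N
  rcases Nat.eq_zero_or_pos N with h0 | hN
  · subst h0
    simp
    positivity
  · refine (key N hN).trans ?_
    have hN' : (0 : ℝ) < N := by exact_mod_cast hN
    have hN1 : (1 : ℝ) ≤ N := by exact_mod_cast hN
    have h1 : E N / N ≤ C := by
      rw [div_le_iff₀ hN']
      refine (hEb N).trans (mul_le_mul_of_nonneg_left ?_ hC0)
      rw [Real.sqrt_le_left (by positivity)]
      nlinarith
    have h2 : 0 ≤ 1 / √(N : ℝ) := by positivity
    nlinarith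

/-- the primes `1 mod 4` up to `N`, weighted by `2 log p / p` -/
noncomputable def T4 (N : ℕ) : ℝ := ∑ d ∈ Ioc 0 N with d.Prime ∧ d % 4 = 1, 2 * Real.log d / d

lemma T4_bound : ∃ C : ℝ, 0 ≤ C ∧ ∀ N : ℕ, 0 < N → |T4 N - Real.log N| ≤ C := by
  obtain ⟨C, hC0, hC⟩ := nonprime_bound
  refine ⟨48 + 2 * C, by positivity, fun N hN => ?_⟩
  have h1 : T4 N ≤ 2 * U4 N := by
    unfold T4 U4
    rw [sum_filter, sum_filter, mul_sum]
    refine sum_le_sum fun d _ => ?_
    have hnn : 0 ≤ vonMangoldt d / (d : ℝ) := div_nonneg vonMangoldt_nonneg (Nat.cast_nonneg _)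
    by_cases h : d.Prime ∧ d % 4 = 1
    · have h2 : c4 d = 1 := by
        rw [c4_eq, if_neg (by omega), if_pos h.2]
      rw [if_pos h, if_pos h2, vonMangoldt_apply_prime h.1]
      exact le_of_eq (by ring)
    · rw [if_neg h]
      split_ifs <;> linarith
  have h2 : 2 * U4 N ≤ T4 N + 2 * ∑ d ∈ Ioc 0 N with ¬ d.Prime, vonMangoldt d / (d : ℝ) := by
    unfold T4 U4
    rw [sum_filter, sum_filter, sum_filter, mul_sum, mul_sum, ← sum_add_distrib]
    refine sum_le_sum fun d _ => ?_
    have hnn : 0 ≤ vonMangoldt d / (d : ℝ) := div_nonneg vonMangoldt_nonneg (Nat.cast_nonneg _)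
    by_cases hp : d.Prime
    · by_cases h4 : d % 4 = 1
      · have h2 : c4 d = 1 := by rw [c4_eq, if_neg (by omega), if_pos h4]
        rw [if_pos h2, if_pos ⟨hp, h4⟩, if_neg (by simpa using hp), vonMangoldt_apply_prime hp]
        exact le_of_eq (by ring)
      · have h2 : c4 d ≠ 1 := by
          rw [c4_eq, if_neg h4]
          split_ifs <;> norm_num
        have h3 : ¬ (d.Prime ∧ d % 4 = 1) := fun h => h4 h.2
        rw [if_neg h2, if_neg h3, if_neg (by simpa using hp)]
        linarith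
    · have h3 : ¬ (d.Prime ∧ d % 4 = 1) := fun h => hp h.1
      rw [if_neg h3, if_pos hp]
      split_ifs <;> linarith
  have h3 := hC N
  have h4 := U4_lower N hN
  have h5 := U4_upper N hN
  rw [abs_le]
  constructor <;> linarith

/-- elementary comparison -/
lemma loglog_step (n : ℕ) (hn : 2 ≤ n) :
    Real.log (Real.log (n + 1)) - Real.log (Real.log n) ≤
      (Real.log n - Real.log (n - 1)) / Real.log n := by
  have hn' : (2 : ℝ) ≤ n := by exact_mod_cast hn
  have hl : 0 < Real.log n := Real.log_pos (by linarith)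
  have hl1 : 0 < Real.log (n + 1) := Real.log_pos (by linarith)
  have h1 : Real.log (n + 1) - Real.log n ≤ Real.log n - Real.log (n - 1) := by
    have h2 : Real.log ((n + 1) * (n - 1)) ≤ Real.log (n * n) :=
      Real.log_le_log (by nlinarith) (by nlinarith)
    rw [Real.log_mul (by linarith) (by linarith), Real.log_mul (by linarith) (by linarith)] at h2
    linarith
  have h3 : Real.log (Real.log (n + 1)) - Real.log (Real.log n) ≤
      Real.log (n + 1) / Real.log n - 1 := by
    rw [← Real.log_div hl1.ne' hl.ne']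
    exact Real.log_le_sub_one_of_pos (by positivity)
  have h4 : Real.log (n + 1) / Real.log n - 1 = (Real.log (n + 1) - Real.log n) / Real.log n := by
    field_simp
  rw [h4] at h3
  exact h3.trans (div_le_div_of_nonneg_right h1 hl.le)

/-- Mertens' second theorem (lower bound) for primes `1 mod 4`. -/
theorem mertens4 : ∃ C : ℝ, 0 ≤ C ∧ ∀ M K : ℕ, 2 ≤ M → M ≤ K →
    Real.log (Real.log K) - Real.log (Real.log M) - C ≤
      ∑ p ∈ Ioc M K with p.Prime ∧ p % 4 = 1, 2 / (p : ℝ) := by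
  obtain ⟨C, hC0, hC⟩ := T4_bound
  refine ⟨4 * C + 1, by positivity, fun M K hM hMK => ?_⟩
  set d : ℕ → ℝ := fun n => T4 n - Real.log n with hd
  have hM' : (2 : ℝ) ≤ M := by exact_mod_cast hM
  have hlM : 0 < Real.log M := Real.log_pos (by linarith)
  have key : Real.log (Real.log (K + 1)) - Real.log (Real.log (M + 1)) +
      (d K + C) / Real.log K - 2 * C / Real.log M ≤
      ∑ p ∈ Ioc M K with p.Prime ∧ p % 4 = 1, 2 / (p : ℝ) := by
    induction K, hMK using Nat.le_induction with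
    | base =>
      have h1 : ∑ p ∈ Ioc M M with p.Prime ∧ p % 4 = 1, 2 / (p : ℝ) = 0 := by simp
      rw [h1, sub_self, zero_add, ← sub_div]
      refine div_nonpos_of_nonpos_of_nonneg ?_ hlM.le
      have := (abs_le.1 (hC M (by omega))).2
      simp only [hd]
      linarith
    | succ n hn ih =>
      have hn' : (2 : ℝ) ≤ n := by exact_mod_cast (hM.trans hn)
      have hln : 0 < Real.log n := Real.log_pos (by linarith)
      have hln1 : 0 < Real.log ((n + 1 : ℕ) : ℝ) := Real.log_pos (by push_cast; linarith)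
      have hlle : Real.log n ≤ Real.log ((n + 1 : ℕ) : ℝ) :=
        Real.log_le_log (by linarith) (by push_cast; linarith)
      have h1 : ∑ p ∈ Ioc M (n + 1) with p.Prime ∧ p % 4 = 1, 2 / (p : ℝ) =
          ∑ p ∈ Ioc M n with p.Prime ∧ p % 4 = 1, 2 / (p : ℝ) +
          (T4 (n + 1) - T4 n) / Real.log ((n + 1 : ℕ) : ℝ) := by
        unfold T4
        rw [sum_filter, sum_filter, sum_filter, sum_filter, sum_Ioc_succ_top (by omega),
          sum_Ioc_succ_top (by omega)]
        split_ifs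
        · congr 1
          rw [add_sub_cancel_left]
          field_simp
        · simp
      rw [h1]
      have h2 := loglog_step (n + 1) (by omega)
      have h3 : T4 (n + 1) - T4 n = (d (n + 1) - d n) +
          (Real.log ((n + 1 : ℕ) : ℝ) - Real.log n) := by
        simp only [hd]; ring
      rw [h3]
      have h4 : (d n + C) / Real.log ((n + 1 : ℕ) : ℝ) ≤ (d n + C) / Real.log n := by
        have h5 := (abs_le.1 (hC n (by omega))).1
        exact div_le_div_of_nonneg_left (by simp only [hd]; linarith) hln hlle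
      have h6 : (d (n + 1) + C) / Real.log ((n + 1 : ℕ) : ℝ) =
          d (n + 1) / Real.log ((n + 1 : ℕ) : ℝ) - d n / Real.log ((n + 1 : ℕ) : ℝ) +
          (d n + C) / Real.log ((n + 1 : ℕ) : ℝ) := by ring
      have h7 : (d (n + 1) - d n + (Real.log ((n + 1 : ℕ) : ℝ) - Real.log n)) /
          Real.log ((n + 1 : ℕ) : ℝ) = d (n + 1) / Real.log ((n + 1 : ℕ) : ℝ) -
          d n / Real.log ((n + 1 : ℕ) : ℝ) + (Real.log ((n + 1 : ℕ) : ℝ) - Real.log n) /
          Real.log ((n + 1 : ℕ) : ℝ) := by ring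
      rw [h6, h7]
      push_cast at *
      rw [add_sub_cancel_right] at h2
      linarith
  refine le_trans ?_ key
  have hK' : (2 : ℝ) ≤ K := by exact_mod_cast (hM.trans hMK)
  have hlK : 0 < Real.log K := Real.log_pos (by linarith)
  have h1 : Real.log (Real.log K) ≤ Real.log (Real.log (K + 1)) :=
    Real.log_le_log hlK (Real.log_le_log (by linarith) (by linarith))
  have h2 : Real.log (Real.log (M + 1)) ≤ Real.log (Real.log M) + 1 := by
    have h3 : Real.log (M + 1) ≤ 2 * Real.log M := by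
      rw [← Real.log_rpow (by linarith)]
      refine Real.log_le_log (by linarith) ?_
      rw [Real.rpow_two]
      nlinarith
    have h4 : Real.log (Real.log (M + 1)) ≤ Real.log (2 * Real.log M) :=
      Real.log_le_log (Real.log_pos (by linarith)) h3
    rw [Real.log_mul (by norm_num) hlM.ne'] at h4
    have := Real.log_two_lt_d9
    linarith
  have h3 : 0 ≤ (d K + C) / Real.log K := by
    have h5 := (abs_le.1 (hC K (by omega))).1
    exact div_nonneg (by simp only [hd]; linarith) hlK.le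
  have h4 : 2 * C / Real.log M ≤ 4 * C := by
    have h5 : 1 / 2 ≤ Real.log M := by
      have h6 : Real.log 2 ≤ Real.log M := Real.log_le_log (by norm_num) hM'
      have := Real.log_two_gt_d9
      linarith
    rw [div_le_iff₀ hlM]
    nlinarith
  linarith

/-- Mertens' first theorem (upper bound) for all primes. -/
lemma mertens_primes_upper (N : ℕ) (hN : 0 < N) :
    ∑ p ∈ Ioc 0 N with p.Prime, Real.log p / p ≤ Real.log N + 6 := by
  refine le_trans ?_ (mertens_upper N hN)
  rw [sum_filter]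
  refine sum_le_sum fun d _ => ?_
  split_ifs with h
  · rw [vonMangoldt_apply_prime h]
  · exact div_nonneg vonMangoldt_nonneg (Nat.cast_nonneg _)

end Pool.Agent.GapSieve
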