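import Pool.Agent.Lib.GapSieve.Law

/-!
# The covering theorem

A truncated `L²` weight shows that all sites can be hit simultaneously.
-/

open Finset

namespace Pool.Agent.GapSieve

lemma periodic_sum_mul {D : ℕ} (g : ℕ → ℝ) (hg : ∀ t, g (t + D) = g t) (n : ℕ) :
    ∑ t ∈ range (D * n), g t = n * ∑ a ∈ range D, g a := by
  have hper : Function.Periodic g D := hg
  induction n with
  | zero => simp
  | succ n ih =>
    rw [mul_add, mul_one, sum_range_add, ih]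
    have h2 : ∑ i ∈ range D, g (D * n + i) = ∑ a ∈ range D, g a := by
      refine sum_congr rfl fun i _ => ?_
      rw [add_comm, mul_comm]
      have := hper.nat_mul n i
      simpa using this
    rw [h2]
    push_cast
    ring

/-- equidistribution for squares of short combinations of periodic functions -/
lemma equi {ι : Type*} (D : Finset ι) (b : ι → ℕ → ℝ) (m : ι → ℕ) (P T : ℕ) (R : ℝ)
    (hP : 0 < P) (hb : ∀ σ ∈ D, ∀ t, |b σ t| ≤ 1) (hper : ∀ σ ∈ D, ∀ t, b σ (t + m σ) = b σ t)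
    (hmP : ∀ σ ∈ D, m σ ∣ P) (hmR : ∀ σ ∈ D, (m σ : ℝ) ≤ R) :
    |∑ t ∈ range T, (∑ σ ∈ D, b σ t) ^ 2 -
      T * ((∑ t ∈ range P, (∑ σ ∈ D, b σ t) ^ 2) / P)| ≤ (D.card : ℝ) ^ 2 * (2 * R ^ 2) := by
  have hP' : (0 : ℝ) < P := by exact_mod_cast hP
  have h1 : ∀ n : ℕ, ∑ t ∈ range n, (∑ σ ∈ D, b σ t) ^ 2 =
      ∑ σ ∈ D, ∑ τ ∈ D, ∑ t ∈ range n, b σ t * b τ t := by
    intro n
    have : ∀ t ∈ range n, (∑ σ ∈ D, b σ t) ^ 2 = ∑ σ ∈ D, ∑ τ ∈ D, b σ t * b τ t := by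
      intro t _
      rw [pow_two, sum_mul_sum]
    rw [sum_congr rfl this, sum_comm]
    refine sum_congr rfl fun σ _ => ?_
    rw [sum_comm]
  rw [h1, h1]
  have h2 : ∑ σ ∈ D, ∑ τ ∈ D, ∑ t ∈ range T, b σ t * b τ t -
      T * ((∑ σ ∈ D, ∑ τ ∈ D, ∑ t ∈ range P, b σ t * b τ t) / P) =
      ∑ σ ∈ D, ∑ τ ∈ D, (∑ t ∈ range T, b σ t * b τ t -
        T * ((∑ t ∈ range P, b σ t * b τ t) / P)) := by
    simp only [sum_sub_distrib, mul_sum, sum_div]
  rw [h2]
  have h3 : ∀ σ ∈ D, ∀ τ ∈ D, |∑ t ∈ range T, b σ t * b τ t -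
        T * ((∑ t ∈ range P, b σ t * b τ t) / P)| ≤ 2 * R ^ 2 := by
    intro σ hσ τ hτ
    have hmσ : 0 < m σ := Nat.pos_of_dvd_of_pos (hmP σ hσ) hP
    have hmτ : 0 < m τ := Nat.pos_of_dvd_of_pos (hmP τ hτ) hP
    set L := Nat.lcm (m σ) (m τ) with hL
    have hLpos : 0 < L := Nat.lcm_pos hmσ hmτ
    have hL' : (0 : ℝ) < L := by exact_mod_cast hLpos
    have hLP : L ∣ P := Nat.lcm_dvd (hmP σ hσ) (hmP τ hτ)
    have hLR : (L : ℝ) ≤ R ^ 2 := by
      have h4 : L ≤ m σ * m τ := Nat.le_of_dvd (Nat.mul_pos hmσ hmτ) (Nat.lcm_dvd_mul _ _)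
      have h5 : (L : ℝ) ≤ m σ * m τ := by exact_mod_cast h4
      have h6 := hmR σ hσ
      have h7 := hmR τ hτ
      have h8 : (0 : ℝ) ≤ m σ := Nat.cast_nonneg _
      have h9 : (0 : ℝ) ≤ m τ := Nat.cast_nonneg _
      nlinarith
    have hg : ∀ t, b σ (t + L) * b τ (t + L) = b σ t * b τ t := by
      intro t
      have e1 : b σ (t + L) = b σ t := by
        obtain ⟨c, hc⟩ := Nat.dvd_lcm_left (m σ) (m τ)
        have hh : Function.Periodic (b σ) (m σ) := hper σ hσ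
        have := hh.nat_mul c t
        rw [hL, hc, mul_comm]
        simpa using this
      have e2 : b τ (t + L) = b τ t := by
        obtain ⟨c, hc⟩ := Nat.dvd_lcm_right (m σ) (m τ)
        have hh : Function.Periodic (b τ) (m τ) := hper τ hτ
        have := hh.nat_mul c t
        rw [hL, hc, mul_comm]
        simpa using this
      rw [e1, e2]
    have hbd : ∀ t, |b σ t * b τ t| ≤ 1 := by
      intro t
      rw [abs_mul]
      exact mul_le_one₀ (hb σ hσ t) (abs_nonneg _) (hb τ hτ t)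
    have h4 := periodic_sum hLpos (fun t => b σ t * b τ t) hg 1 hbd T
    obtain ⟨n, hn⟩ := hLP
    have h5 := periodic_sum_mul (D := L) (fun t => b σ t * b τ t) hg n
    rw [← hn] at h5
    have h6 : (T : ℝ) * ((∑ t ∈ range P, b σ t * b τ t) / P) =
        (T : ℝ) / L * ∑ a ∈ range L, b σ a * b τ a := by
      rw [h5]
      have hn0 : (n : ℝ) ≠ 0 := by
        rintro h0
        have : n = 0 := by exact_mod_cast h0
        rw [this, mul_zero] at hn
        omega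
      have hPn : (P : ℝ) = L * n := by exact_mod_cast hn
      rw [hPn]
      field_simp
    rw [h6]
    refine h4.trans ?_
    linarith
  refine (abs_sum_le_sum_abs _ _).trans ?_
  calc ∑ σ ∈ D, |∑ τ ∈ D, (∑ t ∈ range T, b σ t * b τ t -
        T * ((∑ t ∈ range P, b σ t * b τ t) / P))|
      ≤ ∑ σ ∈ D, ∑ τ ∈ D, (2 * R ^ 2) := by
        refine sum_le_sum fun σ hσ => (abs_sum_le_sum_abs _ _).trans ?_
        exact sum_le_sum fun τ hτ => h3 σ hσ τ hτ
    _ = (D.card : ℝ) ^ 2 * (2 * R ^ 2) := by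
        rw [sum_const, sum_const, nsmul_eq_mul, nsmul_eq_mul]
        ring

/-- the product of a union divides the product of products -/
lemma prod_biUnion_dvd {ι : Type*} [DecidableEq ι] (s : Finset ι) (σ : ι → Finset ℕ) :
    ∏ q ∈ s.biUnion σ, q ∣ ∏ i ∈ s, ∏ q ∈ σ i, q := by
  induction s using Finset.induction_on with
  | empty => simp
  | insert a s ha ih =>
    rw [biUnion_insert, prod_insert ha]
    have h1 : (∏ q ∈ σ a ∪ s.biUnion σ, q) ∣ (∏ q ∈ σ a, q) * ∏ q ∈ s.biUnion σ, q := by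
      rw [← prod_union_inter]
      exact dvd_mul_right _ _
    exact h1.trans (mul_dvd_mul_left _ ih)

variable {N : ℕ} {Q : Finset ℕ} {k : ℕ → ℕ} {hit : ℕ → Fin N → ℕ → Prop}

lemma cov_nonneg {B : ℕ → Finset ℕ} {J : ℕ} (ω : Finset ℕ) : 0 ≤ cov B J ω := by
  unfold cov
  have h1 : (∑ m ∈ range J, if Disjoint ω (B m) then (1 : ℝ) else 0) ≤ J := by
    calc (∑ m ∈ range J, if Disjoint ω (B m) then (1 : ℝ) else 0) ≤ ∑ m ∈ range J, (1 : ℝ) :=
          sum_le_sum fun m _ => by split_ifs <;> norm_num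
      _ = J := by simp
  have h2 : (∑ m ∈ range J, if Disjoint ω (B m) then (1 : ℝ) else 0) / J ≤ 1 :=
    div_le_one_of_le₀ h1 (Nat.cast_nonneg _)
  linarith

lemma cov_le_one {B : ℕ → Finset ℕ} {J : ℕ} (ω : Finset ℕ) : cov B J ω ≤ 1 := by
  unfold cov
  have h1 : 0 ≤ (∑ m ∈ range J, if Disjoint ω (B m) then (1 : ℝ) else 0) / J :=
    div_nonneg (sum_nonneg fun m _ => by split_ifs <;> norm_num) (Nat.cast_nonneg _)
  linarith

lemma cov_empty {B : ℕ → Finset ℕ} {J : ℕ} (hJ : 0 < J) : cov B J ∅ = 0 := by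
  unfold cov
  have : (J : ℝ) ≠ 0 := by positivity
  simp [this]

lemma abs_dco_le {p : ℕ → ℝ} {B : ℕ → Finset ℕ} {m : ℕ} (h0 : ∀ q ∈ B m, 0 ≤ p q)
    (h1 : ∀ q ∈ B m, p q ≤ 1) (S : Finset ℕ) : |dco p B m S| ≤ 1 := by
  unfold dco
  split_ifs
  · rw [abs_mul, abs_pow, abs_neg, abs_one, one_pow, one_mul, abs_prod]
    refine prod_le_one (fun _ _ => abs_nonneg _) fun q hq => ?_
    have hq' := (mem_sdiff.1 hq).1
    have := h0 q hq'
    have := h1 q hq'
    rw [abs_le]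
    constructor <;> linarith
  · simp

lemma abs_cco_le {p : ℕ → ℝ} {B : ℕ → Finset ℕ} {J : ℕ} (hBQ : ∀ m < J, B m ⊆ Q)
    (h0 : ∀ q ∈ Q, 0 ≤ p q) (h1 : ∀ q ∈ Q, p q ≤ 1) (S : Finset ℕ) : |cco p B J S| ≤ 1 := by
  have h2 : |(∑ m ∈ range J, dco p B m S) / J| ≤ 1 := by
    rw [abs_div, Nat.abs_cast]
    refine div_le_one_of_le₀ ((abs_sum_le_sum_abs _ _).trans ?_) (Nat.cast_nonneg _)
    calc ∑ m ∈ range J, |dco p B m S| ≤ ∑ m ∈ range J, (1 : ℝ) :=
          sum_le_sum fun m hm => abs_dco_le (fun q hq => h0 q (hBQ m (mem_range.1 hm) hq))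
            (fun q hq => h1 q (hBQ m (mem_range.1 hm) hq)) S
      _ = J := by simp
  unfold cco
  split_ifs with hS
  · have h3 : 0 ≤ (∑ m ∈ range J, dco p B m S) / J := by
      refine div_nonneg (sum_nonneg fun m hm => ?_) (Nat.cast_nonneg _)
      subst hS
      unfold dco
      rw [if_pos (empty_subset _), card_empty, pow_zero, one_mul, sdiff_empty]
      refine prod_nonneg fun q hq => ?_
      have := h1 q (hBQ m (mem_range.1 hm) hq)
      linarith
    rw [abs_le] at h2 ⊢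
    constructor <;> linarith [h2.2]
  · rw [zero_sub, abs_neg]
    exact h2

lemma abs_CN_le {p : ℕ → ℝ} {B : ℕ → Finset ℕ} {J : ℕ} (hBQ : ∀ m < J, B m ⊆ Q)
    (h0 : ∀ q ∈ Q, 0 ≤ p q) (h1 : ∀ q ∈ Q, p q ≤ 1) (σ : Fin N → Finset ℕ) :
    |CN p B J σ| ≤ 1 := by
  unfold CN
  rw [abs_prod]
  exact prod_le_one (fun _ _ => abs_nonneg _) fun i _ => abs_cco_le hBQ h0 h1 _

lemma abs_psi_le {p : ℕ → ℝ} (h0 : ∀ q ∈ Q, 0 ≤ p q) (h1 : ∀ q ∈ Q, p q ≤ 1)
    {σ : Fin N → Finset ℕ} (hσ : σ ∈ Om N Q) (ω : Fin N → Finset ℕ) : |psi p σ ω| ≤ 1 := by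
  unfold psi
  rw [abs_prod]
  exact prod_le_one (fun _ _ => abs_nonneg _) fun i _ =>
    abs_chi_le (fun q hq => h0 q (mem_Om.1 hσ i hq)) (fun q hq => h1 q (mem_Om.1 hσ i hq)) _

/-- number of characters of bounded size -/
lemma card_D_le (hpos : ∀ q ∈ Q, 0 < q) (R : ℝ)
    (hsm : (N : ℝ) * ∑ q ∈ Q, ((q : ℝ) ^ 2)⁻¹ ≤ 1 / 2) :
    (((Om N Q).filter fun σ => deg σ ≤ R).card : ℝ) ≤ 2 * R ^ 2 := by
  have h1 : (((Om N Q).filter fun σ => deg σ ≤ R).card : ℝ) ≤
      ∑ σ ∈ (Om N Q).filter fun σ => deg σ ≤ R, R ^ 2 * (deg σ ^ 2)⁻¹ := by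
    rw [card_eq_sum_ones, Nat.cast_sum]
    refine sum_le_sum fun σ hσ => ?_
    obtain ⟨hσ1, hσ2⟩ := mem_filter.1 hσ
    have h2 : 0 < deg σ := by
      unfold deg
      refine prod_pos fun i _ => prod_pos fun q hq => ?_
      exact_mod_cast hpos q (mem_Om.1 hσ1 i hq)
    rw [Nat.cast_one, ← div_eq_mul_inv, one_le_div (by positivity)]
    exact pow_le_pow_left₀ h2.le hσ2 2
  have h3 : ∑ σ ∈ (Om N Q).filter fun σ => deg σ ≤ R, R ^ 2 * (deg σ ^ 2)⁻¹ ≤
      ∑ σ ∈ Om N Q, R ^ 2 * (deg σ ^ 2)⁻¹ :=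
    sum_le_sum_of_subset_of_nonneg (filter_subset _ _) fun σ _ _ => by positivity
  have h4 : ∑ σ ∈ Om N Q, R ^ 2 * (deg σ ^ 2)⁻¹ =
      R ^ 2 * (∏ q ∈ Q, (((q : ℝ) ^ 2)⁻¹ + 1)) ^ N := by
    rw [← mul_sum]
    congr 1
    have h5 : (∏ q ∈ Q, (((q : ℝ) ^ 2)⁻¹ + 1)) ^ N =
        ∏ _i : Fin N, ∏ q ∈ Q, (((q : ℝ) ^ 2)⁻¹ + 1) := by simp
    rw [h5]
    simp only [prod_add, prod_const_one, mul_one]
    rw [prod_univ_sum]
    unfold Om deg
    refine sum_congr rfl fun σ _ => ?_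
    rw [← prod_pow, ← prod_inv_distrib]
    refine prod_congr rfl fun i _ => ?_
    rw [← prod_pow, ← prod_inv_distrib]
  have h6 : (∏ q ∈ Q, (((q : ℝ) ^ 2)⁻¹ + 1)) ^ N ≤ 2 := by
    have h7 : ∏ q ∈ Q, (((q : ℝ) ^ 2)⁻¹ + 1) ≤ Real.exp (∑ q ∈ Q, ((q : ℝ) ^ 2)⁻¹) := by
      rw [Real.exp_sum]
      exact prod_le_prod (fun q _ => by positivity) fun q _ => Real.add_one_le_exp _
    have h8 : (∏ q ∈ Q, (((q : ℝ) ^ 2)⁻¹ + 1)) ^ N ≤
        Real.exp (∑ q ∈ Q, ((q : ℝ) ^ 2)⁻¹) ^ N :=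
      pow_le_pow_left₀ (prod_nonneg fun q _ => by positivity) h7 N
    rw [← Real.exp_nat_mul] at h8
    have h9 : Real.exp (N * ∑ q ∈ Q, ((q : ℝ) ^ 2)⁻¹) ≤ Real.exp (1 / 2) :=
      Real.exp_le_exp.2 hsm
    have h10 : Real.exp (1 / 2) ≤ 2 := by
      have h11 : Real.exp (1 / 2) * Real.exp (1 / 2) = Real.exp 1 := by
        rw [← Real.exp_add]; norm_num
      have h12 := Real.exp_one_lt_d9
      have h13 := Real.exp_pos (1 / 2)
      nlinarith
    linarith
  have h14 : (0 : ℝ) ≤ R ^ 2 := by positivity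
  calc (((Om N Q).filter fun σ => deg σ ≤ R).card : ℝ) ≤ R ^ 2 *
        (∏ q ∈ Q, (((q : ℝ) ^ 2)⁻¹ + 1)) ^ N := h1.trans (h3.trans h4.le)
    _ ≤ R ^ 2 * 2 := mul_le_mul_of_nonneg_left h6 h14
    _ = 2 * R ^ 2 := by ring

open Classical in
/-- integrating out one site -/
lemma EN_update (p : ℕ → ℝ) (Φ : (Fin N → Finset ℕ) → ℝ) (i : Fin N) :
    EN p Q (fun ω => Φ (Function.update ω i ∅)) * mu p Q ∅ =
      EN p Q (fun ω => if ω i = ∅ then Φ ω else 0) := by
  unfold EN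
  have h1 : ∑ ω ∈ Om N Q, muN p Q ω * Φ (Function.update ω i ∅) =
      ∑ x ∈ Q.powerset ×ˢ (Om N Q).filter (fun ω => ω i = ∅),
        muN p Q (Function.update x.2 i x.1) * Φ x.2 := by
    refine sum_bij' (fun ω _ => (ω i, Function.update ω i ∅))
      (fun x _ => Function.update x.2 i x.1) ?_ ?_ ?_ ?_ ?_
    · intro ω hω
      rw [mem_product, mem_filter, mem_powerset]
      rw [mem_Om] at hω
      refine ⟨hω i, ?_, by simp⟩
      rw [mem_Om]
      intro j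
      by_cases hj : j = i
      · subst hj; simp
      · show Function.update ω i ∅ j ⊆ Q
        rw [Function.update_of_ne hj]; exact hω j
    · intro x hx
      rw [mem_product, mem_filter, mem_powerset] at hx
      obtain ⟨h1, h2, h3⟩ := hx
      rw [mem_Om] at h2 ⊢
      intro j
      by_cases hj : j = i
      · subst hj; simpa using h1
      · rw [Function.update_of_ne hj]; exact h2 j
    · intro ω _
      simp
    · intro x hx
      rw [mem_product, mem_filter, mem_powerset] at hx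
      obtain ⟨h1, h2, h3⟩ := hx
      refine Prod.ext (by simp) ?_
      simp only [Function.update_idem]
      rw [← h3, Function.update_eq_self]
    · intro ω _
      simp
  have h2 : ∀ (ω : Fin N → Finset ℕ) (S : Finset ℕ), muN p Q (Function.update ω i S) =
      mu p Q S * ∏ j ∈ univ.erase i, mu p Q (ω j) := by
    intro ω S
    unfold muN
    rw [← mul_prod_erase univ _ (mem_univ i), Function.update_self]
    congr 1
    refine prod_congr rfl fun j hj => ?_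
    rw [Function.update_of_ne (ne_of_mem_erase hj)]
  rw [h1, sum_product_right]
  simp only [h2]
  have h3 : ∀ ω ∈ (Om N Q).filter (fun ω => ω i = ∅),
      ∑ S ∈ Q.powerset, mu p Q S * (∏ j ∈ univ.erase i, mu p Q (ω j)) * Φ ω =
      (∏ j ∈ univ.erase i, mu p Q (ω j)) * Φ ω := by
    intro ω _
    rw [← sum_mul, ← sum_mul, E_one, one_mul]
  rw [sum_congr rfl h3, sum_mul]
  have h4 : ∑ ω ∈ Om N Q, muN p Q ω * (if ω i = ∅ then Φ ω else 0) =
      ∑ ω ∈ (Om N Q).filter (fun ω => ω i = ∅), muN p Q ω * Φ ω := by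
    rw [sum_filter]
    refine sum_congr rfl fun ω _ => ?_
    split_ifs <;> simp
  rw [h4]
  refine sum_congr rfl fun ω hω => ?_
  have h5 : ω i = ∅ := (mem_filter.1 hω).2
  have h6 : muN p Q ω = mu p Q ∅ * ∏ j ∈ univ.erase i, mu p Q (ω j) := by
    rw [← h2 ω ∅, ← h5, Function.update_eq_self]
  rw [h6]
  ring

lemma E_mem {p : ℕ → ℝ} {q : ℕ} (hq : q ∈ Q) :
    ∑ ω ∈ Q.powerset, mu p Q ω * (if q ∈ ω then 1 else 0) = p q := by
  have h1 : ∀ ω ∈ Q.powerset, mu p Q ω * (if q ∈ ω then (1 : ℝ) else 0) =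
      mu p Q ω * ((∏ x ∈ ω, 1) * ∏ x ∈ Q \ ω, (if x = q then 0 else 1)) := by
    intro ω hω
    congr 1
    rw [prod_const_one, one_mul]
    by_cases h : q ∈ ω
    · rw [if_pos h]
      symm
      refine prod_eq_one fun x hx => ?_
      rw [if_neg]
      rintro rfl
      exact (mem_sdiff.1 hx).2 h
    · rw [if_neg h]
      symm
      exact prod_eq_zero (mem_sdiff.2 ⟨hq, h⟩) (by simp)
  rw [sum_congr rfl h1, E_prod p (fun _ => 1) (fun x => if x = q then 0 else 1) Q,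
    prod_eq_single_of_mem q hq]
  · simp
  · intro x _ hx
    rw [if_neg hx]
    ring

open Classical in
/-- contribution of a prime which hits two given sites -/
lemma EN_double {p : ℕ → ℝ} {B : ℕ → Finset ℕ} {J : ℕ} (h0 : ∀ q ∈ Q, 0 ≤ p q)
    (h1 : ∀ q ∈ Q, p q ≤ 1) (hA : 1 / 2 ≤ A0 p B J Q) {q : ℕ} (hq : q ∈ Q) {i j : Fin N}
    (hij : i ≠ j) :
    EN p Q (fun ω => FN B J ω ^ 2 * ((if q ∈ ω i then 1 else 0) * (if q ∈ ω j then 1 else 0))) ≤
      4 * p q ^ 2 * A0 p B J Q ^ N := by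
  have h2 : (fun ω : Fin N → Finset ℕ => FN B J ω ^ 2 *
      ((if q ∈ ω i then (1 : ℝ) else 0) * (if q ∈ ω j then 1 else 0))) =
      fun ω => ∏ x, (cov B J (ω x) ^ 2 * (if x = i ∨ x = j then (if q ∈ ω x then 1 else 0)
        else 1)) := by
    funext ω
    unfold FN
    rw [prod_mul_distrib, prod_pow]
    congr 1
    rw [← prod_filter]
    have h3 : (univ : Finset (Fin N)).filter (fun x => x = i ∨ x = j) = {i, j} := by
      ext x; simp
    rw [h3, prod_pair hij]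
  rw [h2, EN_prod p Q (fun x ω => cov B J ω ^ 2 * (if x = i ∨ x = j then
    (if q ∈ ω then 1 else 0) else 1))]
  have hp := h0 q hq
  have hA0 : 0 < A0 p B J Q := by linarith
  have h4 : ∀ x ∈ (univ : Finset (Fin N)), ∑ ω ∈ Q.powerset, mu p Q ω * (cov B J ω ^ 2 *
      (if x = i ∨ x = j then (if q ∈ ω then 1 else 0) else 1)) ≤
      A0 p B J Q * (if x = i ∨ x = j then 2 * p q else 1) := by
    intro x _
    split_ifs with hx
    · have h5 : ∑ ω ∈ Q.powerset, mu p Q ω * (cov B J ω ^ 2 * (if q ∈ ω then 1 else 0)) ≤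
          ∑ ω ∈ Q.powerset, mu p Q ω * (if q ∈ ω then 1 else 0) := by
        refine sum_le_sum fun ω hω => ?_
        refine mul_le_mul_of_nonneg_left ?_ (mu_nonneg (mem_powerset.1 hω) h0 h1)
        have h6 : cov B J ω ^ 2 ≤ 1 := pow_le_one₀ (cov_nonneg ω) (cov_le_one ω)
        split_ifs <;> nlinarith
      rw [E_mem hq] at h5
      refine h5.trans ?_
      nlinarith
    · simp only [mul_one]
      exact le_refl _
  calc ∏ x, ∑ ω ∈ Q.powerset, mu p Q ω * (cov B J ω ^ 2 *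
      (if x = i ∨ x = j then (if q ∈ ω then 1 else 0) else 1))
      ≤ ∏ x, (A0 p B J Q * (if x = i ∨ x = j then 2 * p q else 1)) := by
        refine prod_le_prod (fun x _ => ?_) h4
        refine sum_nonneg fun ω hω => mul_nonneg (mu_nonneg (mem_powerset.1 hω) h0 h1) ?_
        refine mul_nonneg (sq_nonneg _) ?_
        split_ifs <;> norm_num
    _ = 4 * p q ^ 2 * A0 p B J Q ^ N := by
        rw [prod_mul_distrib, prod_const, card_univ, Fintype.card_fin, ← prod_filter]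
        have h3 : (univ : Finset (Fin N)).filter (fun x => x = i ∨ x = j) = {i, j} := by
          ext x; simp
        rw [h3, prod_pair hij]
        ring

lemma excl_nonneg (ω : Fin N → Finset ℕ) : 0 ≤ excl Q ω := by
  unfold excl
  exact prod_nonneg fun q _ => by split_ifs <;> norm_num

lemma excl_le_one (ω : Fin N → Finset ℕ) : excl Q ω ≤ 1 := by
  unfold excl
  exact prod_le_one (fun q _ => by split_ifs <;> norm_num) fun q _ => by split_ifs <;> norm_num

open Classical in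
lemma one_sub_excl_le (ω : Fin N → Finset ℕ) :
    1 - excl Q ω ≤ ∑ q ∈ Q, ∑ x ∈ (univ : Finset (Fin N)).offDiag,
      (if q ∈ ω x.1 then (1 : ℝ) else 0) * (if q ∈ ω x.2 then 1 else 0) := by
  have hnn : ∀ q ∈ Q, 0 ≤ ∑ x ∈ (univ : Finset (Fin N)).offDiag,
      (if q ∈ ω x.1 then (1 : ℝ) else 0) * (if q ∈ ω x.2 then 1 else 0) := fun q _ =>
    sum_nonneg fun x _ => by split_ifs <;> norm_num
  by_cases h : ∀ q ∈ Q, (univ.filter fun i => q ∈ ω i).card ≤ 1
  · have h1 : excl Q ω = 1 := prod_eq_one fun q hq => by rw [if_pos (h q hq)]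
    rw [h1]
    have := sum_nonneg hnn
    linarith
  · push Not at h
    obtain ⟨q, hq, hc⟩ := h
    obtain ⟨i, hi, j, hj, hij⟩ := one_lt_card.1 hc
    simp only [mem_filter, mem_univ, true_and] at hi hj
    have h1 : (1 : ℝ) ≤ ∑ x ∈ (univ : Finset (Fin N)).offDiag,
      (if q ∈ ω x.1 then (1 : ℝ) else 0) * (if q ∈ ω x.2 then 1 else 0) := by
      have h2 := single_le_sum (s := (univ : Finset (Fin N)).offDiag)
        (f := fun x => (if q ∈ ω x.1 then (1 : ℝ) else 0) * (if q ∈ ω x.2 then 1 else 0))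
        (fun x _ => by split_ifs <;> norm_num) (a := (i, j)) (by simp [hij])
      simpa [hi, hj] using h2
    have h2 := single_le_sum hnn hq
    have h3 := excl_nonneg (Q := Q) ω
    linarith

open Classical in
/-- The covering theorem, with a lower bound for the number of good integers. -/
theorem core (h : HitSys Q k hit) (hN : 0 < N) {J : ℕ} (hJ : 0 < J) {B : ℕ → Finset ℕ}
    (hBQ : ∀ m < J, B m ⊆ Q)
    (hA : 1 / 2 ≤ A0 (pp N k) B J Q)
    (hsm : (N : ℝ) ^ 2 * ∑ q ∈ Q, pp N k q ^ 2 ≤ 1 / 16)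
    (hsm2 : (N : ℝ) * ∑ q ∈ Q, ((q : ℝ) ^ 2)⁻¹ ≤ 1 / 2)
    {R θ : ℝ} (hR : 1 ≤ R) (hθ : 0 ≤ θ)
    (htail : R ^ (-θ) * Aw (pp N k) (fun q => (q : ℝ) ^ θ) B J Q ^ N *
      (1 + 2 * N / mu (pp N k) Q ∅) ≤ A0 (pp N k) B J Q ^ N / 8)
    {T : ℕ} (hT : 64 * (N + 1) * R ^ 6 * 2 ^ N ≤ (T : ℝ)) :
    (T : ℝ) ≤ 32 * R ^ 4 * 2 ^ N *
      ((range T).filter fun t => ∀ i : Fin N, ∃ q ∈ Q, hit q i t).card := by
  set p := pp N k with hp
  have hp0 : ∀ q ∈ Q, 0 ≤ p q := fun q hq => pp_nonneg h hN hq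
  have hp1 : ∀ q ∈ Q, p q < 1 := fun q hq => pp_lt_one h hN hq
  have hp1' : ∀ q ∈ Q, p q ≤ 1 := fun q hq => (hp1 q hq).le
  set D := (Om N Q).filter fun σ => deg σ ≤ R with hD
  have hDsub : D ⊆ Om N Q := filter_subset _ _
  set P := ∏ q ∈ Q, q with hPdef
  have hPpos : 0 < P := prod_pos h.pos
  have hcard : ((D.card : ℕ) : ℝ) ≤ 2 * R ^ 2 := card_D_le h.pos R hsm2
  -- periods
  set m : (Fin N → Finset ℕ) → ℕ := fun σ => ∏ q ∈ univ.biUnion σ, q with hm
  have hmP : ∀ σ ∈ D, m σ ∣ P := by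
    intro σ hσ
    refine prod_dvd_prod_of_subset _ _ _ ?_
    rw [biUnion_subset]
    exact fun i _ => mem_Om.1 (hDsub hσ) i
  have hmR : ∀ σ ∈ D, (m σ : ℝ) ≤ R := by
    intro σ hσ
    refine le_trans ?_ (mem_filter.1 hσ).2
    have h1 := prod_biUnion_dvd univ σ
    have h2 : 0 < ∏ i, ∏ q ∈ σ i, q :=
      prod_pos fun i _ => prod_pos fun q hq => h.pos q (mem_Om.1 (hDsub hσ) i hq)
    have h3 := Nat.le_of_dvd h2 h1
    have h4 : (m σ : ℝ) ≤ ((∏ i, ∏ q ∈ σ i, q : ℕ) : ℝ) := by exact_mod_cast h3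
    refine h4.trans ?_
    unfold deg
    push_cast
    exact le_refl _
  have hconfper : ∀ σ ∈ D, ∀ i, ∀ t, chi p (σ i) (conf Q hit (t + m σ) i) =
      chi p (σ i) (conf Q hit t i) := by
    intro σ hσ i t
    unfold chi conf
    refine prod_congr rfl fun q hq => ?_
    have hqQ : q ∈ Q := mem_Om.1 (hDsub hσ) i hq
    have hdvd : q ∣ m σ := dvd_prod_of_mem (fun x => x) (mem_biUnion.2 ⟨i, mem_univ i, hq⟩)
    have hiff : hit q i (t + m σ) ↔ hit q i t := by
      obtain ⟨c, hc⟩ := hdvd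
      rw [hc]
      clear hc
      induction c with
      | zero => simp
      | succ c ih => rw [mul_add, mul_one, ← add_assoc, h.per q hqQ, ih]
    simp only [mem_filter, hqQ, true_and, hiff]
  -- equidistribution for G
  have e1 := equi D (fun σ t => CN p B J σ * psi p σ (conf Q hit t)) m P T R hPpos
    (fun σ hσ t => by
      rw [abs_mul]
      exact mul_le_one₀ (abs_CN_le hBQ hp0 hp1' σ) (abs_nonneg _)
        (abs_psi_le hp0 hp1' (hDsub hσ) _))
    (fun σ hσ t => by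
      congr 1
      unfold psi
      exact prod_congr rfl fun i _ => hconfper σ hσ i t) hmP hmR
  have e2 : ∀ i : Fin N, |∑ t ∈ range T, (∑ σ ∈ D, CN p B J σ *
      psi p σ (Function.update (conf Q hit t) i ∅)) ^ 2 -
      T * ((∑ t ∈ range P, (∑ σ ∈ D, CN p B J σ *
      psi p σ (Function.update (conf Q hit t) i ∅)) ^ 2) / P)| ≤
      (D.card : ℝ) ^ 2 * (2 * R ^ 2) := by
    intro i
    refine equi D (fun σ t => CN p B J σ * psi p σ (Function.update (conf Q hit t) i ∅)) m P T R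
      hPpos (fun σ hσ t => ?_) (fun σ hσ t => ?_) hmP hmR
    · rw [abs_mul]
      exact mul_le_one₀ (abs_CN_le hBQ hp0 hp1' σ) (abs_nonneg _)
        (abs_psi_le hp0 hp1' (hDsub hσ) _)
    · congr 1
      unfold psi
      refine prod_congr rfl fun j _ => ?_
      by_cases hj : j = i
      · subst hj; simp
      · rw [Function.update_of_ne hj, Function.update_of_ne hj]
        exact hconfper σ hσ j t
  -- rewriting as ER
  have f1 : (∑ t ∈ range P, (∑ σ ∈ D, CN p B J σ * psi p σ (conf Q hit t)) ^ 2) / (P : ℝ) =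
      ER Q hit (fun ω => GN p B J D ω ^ 2) := rfl
  have f2 : ∀ i : Fin N, (∑ t ∈ range P, (∑ σ ∈ D, CN p B J σ *
      psi p σ (Function.update (conf Q hit t) i ∅)) ^ 2) / (P : ℝ) =
      ER Q hit (fun ω => GN p B J D (Function.update ω i ∅) ^ 2) := fun i => rfl
  rw [f1] at e1
  simp only [f2] at e2
  -- the pointwise inequality
  have hGsup : ∀ t, (∑ σ ∈ D, CN p B J σ * psi p σ (conf Q hit t)) ^ 2 ≤ 4 * R ^ 4 := by
    intro t
    have h1 : |∑ σ ∈ D, CN p B J σ * psi p σ (conf Q hit t)| ≤ 2 * R ^ 2 := by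
      refine (abs_sum_le_sum_abs _ _).trans (le_trans ?_ hcard)
      calc ∑ σ ∈ D, |CN p B J σ * psi p σ (conf Q hit t)| ≤ ∑ σ ∈ D, (1 : ℝ) := by
            refine sum_le_sum fun σ hσ => ?_
            rw [abs_mul]
            exact mul_le_one₀ (abs_CN_le hBQ hp0 hp1' σ) (abs_nonneg _)
              (abs_psi_le hp0 hp1' (hDsub hσ) _)
        _ = D.card := by simp
    have h2 := pow_le_pow_left₀ (abs_nonneg _) h1 2
    rw [sq_abs] at h2
    calc _ ≤ (2 * R ^ 2) ^ 2 := h2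
      _ = 4 * R ^ 4 := by ring
  have hpt : ∀ t ∈ range T, (∑ σ ∈ D, CN p B J σ * psi p σ (conf Q hit t)) ^ 2 ≤
      ∑ i : Fin N, (∑ σ ∈ D, CN p B J σ *
      psi p σ (Function.update (conf Q hit t) i ∅)) ^ 2 +
      (if ∀ i : Fin N, ∃ q ∈ Q, hit q i t then 4 * R ^ 4 else 0) := by
    intro t ht
    by_cases hgood : ∀ i : Fin N, ∃ q ∈ Q, hit q i t
    · rw [if_pos hgood]
      have h1 : 0 ≤ ∑ i : Fin N, (∑ σ ∈ D, CN p B J σ *
        psi p σ (Function.update (conf Q hit t) i ∅)) ^ 2 := sum_nonneg fun _ _ => sq_nonneg _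
      linarith [hGsup t]
    rw [if_neg hgood, add_zero]
    push Not at hgood
    obtain ⟨i, hi⟩ := hgood
    have h1 : conf Q hit t i = ∅ := by
      unfold conf
      rw [filter_eq_empty_iff]
      exact fun q hq => hi q hq
    have h2 : Function.update (conf Q hit t) i ∅ = conf Q hit t := by
      rw [← h1, Function.update_eq_self]
    have h3 := single_le_sum (s := (univ : Finset (Fin N))) (f := fun i => (∑ σ ∈ D,
      CN p B J σ * psi p σ (Function.update (conf Q hit t) i ∅)) ^ 2)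
      (fun _ _ => sq_nonneg _) (mem_univ i)
    simp only [h2] at h3
    exact h3
  have hsum := sum_le_sum hpt
  rw [sum_add_distrib, sum_comm] at hsum
  set Gd : ℝ := (((range T).filter fun t => ∀ i : Fin N, ∃ q ∈ Q, hit q i t).card : ℝ) with hGd
  have hGsum : ∑ t ∈ range T, (if ∀ i : Fin N, ∃ q ∈ Q, hit q i t then 4 * R ^ 4 else 0) =
      4 * R ^ 4 * Gd := by
    rw [← sum_filter, sum_const, nsmul_eq_mul, hGd]
    ring
  rw [hGsum] at hsum
  -- bounds for the averages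
  have hZ1 := ZZ_le_one h hN
  have hZ2 := ZZ_ge h hN (by linarith)
  have hV : 0 < mu p Q ∅ := by
    unfold mu
    rw [prod_empty, one_mul, sdiff_empty]
    exact prod_pos fun q hq => by have := hp1 q hq; linarith
  set tail := EN p Q (fun ω => (FN B J ω - GN p B J D ω) ^ 2) with htaildef
  have htail0 : 0 ≤ tail := sum_nonneg fun ω hω =>
    mul_nonneg (muN_nonneg hω hp0 hp1') (sq_nonneg _)
  have htail1 : tail ≤ R ^ (-θ) * Aw p (fun q => (q : ℝ) ^ θ) B J Q ^ N :=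
    tail_bound hBQ hp0 hp1' R θ (by linarith) hθ
  have hA0pos : 0 < A0 p B J Q := by linarith
  have hAN : 0 < A0 p B J Q ^ N := pow_pos hA0pos N
  have hfac : 0 < 1 + 2 * (N : ℝ) / mu p Q ∅ := by positivity
  have htail2 : tail * (1 + 2 * N / mu p Q ∅) ≤ A0 p B J Q ^ N / 8 :=
    (mul_le_mul_of_nonneg_right htail1 hfac.le).trans htail
  -- lower bound
  have lower : 3 / 8 * A0 p B J Q ^ N - tail ≤ ER Q hit (fun ω => GN p B J D ω ^ 2) := by
    have g1 := ER_eq h hN (fun ω => GN p B J D ω ^ 2)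
    have g2 : 0 ≤ EN p Q (fun ω => GN p B J D ω ^ 2 * excl Q ω) := sum_nonneg fun ω hω =>
      mul_nonneg (muN_nonneg hω hp0 hp1') (mul_nonneg (sq_nonneg _) (excl_nonneg ω))
    have g3 : EN p Q (fun ω => GN p B J D ω ^ 2 * excl Q ω) ≤
        ER Q hit (fun ω => GN p B J D ω ^ 2) := by
      rw [← g1] at g2 ⊢
      have : 0 ≤ ER Q hit (fun ω => GN p B J D ω ^ 2) := by
        by_contra hneg
        push Not at hneg
        nlinarith
      nlinarith
    have g4 : EN p Q (fun ω => 1 / 2 * (FN B J ω ^ 2 - FN B J ω ^ 2 *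
        ∑ q ∈ Q, ∑ x ∈ (univ : Finset (Fin N)).offDiag,
        ((if q ∈ ω x.1 then (1 : ℝ) else 0) * (if q ∈ ω x.2 then 1 else 0))) -
        (FN B J ω - GN p B J D ω) ^ 2) ≤ EN p Q (fun ω => GN p B J D ω ^ 2 * excl Q ω) := by
      refine EN_mono hp0 hp1' fun ω _ => ?_
      have k1 := one_sub_excl_le (Q := Q) ω
      have k2 := excl_nonneg (Q := Q) ω
      have k3 := excl_le_one (Q := Q) ω
      have k4 : FN B J ω ^ 2 * (1 - ∑ q ∈ Q, ∑ x ∈ (univ : Finset (Fin N)).offDiag,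
        ((if q ∈ ω x.1 then (1 : ℝ) else 0) * (if q ∈ ω x.2 then 1 else 0))) ≤
        FN B J ω ^ 2 * excl Q ω := mul_le_mul_of_nonneg_left (by linarith) (sq_nonneg _)
      have k5 : (FN B J ω - GN p B J D ω) ^ 2 * excl Q ω ≤ (FN B J ω - GN p B J D ω) ^ 2 :=
        mul_le_of_le_one_right (sq_nonneg _) k3
      have k6 : 0 ≤ (FN B J ω - 2 * GN p B J D ω) ^ 2 * excl Q ω :=
        mul_nonneg (sq_nonneg _) k2
      nlinarith
    have g5 : EN p Q (fun ω => 1 / 2 * (FN B J ω ^ 2 - FN B J ω ^ 2 *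
        ∑ q ∈ Q, ∑ x ∈ (univ : Finset (Fin N)).offDiag,
        ((if q ∈ ω x.1 then (1 : ℝ) else 0) * (if q ∈ ω x.2 then 1 else 0))) -
        (FN B J ω - GN p B J D ω) ^ 2) =
        1 / 2 * (A0 p B J Q ^ N - ∑ q ∈ Q, ∑ x ∈ (univ : Finset (Fin N)).offDiag,
          EN p Q (fun ω => FN B J ω ^ 2 * ((if q ∈ ω x.1 then 1 else 0) *
          (if q ∈ ω x.2 then 1 else 0)))) - tail := by
      rw [EN_sub, EN_smul, EN_sub, EN_FN_sq]
      congr 3
      have : (fun ω : Fin N → Finset ℕ => FN B J ω ^ 2 *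
        ∑ q ∈ Q, ∑ x ∈ (univ : Finset (Fin N)).offDiag,
        ((if q ∈ ω x.1 then (1 : ℝ) else 0) * (if q ∈ ω x.2 then 1 else 0))) =
        fun ω => ∑ q ∈ Q, ∑ x ∈ (univ : Finset (Fin N)).offDiag, (FN B J ω ^ 2 *
          ((if q ∈ ω x.1 then (1 : ℝ) else 0) * (if q ∈ ω x.2 then 1 else 0))) := by
        funext ω
        rw [mul_sum]
        exact sum_congr rfl fun q _ => mul_sum _ _ _
      rw [this, EN_sum]
      refine sum_congr rfl fun q _ => ?_
      rw [EN_sum]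
    have g6 : ∑ q ∈ Q, ∑ x ∈ (univ : Finset (Fin N)).offDiag,
          EN p Q (fun ω => FN B J ω ^ 2 * ((if q ∈ ω x.1 then 1 else 0) *
          (if q ∈ ω x.2 then 1 else 0))) ≤ 1 / 4 * A0 p B J Q ^ N := by
      calc ∑ q ∈ Q, ∑ x ∈ (univ : Finset (Fin N)).offDiag,
          EN p Q (fun ω => FN B J ω ^ 2 * ((if q ∈ ω x.1 then 1 else 0) *
          (if q ∈ ω x.2 then 1 else 0)))
          ≤ ∑ q ∈ Q, ∑ _x ∈ (univ : Finset (Fin N)).offDiag, (4 * p q ^ 2 * A0 p B J Q ^ N) := by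
            refine sum_le_sum fun q hq => sum_le_sum fun x hx => ?_
            rw [mem_offDiag] at hx
            exact EN_double hp0 hp1' hA hq hx.2.2
        _ ≤ ∑ q ∈ Q, (N : ℝ) ^ 2 * (4 * p q ^ 2 * A0 p B J Q ^ N) := by
            refine sum_le_sum fun q _ => ?_
            rw [sum_const, nsmul_eq_mul]
            refine mul_le_mul_of_nonneg_right ?_ (by positivity)
            have : ((univ : Finset (Fin N)).offDiag.card : ℝ) ≤ ((N * N : ℕ) : ℝ) := by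
              rw [offDiag_card, card_univ, Fintype.card_fin]
              exact_mod_cast Nat.sub_le _ _
            refine this.trans ?_
            push_cast
            rw [pow_two]
        _ = 4 * A0 p B J Q ^ N * ((N : ℝ) ^ 2 * ∑ q ∈ Q, p q ^ 2) := by
            rw [mul_sum, mul_sum]
            exact sum_congr rfl fun q _ => by ring
        _ ≤ 1 / 4 * A0 p B J Q ^ N := by nlinarith
    rw [g5] at g4
    linarith
  -- upper bounds
  have upper : ∀ i : Fin N, ER Q hit (fun ω => GN p B J D (Function.update ω i ∅) ^ 2) ≤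
      2 * tail / mu p Q ∅ := by
    intro i
    have g1 := ER_eq h hN (fun ω => GN p B J D (Function.update ω i ∅) ^ 2)
    have g2 : EN p Q (fun ω => GN p B J D (Function.update ω i ∅) ^ 2 * excl Q ω) ≤
        EN p Q (fun ω => GN p B J D (Function.update ω i ∅) ^ 2) :=
      EN_mono hp0 hp1' fun ω _ => mul_le_of_le_one_right (sq_nonneg _) (excl_le_one ω)
    have g3 := EN_update (Q := Q) p (fun ω => GN p B J D ω ^ 2) i
    have g4 : EN p Q (fun ω => if ω i = ∅ then GN p B J D ω ^ 2 else 0) ≤ tail := by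
      refine EN_mono hp0 hp1' fun ω _ => ?_
      split_ifs with hi
      · have : FN B J ω = 0 := prod_eq_zero (mem_univ i) (by rw [hi, cov_empty hJ])
        rw [this]
        exact le_of_eq (by ring)
      · exact sq_nonneg _
    have g5 : EN p Q (fun ω => GN p B J D (Function.update ω i ∅) ^ 2) ≤ tail / mu p Q ∅ := by
      rw [le_div_iff₀ hV, g3]
      exact g4
    have g6 : 0 ≤ EN p Q (fun ω => GN p B J D (Function.update ω i ∅) ^ 2 * excl Q ω) :=
      sum_nonneg fun ω hω =>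
        mul_nonneg (muN_nonneg hω hp0 hp1') (mul_nonneg (sq_nonneg _) (excl_nonneg ω))
    have g7 : 0 ≤ ER Q hit (fun ω => GN p B J D (Function.update ω i ∅) ^ 2) := by
      unfold ER
      exact div_nonneg (sum_nonneg fun _ _ => sq_nonneg _) (Nat.cast_nonneg _)
    have g8 : (1 : ℝ) / 2 * ER Q hit (fun ω => GN p B J D (Function.update ω i ∅) ^ 2) ≤
        tail / mu p Q ∅ := by nlinarith
    have g9 : 2 * tail / mu p Q ∅ = 2 * (tail / mu p Q ∅) := by ring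
    rw [g9]
    linarith
  -- combine
  have hT0 : (0 : ℝ) ≤ T := Nat.cast_nonneg _
  have hDc : (D.card : ℝ) ^ 2 * (2 * R ^ 2) ≤ 8 * R ^ 6 := by
    have h1 : (D.card : ℝ) ^ 2 ≤ (2 * R ^ 2) ^ 2 :=
      pow_le_pow_left₀ (Nat.cast_nonneg _) hcard 2
    nlinarith [sq_nonneg R]
  have c1 : T * (3 / 8 * A0 p B J Q ^ N - tail) - 8 * R ^ 6 ≤
      ∑ t ∈ range T, (∑ σ ∈ D, CN p B J σ * psi p σ (conf Q hit t)) ^ 2 := by
    have := (abs_le.1 (e1.trans hDc)).1
    have h2 := mul_le_mul_of_nonneg_left lower hT0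
    linarith
  have c2 : ∑ i : Fin N, ∑ t ∈ range T, (∑ σ ∈ D, CN p B J σ *
      psi p σ (Function.update (conf Q hit t) i ∅)) ^ 2 ≤
      N * (T * (2 * tail / mu p Q ∅) + 8 * R ^ 6) := by
    calc ∑ i : Fin N, ∑ t ∈ range T, (∑ σ ∈ D, CN p B J σ *
      psi p σ (Function.update (conf Q hit t) i ∅)) ^ 2
        ≤ ∑ _i : Fin N, (T * (2 * tail / mu p Q ∅) + 8 * R ^ 6) := by
          refine sum_le_sum fun i _ => ?_
          have := (abs_le.1 ((e2 i).trans hDc)).2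
          have h2 := mul_le_mul_of_nonneg_left (upper i) hT0
          linarith
      _ = N * (T * (2 * tail / mu p Q ∅) + 8 * R ^ 6) := by
          rw [sum_const, card_univ, Fintype.card_fin, nsmul_eq_mul]
  have c3 : (T : ℝ) * (3 / 8 * A0 p B J Q ^ N - tail) - 8 * R ^ 6 ≤
      N * (T * (2 * tail / mu p Q ∅) + 8 * R ^ 6) + 4 * R ^ 4 * Gd :=
    c1.trans (hsum.trans (add_le_add c2 le_rfl))
  have c4 : (T : ℝ) * (3 / 8 * A0 p B J Q ^ N - tail * (1 + 2 * N / mu p Q ∅)) ≤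
      8 * (N + 1) * R ^ 6 + 4 * R ^ 4 * Gd := by
    have : tail * (1 + 2 * N / mu p Q ∅) = tail + N * (2 * tail / mu p Q ∅) := by ring
    rw [this]
    linarith
  have c5 : (T : ℝ) * (1 / 4 * A0 p B J Q ^ N) ≤ 8 * (N + 1) * R ^ 6 + 4 * R ^ 4 * Gd := by
    refine le_trans (mul_le_mul_of_nonneg_left ?_ hT0) c4
    linarith
  have c6 : (1 / 2 : ℝ) ^ N ≤ A0 p B J Q ^ N := pow_le_pow_left₀ (by norm_num) hA N
  have c7 : (T : ℝ) * (1 / 2) ^ N ≤ 32 * (N + 1) * R ^ 6 + 16 * R ^ 4 * Gd := by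
    have := mul_le_mul_of_nonneg_left c6 hT0
    linarith
  have c8 : (1 / 2 : ℝ) ^ N * 2 ^ N = 1 := by
    rw [← mul_pow]; norm_num
  have c9 : (T : ℝ) ≤ 32 * (N + 1) * R ^ 6 * 2 ^ N + 16 * R ^ 4 * 2 ^ N * Gd := by
    calc (T : ℝ) = (T * (1 / 2) ^ N) * 2 ^ N := by rw [mul_assoc, c8, mul_one]
      _ ≤ (32 * (N + 1) * R ^ 6 + 16 * R ^ 4 * Gd) * 2 ^ N :=
          mul_le_mul_of_nonneg_right c7 (by positivity)
      _ = _ := by ring
  linarith

/-- The covering theorem, existence form. -/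
theorem core_exists (h : HitSys Q k hit) (hN : 0 < N) {J : ℕ} (hJ : 0 < J) {B : ℕ → Finset ℕ}
    (hBQ : ∀ m < J, B m ⊆ Q)
    (hA : 1 / 2 ≤ A0 (pp N k) B J Q)
    (hsm : (N : ℝ) ^ 2 * ∑ q ∈ Q, pp N k q ^ 2 ≤ 1 / 16)
    (hsm2 : (N : ℝ) * ∑ q ∈ Q, ((q : ℝ) ^ 2)⁻¹ ≤ 1 / 2)
    {R θ : ℝ} (hR : 1 ≤ R) (hθ : 0 ≤ θ)
    (htail : R ^ (-θ) * Aw (pp N k) (fun q => (q : ℝ) ^ θ) B J Q ^ N *
      (1 + 2 * N / mu (pp N k) Q ∅) ≤ A0 (pp N k) B J Q ^ N / 8)
    {T : ℕ} (hT : 64 * (N + 1) * R ^ 6 * 2 ^ N ≤ (T : ℝ)) :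
    ∃ t < T, ∀ i : Fin N, ∃ q ∈ Q, hit q i t := by
  classical
  have h1 := core h hN hJ hBQ hA hsm hsm2 hR hθ htail hT
  have hT0 : (0 : ℝ) < T := lt_of_lt_of_le (by positivity) hT
  have h2 : ((range T).filter fun t => ∀ i : Fin N, ∃ q ∈ Q, hit q i t).Nonempty := by
    rw [nonempty_iff_ne_empty]
    intro h0
    rw [h0, card_empty, Nat.cast_zero, mul_zero] at h1
    linarith
  obtain ⟨t, ht⟩ := h2
  rw [mem_filter, mem_range] at ht
  exact ⟨t, ht.1, ht.2⟩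

end Pool.Agent.GapSieve
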