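import Pool.Agent.Lib.GapSieve.Params

/-!
# The covering theorem with explicit parameters
-/

open Finset

namespace Pool.Agent.GapSieve

lemma nat_ineq1 (J : ℕ) (hJ : 7 ≤ J) : 17 * J ≤ 2 ^ J := by
  induction J, hJ using Nat.le_induction with
  | base => norm_num
  | succ n hn ih => rw [pow_succ]; omega

lemma nat_ineq2 (J : ℕ) (hJ : 7 ≤ J) : 3 * J + 9 ≤ 2 ^ J := by
  induction J, hJ using Nat.le_induction with
  | base => norm_num
  | succ n hn ih => rw [pow_succ]; omega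

lemma nat_ineq3 (J : ℕ) (hJ : 7 ≤ J) : 13 * J * 2 ^ J ≤ 8 ^ J := by
  have h1 := nat_ineq1 J hJ
  have h2 : (8 : ℕ) ^ J = 2 ^ J * (2 ^ J * 2 ^ J) := by
    rw [← mul_pow, ← mul_pow]
    norm_num
  rw [h2]
  have h3 : 1 ≤ 2 ^ J := Nat.one_le_two_pow
  calc 13 * J * 2 ^ J ≤ 2 ^ J * 2 ^ J := Nat.mul_le_mul_right _ (by omega)
    _ = 2 ^ J * (1 * 2 ^ J) := by rw [one_mul]
    _ ≤ 2 ^ J * (2 ^ J * 2 ^ J) := Nat.mul_le_mul_left _ (Nat.mul_le_mul_right _ h3)

/-- the size of `log (n0^3)` -/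
lemma logn_le {n0 : ℕ} (hJ : 7 ≤ Jn n0) : Real.log ((n0 ^ 3 : ℕ) : ℝ) ≤ 13 * Jn n0 := by
  have hn : n0 ≠ 0 := by
    rintro rfl
    simp [Jn] at hJ
  have h1 : n0 < 8 ^ (Jn n0 + 1) := Nat.lt_pow_succ_log_self (by norm_num) n0
  have h2 : Real.log n0 ≤ (Jn n0 + 1) * Real.log 8 := by
    have h3 : Real.log n0 ≤ Real.log ((8 : ℝ) ^ (Jn n0 + 1)) :=
      Real.log_le_log (by exact_mod_cast Nat.pos_of_ne_zero hn) (by exact_mod_cast h1.le)
    rw [Real.log_pow] at h3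
    push_cast at h3
    exact h3
  have h6 : Real.log 8 = 3 * Real.log 2 := by
    rw [show (8 : ℝ) = 2 ^ 3 by norm_num, Real.log_pow]; norm_num
  have h7 := Real.log_two_lt_d9
  have hJ' : (7 : ℝ) ≤ Jn n0 := by exact_mod_cast hJ
  push_cast
  rw [Real.log_pow]
  push_cast
  nlinarith

open Classical in
theorem cover_large : ∃ C : ℝ, 0 < C ∧ ∃ n₁ : ℕ, ∀ n0 : ℕ, n₁ ≤ n0 → ∀ N : ℕ, N ≤ n0 →
    ∀ hit : ℕ → Fin N → ℕ → Prop,
    (∀ q ∈ Qset n0, ∀ i t, hit q i (t + q) ↔ hit q i t) →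
    (∀ q ∈ Qset n0, ∀ i, hitCount hit q i = 2) →
    (∀ q ∈ Qset n0, ∀ i j t, hit q i t → hit q j t → i = j) →
    ∀ T : ℕ, Real.exp (C * n0) ≤ T → (T : ℝ) ≤ Real.exp (C * n0) *
      ((range T).filter fun t => ∀ i : Fin N, ∃ q ∈ Qset n0, hit q i t).card := by
  obtain ⟨C, hC0, hC⟩ := mertens4
  set K1 : ℝ := 64 * Real.exp 16 * Real.exp C with hK1
  have hK1pos : 0 < K1 := by positivity
  set C7 : ℝ := 13 * (2 * K1 + 1) with hC7
  have hC7pos : 0 < C7 := by positivity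
  refine ⟨6 * C7 + 3, by positivity, 8 ^ (max ⌈4 * Real.exp C⌉₊ 7), ?_⟩
  intro n0 hn0 N hNn hit hper hcnt hexc T hT
  -- the number of scales
  have hJ : max ⌈4 * Real.exp C⌉₊ 7 ≤ Jn n0 := Nat.le_log_of_pow_le (by norm_num) hn0
  have hJ7 : 7 ≤ Jn n0 := (le_max_right _ _).trans hJ
  have hJC : 4 * Real.exp C ≤ Jn n0 := by
    have h1 : 4 * Real.exp C ≤ ⌈4 * Real.exp C⌉₊ := Nat.le_ceil _
    have h2 : ((⌈4 * Real.exp C⌉₊ : ℕ) : ℝ) ≤ Jn n0 := by
      exact_mod_cast (le_max_left _ _).trans hJ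
    linarith
  have hn8 : 8 ^ 7 ≤ n0 := (Nat.pow_le_pow_right (by norm_num) (le_max_right _ _)).trans hn0
  have hn0pos : n0 ≠ 0 := by
    rintro rfl
    norm_num at hn8
  have h8J : 8 ^ Jn n0 ≤ n0 := Nat.pow_log_le_self 8 hn0pos
  have hn8' : 8 ≤ n0 := le_trans (by norm_num) hn8
  have hn256 : 256 ≤ n0 := le_trans (by norm_num) hn8
  have hn0R : (256 : ℝ) ≤ n0 := by exact_mod_cast hn256
  have hTpos : (0 : ℝ) < T := lt_of_lt_of_le (Real.exp_pos _) hT
  rcases Nat.eq_zero_or_pos N with hN0 | hN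
  · subst hN0
    have h1 : (range T).filter (fun t => ∀ i : Fin 0, ∃ q ∈ Qset n0, hit q i t) = range T := by
      rw [filter_eq_self]
      exact fun t _ i => i.elim0
    rw [h1, card_range]
    have h2 : 1 ≤ Real.exp ((6 * C7 + 3) * (n0 : ℝ)) := Real.one_le_exp (by positivity)
    nlinarith
  have hNR : (1 : ℝ) ≤ N := by exact_mod_cast hN
  have hNnR : (N : ℝ) ≤ n0 := by exact_mod_cast hNn
  have hJ' : (7 : ℝ) ≤ Jn n0 := by exact_mod_cast hJ7
  have hcube : (n0 : ℝ) ^ 3 = ((n0 ^ 3 : ℕ) : ℝ) := by push_cast; ring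
  have hQ3 : ∀ q ∈ Qset n0, (n0 : ℝ) ^ 3 < q := by
    intro q hq
    exact_mod_cast (mem_Qset hq).1
  have hQpos : ∀ q ∈ Qset n0, (0 : ℝ) < q := fun q hq => by
    have := hQ3 q hq
    have h2 : (0 : ℝ) < (n0 : ℝ) ^ 3 := by positivity
    linarith
  -- the hitting system
  have hsys : HitSys (Qset n0) (fun _ => 2) hit := by
    refine ⟨?_, ?_, hper, hcnt, hexc, ?_⟩
    · intro q hq
      exact (mem_Qset hq).2.2.1.pos
    · intro q hq q' hq' hne
      exact (Nat.coprime_primes (mem_Qset hq).2.2.1 (mem_Qset hq').2.2.1).2 hne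
    · intro q hq
      have h1 := (mem_Qset hq).1
      have h2 : n0 * 2 ≤ n0 ^ 3 := by
        have : n0 ^ 3 = n0 * (n0 * n0) := by ring
        rw [this]
        exact Nat.mul_le_mul_left _ (by nlinarith)
      calc N * 2 ≤ n0 * 2 := Nat.mul_le_mul_right _ hNn
        _ ≤ n0 ^ 3 := h2
        _ < q := h1
  -- sums of inverse squares
  have hinv : ∑ q ∈ Qset n0, ((q : ℝ) ^ 2)⁻¹ ≤ 1 / (n0 : ℝ) ^ 3 := by
    have h1 : ∑ q ∈ Qset n0, ((q : ℝ) ^ 2)⁻¹ ≤
        ∑ q ∈ Ioc (n0 ^ 3) ((n0 ^ 3) ^ (2 ^ Jn n0)), ((q : ℝ) ^ 2)⁻¹ :=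
      sum_le_sum_of_subset_of_nonneg (filter_subset _ _) fun q _ _ => by positivity
    have h2 := sum_Ioc_inv_sq_le_sub (α := ℝ) (k := n0 ^ 3) (n := (n0 ^ 3) ^ (2 ^ Jn n0))
      (by positivity) (Nat.le_self_pow (by positivity) _)
    refine h1.trans (h2.trans ?_)
    rw [hcube, one_div]
    have : (0 : ℝ) ≤ (((n0 ^ 3) ^ (2 ^ Jn n0) : ℕ) : ℝ)⁻¹ := by positivity
    linarith
  have hsm : (N : ℝ) ^ 2 * ∑ q ∈ Qset n0, pp N (fun _ => 2) q ^ 2 ≤ 1 / 16 := by
    have h1 : ∑ q ∈ Qset n0, pp N (fun _ => 2) q ^ 2 ≤ 16 * ∑ q ∈ Qset n0, ((q : ℝ) ^ 2)⁻¹ := by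
      rw [mul_sum]
      refine sum_le_sum fun q hq => ?_
      have h2 := pp_bounds (by omega) hN hNn (mem_Qset hq).1
      have hq0 := hQpos q hq
      have h3 : 0 ≤ pp N (fun _ => 2) q := le_trans (by positivity) h2.1
      calc pp N (fun _ => 2) q ^ 2 ≤ (4 / (q : ℝ)) ^ 2 := pow_le_pow_left₀ h3 h2.2 2
        _ = 16 * ((q : ℝ) ^ 2)⁻¹ := by
            rw [div_pow]; norm_num; ring
    have h4 : (N : ℝ) ^ 2 ≤ (n0 : ℝ) ^ 2 := pow_le_pow_left₀ (by linarith) hNnR 2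
    have h5 : ∑ q ∈ Qset n0, pp N (fun _ => 2) q ^ 2 ≤ 16 / (n0 : ℝ) ^ 3 := by
      refine h1.trans ?_
      have : 16 * (1 / (n0 : ℝ) ^ 3) = 16 / (n0 : ℝ) ^ 3 := by ring
      rw [← this]
      exact mul_le_mul_of_nonneg_left hinv (by norm_num)
    calc (N : ℝ) ^ 2 * ∑ q ∈ Qset n0, pp N (fun _ => 2) q ^ 2
        ≤ (n0 : ℝ) ^ 2 * (16 / (n0 : ℝ) ^ 3) :=
          mul_le_mul h4 h5 (sum_nonneg fun _ _ => sq_nonneg _) (by positivity)
      _ = 16 / n0 := by field_simp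
      _ ≤ 1 / 16 := by
          rw [div_le_div_iff₀ (by linarith) (by norm_num)]
          linarith
  have hsm2 : (N : ℝ) * ∑ q ∈ Qset n0, ((q : ℝ) ^ 2)⁻¹ ≤ 1 / 2 := by
    calc (N : ℝ) * ∑ q ∈ Qset n0, ((q : ℝ) ^ 2)⁻¹ ≤ n0 * (1 / (n0 : ℝ) ^ 3) :=
          mul_le_mul hNnR hinv (sum_nonneg fun _ _ => by positivity) (by linarith)
      _ = 1 / (n0 : ℝ) ^ 2 := by field_simp
      _ ≤ 1 / 2 := by
          apply one_div_le_one_div_of_le (by norm_num)
          nlinarith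
  have hA := A0_bound hC hn8' hN hNn hJC
  have hAw := Aw_bound hC hn8' hN hNn
  set A := A0 (pp N (fun _ => 2)) (Bset n0) (Jn n0) (Qset n0) with hAdef
  have hApos : 0 < A := by linarith
  -- parameters
  have hL := logn_ge hn8'
  have hL0 : 0 < Real.log ((n0 ^ 3 : ℕ) : ℝ) := by linarith
  have hL13 := logn_le hJ7
  have hth : 0 < th n0 := by unfold th; positivity
  set P2 : ℝ := 2 ^ Jn n0 with hP2
  have hP2pos : 0 < P2 := by positivity
  have hthge : 1 / (13 * (P2 * Jn n0)) ≤ th n0 := by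
    unfold th
    apply one_div_le_one_div_of_le (by positivity)
    have := mul_le_mul_of_nonneg_left hL13 hP2pos.le
    linarith
  have hAwN : Aw (pp N (fun _ => 2)) (fun q => (q : ℝ) ^ th n0) (Bset n0) (Jn n0)
      (Qset n0) ^ N ≤ A ^ N * Real.exp (2 * K1 * n0 / (P2 * Jn n0)) := by
    have h1 : Aw (pp N (fun _ => 2)) (fun q => (q : ℝ) ^ th n0) (Bset n0) (Jn n0)
        (Qset n0) ≤ A * Real.exp (2 * K1 / (P2 * Jn n0)) := by
      have h2 : K1 / (P2 * Jn n0) ≤ A * (2 * K1 / (P2 * Jn n0)) := by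
        have h3 : 0 ≤ K1 / (P2 * Jn n0) := by positivity
        have h4 : A * (2 * K1 / (P2 * Jn n0)) = 2 * A * (K1 / (P2 * Jn n0)) := by ring
        rw [h4]
        nlinarith
      have h5 := Real.add_one_le_exp (2 * K1 / (P2 * Jn n0))
      have h6 := mul_le_mul_of_nonneg_left h5 hApos.le
      calc _ ≤ A + K1 / (P2 * Jn n0) := hAw
        _ ≤ A * (2 * K1 / (P2 * Jn n0) + 1) := by linarith
        _ ≤ _ := h6
    have h7 : 0 ≤ Aw (pp N (fun _ => 2)) (fun q => (q : ℝ) ^ th n0) (Bset n0) (Jn n0)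
        (Qset n0) := by
      unfold Aw
      refine sum_nonneg fun S hS => mul_nonneg (sq_nonneg _) (prod_nonneg fun q hq => ?_)
      have hqQ := mem_powerset.1 hS hq
      have h8 := pp_nonneg hsys hN hqQ
      have h9 := (pp_lt_one hsys hN hqQ).le
      have h10 := hQpos q hqQ
      have : 0 ≤ 1 - pp N (fun _ => 2) q := by linarith
      positivity
    calc _ ≤ (A * Real.exp (2 * K1 / (P2 * Jn n0))) ^ N := pow_le_pow_left₀ h7 h1 N
      _ = A ^ N * Real.exp (N * (2 * K1 / (P2 * Jn n0))) := by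
          rw [mul_pow, ← Real.exp_nat_mul]
      _ ≤ A ^ N * Real.exp (2 * K1 * n0 / (P2 * Jn n0)) := by
          refine mul_le_mul_of_nonneg_left (Real.exp_le_exp.2 ?_) (by positivity)
          have h8 : 2 * K1 * n0 / (P2 * Jn n0) = n0 * (2 * K1 / (P2 * Jn n0)) := by ring
          rw [h8]
          exact mul_le_mul_of_nonneg_right hNnR (by positivity)
  have hR1 : 1 ≤ Real.exp (C7 * n0) := Real.one_le_exp (by positivity)
  have hRth : Real.exp (C7 * n0) ^ (-th n0) ≤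
      Real.exp (-((2 * K1 + 1) * n0 / (P2 * Jn n0))) := by
    rw [← Real.exp_mul]
    refine Real.exp_le_exp.2 ?_
    have h1 : (2 * K1 + 1) * n0 / (P2 * Jn n0) = C7 * n0 * (1 / (13 * (P2 * Jn n0))) := by
      rw [hC7]
      field_simp
    rw [h1]
    have h2 := mul_le_mul_of_nonneg_left hthge (show 0 ≤ C7 * n0 by positivity)
    linarith
  have hmu := mu_empty_bound hn8' hN hNn
  have hmupos : 0 < mu (pp N (fun _ => 2)) (Qset n0) ∅ := lt_of_lt_of_le (Real.exp_pos _) hmu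
  have hfac : 1 + 2 * (N : ℝ) / mu (pp N (fun _ => 2)) (Qset n0) ∅ ≤
      (1 + 2 * n0) * Real.exp (16 * P2) := by
    have h1 : 2 * (N : ℝ) / mu (pp N (fun _ => 2)) (Qset n0) ∅ ≤
        2 * n0 * Real.exp (16 * P2) := by
      rw [div_le_iff₀ hmupos]
      have h2 : Real.exp (16 * P2) * Real.exp (-(16 * P2)) = 1 := by
        rw [← Real.exp_add]; simp
      have h3 := mul_le_mul_of_nonneg_left hmu (show 0 ≤ 2 * (n0 : ℝ) * Real.exp (16 * P2) by
        positivity)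
      have h4 : 2 * (n0 : ℝ) * Real.exp (16 * P2) * Real.exp (-(16 * P2)) = 2 * n0 := by
        rw [mul_assoc, h2, mul_one]
      linarith
    have h5 : 1 ≤ Real.exp (16 * P2) := Real.one_le_exp (by positivity)
    linarith
  have hbig : 8 * (1 + 2 * (n0 : ℝ)) ≤ Real.exp P2 := by
    have h1 : n0 < 8 ^ (Jn n0 + 1) := Nat.lt_pow_succ_log_self (by norm_num) n0
    have h2 : 8 * (1 + 2 * n0) ≤ 2 ^ (2 ^ Jn n0) := by
      have h3 := nat_ineq2 (Jn n0) hJ7
      calc 8 * (1 + 2 * n0) ≤ 64 * n0 := by omega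
        _ ≤ 64 * 8 ^ (Jn n0 + 1) := Nat.mul_le_mul_left _ h1.le
        _ = 2 ^ (3 * Jn n0 + 9) := by
            rw [show (8 : ℕ) = 2 ^ 3 by norm_num, show (64 : ℕ) = 2 ^ 6 by norm_num, ← pow_mul,
              ← pow_add]
            congr 1
            ring
        _ ≤ 2 ^ (2 ^ Jn n0) := Nat.pow_le_pow_right (by norm_num) h3
    have h4 : (8 * (1 + 2 * (n0 : ℝ))) ≤ 2 ^ (2 ^ Jn n0) := by exact_mod_cast h2
    refine h4.trans ?_
    have h5 : (2 : ℝ) ≤ Real.exp 1 := by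
      have := Real.add_one_le_exp (1 : ℝ)
      linarith
    calc (2 : ℝ) ^ (2 ^ Jn n0) ≤ Real.exp 1 ^ (2 ^ Jn n0) := pow_le_pow_left₀ (by norm_num) h5 _
      _ = Real.exp P2 := by
          rw [← Real.exp_nat_mul, hP2]
          push_cast
          rw [mul_one]
  have hmain : 17 * P2 ≤ n0 / (P2 * Jn n0) := by
    rw [le_div_iff₀ (by positivity)]
    have h1 := nat_ineq1 (Jn n0) hJ7
    have h2 : (17 : ℝ) * Jn n0 ≤ P2 := by rw [hP2]; exact_mod_cast h1
    have h3 : P2 * (P2 * P2) ≤ n0 := by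
      have h4 : (8 : ℝ) ^ Jn n0 ≤ n0 := by exact_mod_cast h8J
      have h5 : (8 : ℝ) ^ Jn n0 = P2 * (P2 * P2) := by
        rw [hP2, ← mul_pow, ← mul_pow]; norm_num
      rw [← h5]
      exact h4
    calc 17 * P2 * (P2 * Jn n0) = P2 * P2 * (17 * Jn n0) := by ring
      _ ≤ P2 * P2 * P2 := mul_le_mul_of_nonneg_left h2 (by positivity)
      _ = P2 * (P2 * P2) := by ring
      _ ≤ n0 := h3
  have htail : Real.exp (C7 * n0) ^ (-th n0) *
      Aw (pp N (fun _ => 2)) (fun q => (q : ℝ) ^ th n0) (Bset n0) (Jn n0) (Qset n0) ^ N *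
      (1 + 2 * N / mu (pp N (fun _ => 2)) (Qset n0) ∅) ≤ A ^ N / 8 := by
    have hfacpos : 0 ≤ 1 + 2 * (N : ℝ) / mu (pp N (fun _ => 2)) (Qset n0) ∅ := by positivity
    have hAN : 0 < A ^ N := pow_pos hApos N
    calc Real.exp (C7 * n0) ^ (-th n0) *
        Aw (pp N (fun _ => 2)) (fun q => (q : ℝ) ^ th n0) (Bset n0) (Jn n0) (Qset n0) ^ N *
        (1 + 2 * N / mu (pp N (fun _ => 2)) (Qset n0) ∅)
        ≤ Real.exp (-((2 * K1 + 1) * n0 / (P2 * Jn n0))) *
          (A ^ N * Real.exp (2 * K1 * n0 / (P2 * Jn n0))) *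
          ((1 + 2 * n0) * Real.exp (16 * P2)) := by
          refine mul_le_mul (mul_le_mul hRth hAwN ?_ (Real.exp_pos _).le) hfac hfacpos
            (by positivity)
          have h7 : 0 ≤ Aw (pp N (fun _ => 2)) (fun q => (q : ℝ) ^ th n0) (Bset n0) (Jn n0)
              (Qset n0) := by
            unfold Aw
            refine sum_nonneg fun S hS => mul_nonneg (sq_nonneg _) (prod_nonneg fun q hq => ?_)
            have hqQ := mem_powerset.1 hS hq
            have h8 := pp_nonneg hsys hN hqQ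
            have h9 := (pp_lt_one hsys hN hqQ).le
            have h10 := hQpos q hqQ
            have : 0 ≤ 1 - pp N (fun _ => 2) q := by linarith
            positivity
          exact pow_nonneg h7 N
      _ = A ^ N * (1 + 2 * n0) * (Real.exp (-((2 * K1 + 1) * n0 / (P2 * Jn n0))) *
          Real.exp (2 * K1 * n0 / (P2 * Jn n0)) * Real.exp (16 * P2)) := by ring
      _ = A ^ N * (1 + 2 * n0) * Real.exp (-(n0 / (P2 * Jn n0)) + 16 * P2) := by
          rw [← Real.exp_add, ← Real.exp_add]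
          congr 2
          field_simp
          ring
      _ ≤ A ^ N * (1 + 2 * n0) * Real.exp (-P2) := by
          refine mul_le_mul_of_nonneg_left (Real.exp_le_exp.2 ?_) (by positivity)
          linarith
      _ ≤ A ^ N / 8 := by
          rw [Real.exp_neg, ← div_eq_mul_inv, div_le_div_iff₀ (Real.exp_pos _) (by norm_num)]
          have := mul_le_mul_of_nonneg_left hbig hAN.le
          linarith
  have h1 : ∀ e : ℕ, Real.exp (C7 * n0) ^ e = Real.exp (e * C7 * n0) := by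
    intro e
    rw [← Real.exp_nat_mul]
    ring_nf
  have h2 : (2 : ℝ) ^ N ≤ Real.exp n0 := by
    have h5 : (2 : ℝ) ≤ Real.exp 1 := by
      have := Real.add_one_le_exp (1 : ℝ)
      linarith
    calc (2 : ℝ) ^ N ≤ 2 ^ n0 := pow_le_pow_right₀ (by norm_num) hNn
      _ ≤ Real.exp 1 ^ n0 := pow_le_pow_left₀ (by norm_num) h5 _
      _ = Real.exp n0 := by rw [← Real.exp_nat_mul, mul_one]
  have h3 : 64 * ((N : ℝ) + 1) ≤ Real.exp n0 := by
    have h6 := Real.quadratic_le_exp_of_nonneg (x := (n0 : ℝ)) (by positivity)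
    nlinarith
  have h7 : 1 ≤ Real.exp n0 := Real.one_le_exp (by positivity)
  have hTle : 64 * ((N : ℝ) + 1) * Real.exp (C7 * n0) ^ 6 * 2 ^ N ≤ T := by
    refine le_trans ?_ hT
    have h4 : Real.exp ((6 * C7 + 3) * n0) =
        Real.exp n0 * Real.exp ((6 : ℕ) * C7 * n0) * Real.exp n0 * Real.exp n0 := by
      rw [← Real.exp_add, ← Real.exp_add, ← Real.exp_add]
      congr 1
      push_cast
      ring
    rw [h1, h4]
    calc 64 * ((N : ℝ) + 1) * Real.exp ((6 : ℕ) * C7 * n0) * 2 ^ N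
        ≤ Real.exp n0 * Real.exp ((6 : ℕ) * C7 * n0) * Real.exp n0 := by
          refine mul_le_mul (mul_le_mul_of_nonneg_right h3 (Real.exp_pos _).le) h2
            (by positivity) (by positivity)
      _ ≤ Real.exp n0 * Real.exp ((6 : ℕ) * C7 * n0) * Real.exp n0 * Real.exp n0 := by
          have h8 : 0 < Real.exp n0 * Real.exp ((6 : ℕ) * C7 * n0) * Real.exp n0 := by positivity
          nlinarith
  refine (core hsys hN (by omega) (Bset_subset (by omega)) hA hsm hsm2 hR1 hth.le htail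
    hTle).trans ?_
  refine mul_le_mul_of_nonneg_right ?_ (Nat.cast_nonneg _)
  have h9 : (32 : ℝ) ≤ Real.exp n0 := by
    have : (64 : ℝ) ≤ 64 * ((N : ℝ) + 1) := by nlinarith
    linarith
  calc 32 * Real.exp (C7 * n0) ^ 4 * 2 ^ N ≤ Real.exp n0 * Real.exp ((4 : ℕ) * C7 * n0) *
        Real.exp n0 := by
        rw [h1]
        refine mul_le_mul (mul_le_mul_of_nonneg_right h9 (Real.exp_pos _).le) h2
            (by positivity) (by positivity)
    _ = Real.exp ((4 * C7 + 2) * n0) := by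
        rw [← Real.exp_add, ← Real.exp_add]
        congr 1
        push_cast
        ring
    _ ≤ Real.exp ((6 * C7 + 3) * n0) := by
        refine Real.exp_le_exp.2 (mul_le_mul_of_nonneg_right ?_ (by positivity))
        linarith

/-- the primes used are not too large -/
lemma Qset_le_exp {n0 : ℕ} (hJ7 : 7 ≤ Jn n0) {q : ℕ} (hq : q ∈ Qset n0) :
    (q : ℝ) ≤ Real.exp n0 := by
  have hn : n0 ≠ 0 := by
    rintro rfl
    simp [Jn] at hJ7
  have h1 := (mem_Qset hq).2.1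
  have hq0 : (0 : ℝ) < q := by exact_mod_cast (mem_Qset hq).2.2.1.pos
  have h2 : (q : ℝ) ≤ (((n0 ^ 3) ^ (2 ^ Jn n0) : ℕ) : ℝ) := by exact_mod_cast h1
  rw [← Real.log_le_iff_le_exp hq0]
  refine (Real.log_le_log hq0 h2).trans ?_
  rw [two_pow_log n0]
  have h3 := logn_le hJ7
  have h4 : (2 : ℝ) ^ Jn n0 * (13 * Jn n0) ≤ n0 := by
    have h5 := (nat_ineq3 (Jn n0) hJ7).trans (Nat.pow_log_le_self 8 hn)
    have h6 : (13 : ℝ) * Jn n0 * 2 ^ Jn n0 ≤ n0 := by exact_mod_cast h5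
    linarith
  have h7 := mul_le_mul_of_nonneg_left h3 (show (0 : ℝ) ≤ 2 ^ Jn n0 by positivity)
  linarith

end Pool.Agent.GapSieve
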