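import Mathlib

/-!
# Sums of products of periodic functions (Chinese remainder theorem)
-/

open Finset

namespace Pool.Agent.GapSieve

lemma crt_two {m n : ℕ} (hm : 0 < m) (hn : 0 < n) (hmn : Nat.Coprime m n) (g h : ℕ → ℝ)
    (hg : ∀ t, g (t + m) = g t) (hh : ∀ t, h (t + n) = h t) :
    ∑ t ∈ range (m * n), g t * h t = (∑ a ∈ range m, g a) * ∑ b ∈ range n, h b := by
  rw [sum_mul_sum, ← sum_product']
  have hg' : ∀ t, g t = g (t % m) := fun t => ((show Function.Periodic g m from hg).map_mod_nat t).symm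
  have hh' : ∀ t, h t = h (t % n) := fun t => ((show Function.Periodic h n from hh).map_mod_nat t).symm
  refine sum_bij' (fun t _ => (t % m, t % n))
    (fun x _ => (Nat.chineseRemainder hmn x.1 x.2 : ℕ)) ?_ ?_ ?_ ?_ ?_
  · intro t _
    rw [mem_product, mem_range, mem_range]
    exact ⟨Nat.mod_lt _ hm, Nat.mod_lt _ hn⟩
  · intro x _
    rw [mem_range]
    exact Nat.chineseRemainder_lt_mul hmn x.1 x.2 hm.ne' hn.ne'
  · intro t ht
    rw [mem_range] at ht
    have h1 : (Nat.chineseRemainder hmn (t % m) (t % n) : ℕ) ≡ t [MOD m * n] := by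
      rw [← Nat.modEq_and_modEq_iff_modEq_mul hmn]
      exact ⟨(Nat.chineseRemainder hmn (t % m) (t % n)).2.1.trans (Nat.mod_modEq t m),
        (Nat.chineseRemainder hmn (t % m) (t % n)).2.2.trans (Nat.mod_modEq t n)⟩
    exact Nat.ModEq.eq_of_lt_of_lt h1
      (Nat.chineseRemainder_lt_mul hmn _ _ hm.ne' hn.ne') ht
  · rintro ⟨a, b⟩ hx
    rw [mem_product, mem_range, mem_range] at hx
    obtain ⟨ha, hb⟩ := hx
    simp only at ha hb
    have h1 := (Nat.chineseRemainder hmn a b).2.1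
    have h2 := (Nat.chineseRemainder hmn a b).2.2
    simp only [Prod.mk.injEq]
    exact ⟨Nat.mod_eq_of_modEq h1 ha, Nat.mod_eq_of_modEq h2 hb⟩
  · intro t _
    rw [hg' t, hh' t]

lemma crt_prod (Q : Finset ℕ) (hpos : ∀ q ∈ Q, 0 < q)
    (hco : ∀ q ∈ Q, ∀ q' ∈ Q, q ≠ q' → Nat.Coprime q q') (φ : ℕ → ℕ → ℝ)
    (hφ : ∀ q ∈ Q, ∀ t, φ q (t + q) = φ q t) :
    ∑ t ∈ range (∏ q ∈ Q, q), ∏ q ∈ Q, φ q t = ∏ q ∈ Q, ∑ a ∈ range q, φ q a := by
  induction Q using Finset.induction_on with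
  | empty => simp
  | insert q Q hq ih =>
    have hpos' : ∀ q ∈ Q, 0 < q := fun x hx => hpos x (mem_insert_of_mem hx)
    have hco' : ∀ q ∈ Q, ∀ q' ∈ Q, q ≠ q' → Nat.Coprime q q' := fun x hx y hy =>
      hco x (mem_insert_of_mem hx) y (mem_insert_of_mem hy)
    have hφ' : ∀ q ∈ Q, ∀ t, φ q (t + q) = φ q t := fun x hx => hφ x (mem_insert_of_mem hx)
    rw [prod_insert hq, prod_insert hq, ← ih hpos' hco' hφ']
    have h1 : ∀ t ∈ range (q * ∏ x ∈ Q, x), ∏ x ∈ insert q Q, φ x t =
        φ q t * ∏ x ∈ Q, φ x t := fun t _ => prod_insert hq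
    rw [sum_congr rfl h1]
    refine crt_two (hpos q (mem_insert_self q Q)) (prod_pos hpos') ?_ _ _
      (hφ q (mem_insert_self q Q)) ?_
    · refine Nat.Coprime.prod_right fun x hx => ?_
      refine hco q (mem_insert_self q Q) x (mem_insert_of_mem hx) ?_
      rintro rfl
      exact hq hx
    · intro t
      refine prod_congr rfl fun x hx => ?_
      have hper : Function.Periodic (φ x) x := hφ' x hx
      obtain ⟨c, hc⟩ := Finset.dvd_prod_of_mem (fun y => y) hx
      have h2 := hper.nat_mul c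
      have h3 : ((c * x : ℕ)) = ∏ y ∈ Q, y := by rw [hc, mul_comm]
      have h4 := h2 t
      simp only [Nat.cast_id] at h4
      rw [← h3]
      exact h4

/-- sums of periodic functions over an initial segment -/
lemma periodic_sum {D : ℕ} (hD : 0 < D) (g : ℕ → ℝ) (hg : ∀ t, g (t + D) = g t) (b : ℝ)
    (hb : ∀ t, |g t| ≤ b) (T : ℕ) :
    |∑ t ∈ range T, g t - (T : ℝ) / D * ∑ a ∈ range D, g a| ≤ 2 * b * D := by
  have hb0 : 0 ≤ b := (abs_nonneg _).trans (hb 0)
  have hD' : (0 : ℝ) < D := by exact_mod_cast hD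
  have hper : Function.Periodic g D := hg
  have h1 : ∀ n : ℕ, ∑ t ∈ range (D * n), g t = n * ∑ a ∈ range D, g a := by
    intro n
    induction n with
    | zero => simp
    | succ n ih =>
      rw [mul_add, mul_one, sum_range_add, ih]
      have h2 : ∑ i ∈ range D, g (D * n + i) = ∑ a ∈ range D, g a := by
        refine sum_congr rfl fun i _ => ?_
        rw [add_comm, mul_comm]
        have := hper.nat_mul n i
        simpa using this
      rw [h2]
      push_cast
      ring
  have h3 : T = D * (T / D) + T % D := (Nat.div_add_mod T D).symm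
  have h4 : ∑ t ∈ range T, g t = (T / D : ℕ) * ∑ a ∈ range D, g a +
      ∑ i ∈ range (T % D), g (D * (T / D) + i) := by
    conv_lhs => rw [h3]
    rw [sum_range_add, h1]
  have h5 : (T : ℝ) = D * ((T / D : ℕ) : ℝ) + ((T % D : ℕ) : ℝ) := by exact_mod_cast h3
  have h6 : ∑ t ∈ range T, g t - (T : ℝ) / D * ∑ a ∈ range D, g a =
      ∑ i ∈ range (T % D), g (D * (T / D) + i) -
        ((T % D : ℕ) : ℝ) / D * ∑ a ∈ range D, g a := by
    have e1 : (D : ℝ) * ((T / D : ℕ) : ℝ) / D = ((T / D : ℕ) : ℝ) := by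
      field_simp
    rw [h4, h5, add_div, e1]
    ring
  rw [h6]
  have h7 : |∑ i ∈ range (T % D), g (D * (T / D) + i)| ≤ b * D := by
    refine (abs_sum_le_sum_abs _ _).trans ?_
    refine (sum_le_sum fun i _ => hb _).trans ?_
    rw [sum_const, card_range, nsmul_eq_mul, mul_comm]
    have : ((T % D : ℕ) : ℝ) ≤ D := by exact_mod_cast (Nat.mod_lt T hD).le
    exact mul_le_mul_of_nonneg_left this hb0
  have h8 : |((T % D : ℕ) : ℝ) / D * ∑ a ∈ range D, g a| ≤ b * D := by
    rw [abs_mul]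
    have h9 : |∑ a ∈ range D, g a| ≤ b * D := by
      refine (abs_sum_le_sum_abs _ _).trans ?_
      refine (sum_le_sum fun i _ => hb _).trans ?_
      rw [sum_const, card_range, nsmul_eq_mul, mul_comm]
    have h10 : |((T % D : ℕ) : ℝ) / D| ≤ 1 := by
      rw [abs_of_nonneg (by positivity), div_le_one hD']
      exact_mod_cast (Nat.mod_lt T hD).le
    calc |((T % D : ℕ) : ℝ) / D| * |∑ a ∈ range D, g a| ≤ 1 * (b * D) :=
          mul_le_mul h10 h9 (abs_nonneg _) (by norm_num)
      _ = b * D := one_mul _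
  refine (abs_sub _ _).trans ?_
  linarith

end Pool.Agent.GapSieve
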