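import Pool.Agent.Lib.GapSieve.SqAddOne

/-!
# Long strings of integers `n` with `n ^ 2 + 1` composite
-/

open Finset Filter

namespace Pool.Agent.GapSieve

open Classical in
/-- the construction for one choice of the parameters -/
lemma gap_params {C E : ℝ} (hE : 0 ≤ E) (hC : ∀ M K : ℕ, 2 ≤ M → M ≤ K →
    Real.log (Real.log K) - Real.log (Real.log M) - C ≤
      ∑ p ∈ Ioc M K with p.Prime ∧ p % 4 = 1, 2 / (p : ℝ))
    {n0 z U : ℕ} (hz : 2 ≤ z) (hJ7 : 7 ≤ Jn n0) (hzn : z ≤ n0 ^ 3)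
    (hU : U ^ 2 + 4 ≤ n0 ^ 3) (hUn : U * Real.exp C / Real.log z ≤ n0)
    (hcov : ∀ N : ℕ, N ≤ n0 → ∀ hit : ℕ → Fin N → ℕ → Prop,
      (∀ q ∈ Qset n0, ∀ i t, hit q i (t + q) ↔ hit q i t) →
      (∀ q ∈ Qset n0, ∀ i, hitCount hit q i = 2) →
      (∀ q ∈ Qset n0, ∀ i j t, hit q i t → hit q j t → i = j) →
      ∀ T : ℕ, E ≤ T → (T : ℝ) ≤ E *
        ((range T).filter fun t => ∀ i : Fin N, ∃ q ∈ Qset n0, hit q i t).card) :
    ∃ P a : ℕ, 0 < P ∧ (P : ℝ) ≤ Real.exp (2 * z) ∧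
      (a : ℝ) ≤ Real.exp (2 * z) * (2 + Real.exp n0 + z) ∧
      ∀ T : ℕ, E ≤ T → (T : ℝ) ≤ E * ((range T).filter fun t =>
        ∀ j : ℕ, 0 < j → j ≤ U → ¬ ((a + P * t + j) ^ 2 + 1).Prime).card := by
  obtain ⟨a0, ha0, hcard⟩ := exists_good hC z U hz
  set P := ∏ p ∈ smallP z, p with hP
  have hPR := prod_smallP_le z
  rw [← hP] at hPR
  set S := surv z U a0 with hS
  have hN : S.card ≤ n0 := by exact_mod_cast hcard.trans hUn
  have hpr : ∀ p ∈ smallP z, p.Prime ∧ p % 4 = 1 := fun p hp => (mem_filter.1 hp).2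
  have hPpos : 0 < P := prod_pos fun p hp => (hpr p hp).1.pos
  set s : ℕ := ⌈Real.exp n0⌉₊ + z with hs
  set a : ℕ := a0 + P * s with ha
  let jj : Fin S.card → ℕ := fun i => (S.equivFin.symm i : ℕ)
  have hjj : ∀ i, jj i ∈ S := fun i => (S.equivFin.symm i).2
  have hjjU : ∀ i, jj i ≤ U := fun i => by
    have := hjj i
    rw [hS, surv, mem_filter, mem_Ioc] at this
    exact this.1.2
  have hnotdvd : ∀ q ∈ Qset n0, ¬ q ∣ P := by
    intro q hq hd
    have hqp := (mem_Qset hq).2.2.1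
    rw [hP, hqp.prime.dvd_finsetProd_iff] at hd
    obtain ⟨p, hp, hd⟩ := hd
    have h1 : q = p := (Nat.prime_dvd_prime_iff_eq hqp (hpr p hp).1).1 hd
    have h2 : p ≤ z := (mem_Ioc.1 (mem_filter.1 hp).1).2
    have h3 := (mem_Qset hq).1
    omega
  refine ⟨P, a, hPpos, hPR, ?_, ?_⟩
  · have h1 : (a : ℝ) ≤ P * (2 + Real.exp n0 + z) := by
      have h2 : (a : ℝ) = a0 + P * (⌈Real.exp n0⌉₊ + z) := by
        rw [ha, hs]; push_cast; ring
      have h3 : (a0 : ℝ) ≤ P := by exact_mod_cast ha0.le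
      have h4 : ((⌈Real.exp n0⌉₊ : ℕ) : ℝ) ≤ Real.exp n0 + 1 :=
        (Nat.ceil_lt_add_one (Real.exp_pos _).le).le
      have h6 : (0 : ℝ) ≤ P := Nat.cast_nonneg _
      rw [h2]
      have h7 := mul_le_mul_of_nonneg_left h4 h6
      linarith
    refine h1.trans (mul_le_mul_of_nonneg_right hPR ?_)
    positivity
  intro T hT
  refine (hcov S.card hN (hitP a P jj)
    (fun q _ i t => hit_per a P t (jj i))
    (fun q hq i => by
      have h1 := hit_card (mem_Qset hq).2.2.1 (mem_Qset hq).2.2.2 a P (jj i) (hnotdvd q hq)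
      rw [← h1]
      unfold hitCount hitP
      refine congrArg card ?_
      ext x
      simp only [mem_filter])
    (fun q hq i i' t h1 h2 => by
      have h3 := hit_excl (mem_Qset hq).2.2.1 (U := U) (lt_of_le_of_lt hU (mem_Qset hq).1)
        (a + P * t) (jj i) (jj i') (hjjU i) (hjjU i') h1 h2
      exact S.equivFin.symm.injective (Subtype.ext h3)) T hT).trans ?_
  refine mul_le_mul_of_nonneg_left ?_ hE
  refine Nat.cast_le.2 (card_le_card ?_)
  intro t ht
  rw [mem_filter] at ht ⊢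
  refine ⟨ht.1, ?_⟩
  intro j hj0 hjU hprime
  have hn1 : Real.exp n0 ≤ ((a + P * t : ℕ) : ℝ) := by
    have h4 : Real.exp n0 ≤ ((⌈Real.exp n0⌉₊ : ℕ) : ℝ) := Nat.le_ceil _
    have h5 : ⌈Real.exp n0⌉₊ ≤ a + P * t := by
      have : s ≤ P * s := Nat.le_mul_of_pos_left s hPpos
      omega
    have h6 : ((⌈Real.exp n0⌉₊ : ℕ) : ℝ) ≤ ((a + P * t : ℕ) : ℝ) := by exact_mod_cast h5
    linarith
  have hn2 : z ≤ a + P * t := by
    have : s ≤ P * s := Nat.le_mul_of_pos_left s hPpos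
    omega
  have hbig : a + P * t < (a + P * t + j) ^ 2 + 1 := by nlinarith
  by_cases hjS : j ∈ S
  · obtain ⟨q, hq, hd⟩ := ht.2 (S.equivFin ⟨j, hjS⟩)
    have h1 : jj (S.equivFin ⟨j, hjS⟩) = j := by simp [jj]
    unfold hitP at hd
    rw [h1] at hd
    have h2 := (Nat.prime_dvd_prime_iff_eq (mem_Qset hq).2.2.1 hprime).1 hd
    have h3 := Qset_le_exp hJ7 hq
    have h4 : (q : ℝ) ≤ ((a + P * t : ℕ) : ℝ) := h3.trans hn1
    have h5 : q ≤ a + P * t := by exact_mod_cast h4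
    omega
  · rw [hS, surv, mem_filter, mem_Ioc] at hjS
    push Not at hjS
    obtain ⟨p, hp, hd⟩ := hjS ⟨hj0, hjU⟩
    have hpP : p ∣ P := dvd_prod_of_mem (fun x => x) hp
    have h1 : p ∣ (a + P * t + j) ^ 2 + 1 := by
      have h2 : (a + P * t + j) ^ 2 + 1 =
          ((a0 + j) ^ 2 + 1) + P * ((s + t) * (2 * (a0 + j) + P * (s + t))) := by
        rw [ha]; ring
      rw [h2]
      exact dvd_add hd (hpP.mul_right _)
    have h2 := (Nat.prime_dvd_prime_iff_eq (hpr p hp).1 hprime).1 h1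
    have h3 : p ≤ z := (mem_Ioc.1 (mem_filter.1 hp).1).2
    omega

open Classical in
/-- the gap theorem along integers -/
lemma gap_z : ∃ c1 : ℝ, 0 < c1 ∧ ∃ z0 : ℕ, ∀ z : ℕ, z0 ≤ z →
    ∃ P a : ℕ, 0 < P ∧ (P : ℝ) ≤ Real.exp (2 * z) ∧ (a : ℝ) ≤ Real.exp (4 * z) ∧
      ∀ T : ℕ, Real.exp z ≤ T → (T : ℝ) ≤ Real.exp z * ((range T).filter fun t =>
        ∀ j : ℕ, 0 < j → j ≤ ⌊c1 * (z * Real.log z)⌋₊ →
          ¬ ((a + P * t + j) ^ 2 + 1).Prime).card := by
  obtain ⟨C, hC0, hC⟩ := mertens4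
  obtain ⟨C8', hC8', n₁, hcov⟩ := cover_large
  set C8 : ℝ := max C8' 1 with hC8
  have hC81 : 1 ≤ C8 := le_max_right _ _
  have hC8pos : 0 < C8 := by linarith
  set c1 : ℝ := 1 / (2 * C8 * Real.exp C) with hc1
  have hc1pos : 0 < c1 := by positivity
  have hexpC : 1 ≤ Real.exp C := Real.one_le_exp hC0
  have hc1le : c1 ≤ 1 / 2 := by
    rw [hc1]
    apply one_div_le_one_div_of_le (by norm_num)
    nlinarith
  -- growth condition
  have hev : ∀ᶠ x : ℝ in atTop, Real.log x ^ 2 ≤ 1 / (16 * C8 ^ 3) * x := by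
    have h1 := (Real.isLittleO_pow_log_id_atTop (n := 2)).bound
      (show (0 : ℝ) < 1 / (16 * C8 ^ 3) by positivity)
    filter_upwards [h1, eventually_ge_atTop 0] with x hx hx0
    simp only [id, Real.norm_eq_abs] at hx
    rw [abs_of_nonneg (sq_nonneg _), abs_of_nonneg hx0] at hx
    exact hx
  obtain ⟨x0, hx0⟩ := eventually_atTop.1 hev
  refine ⟨c1, hc1pos, max (max ⌈x0⌉₊ ⌈2 * C8 * (n₁ + 8 ^ 7 + 8 * C8 ^ 2)⌉₊) 8, ?_⟩
  intro z hz
  have hz1 : x0 ≤ z := (Nat.le_ceil x0).trans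
    (by exact_mod_cast (le_max_left _ _).trans ((le_max_left _ _).trans hz))
  have hz2 : 2 * C8 * (n₁ + 8 ^ 7 + 8 * C8 ^ 2) ≤ (z : ℝ) := (Nat.le_ceil _).trans
    (by exact_mod_cast (le_max_right _ _).trans ((le_max_left _ _).trans hz))
  have hz3 : 8 ≤ z := (le_max_right _ _).trans hz
  have hzR : (8 : ℝ) ≤ z := by exact_mod_cast hz3
  have hlz : 0 < Real.log z := Real.log_pos (by linarith)
  have hlzle : Real.log z ≤ z := (Real.log_le_sub_one_of_pos (by linarith)).trans (by linarith)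
  have hlog := hx0 z hz1
  set n0 : ℕ := ⌊(z : ℝ) / C8⌋₊ with hn0
  have hn0le : (n0 : ℝ) ≤ z / C8 := Nat.floor_le (by positivity)
  have hn0gt : (z : ℝ) / C8 - 1 < n0 := Nat.sub_one_lt_floor _
  have hzC : (n₁ : ℝ) + 8 ^ 7 + 8 * C8 ^ 2 ≤ z / (2 * C8) := by
    rw [le_div_iff₀ (by positivity)]
    linarith
  have hhalf : (z : ℝ) / C8 = 2 * (z / (2 * C8)) := by field_simp
  have hC8sq : 1 ≤ C8 ^ 2 := by nlinarith
  have hn1nn : (0 : ℝ) ≤ n₁ := Nat.cast_nonneg _
  have hn0ge : (z : ℝ) / (2 * C8) ≤ n0 := by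
    rw [hhalf] at hn0gt
    linarith
  have hn0n1 : n₁ ≤ n0 := by
    have : (n₁ : ℝ) ≤ n0 := by linarith
    exact_mod_cast this
  have hn0big : 8 ^ 7 ≤ n0 := by
    have : ((8 ^ 7 : ℕ) : ℝ) ≤ n0 := by push_cast; linarith
    exact_mod_cast this
  have hJ7 : 7 ≤ Jn n0 := Nat.le_log_of_pow_le (by norm_num) hn0big
  set U : ℕ := ⌊c1 * (z * Real.log z)⌋₊ with hU
  have hUle : (U : ℝ) ≤ c1 * (z * Real.log z) := Nat.floor_le (by positivity)
  have hn0z : (n0 : ℝ) ≤ z := hn0le.trans (div_le_self (by linarith) hC81)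
  -- the conditions
  have hq3 : (z / (2 * C8)) ^ 3 ≤ (n0 : ℝ) ^ 3 := pow_le_pow_left₀ (by positivity) hn0ge 3
  have hcube : (z / (2 * C8)) ^ 3 = (z : ℝ) ^ 3 / (8 * C8 ^ 3) := by
    rw [div_pow, mul_pow]; norm_num
  have hz16 : 16 * C8 ^ 3 ≤ (z : ℝ) := by
    have h1 : 2 * C8 * (8 * C8 ^ 2) ≤ 2 * C8 * (n₁ + 8 ^ 7 + 8 * C8 ^ 2) := by
      refine mul_le_mul_of_nonneg_left ?_ (by positivity)
      linarith
    nlinarith
  have hcond1 : U ^ 2 + 4 ≤ n0 ^ 3 := by
    have h1 : (U : ℝ) ^ 2 ≤ (z : ℝ) ^ 3 / (16 * C8 ^ 3) := by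
      have h2 : (U : ℝ) ^ 2 ≤ (c1 * (z * Real.log z)) ^ 2 :=
        pow_le_pow_left₀ (Nat.cast_nonneg _) hUle 2
      have h3 : (c1 * (z * Real.log z)) ^ 2 ≤ (z : ℝ) ^ 2 * Real.log z ^ 2 := by
        have : c1 ^ 2 ≤ 1 := by nlinarith
        have h4 : (c1 * (z * Real.log z)) ^ 2 = c1 ^ 2 * ((z : ℝ) ^ 2 * Real.log z ^ 2) := by ring
        rw [h4]
        have h5 : 0 ≤ (z : ℝ) ^ 2 * Real.log z ^ 2 := by positivity
        nlinarith
      have h6 := mul_le_mul_of_nonneg_left hlog (show (0 : ℝ) ≤ (z : ℝ) ^ 2 by positivity)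
      have h7 : (z : ℝ) ^ 2 * (1 / (16 * C8 ^ 3) * z) = (z : ℝ) ^ 3 / (16 * C8 ^ 3) := by ring
      rw [h7] at h6
      linarith
    have h2 : (4 : ℝ) ≤ (z : ℝ) ^ 3 / (16 * C8 ^ 3) := by
      rw [le_div_iff₀ (by positivity)]
      have : (4 : ℝ) * z ≤ z ^ 3 := by nlinarith [sq_nonneg ((z : ℝ) - 8)]
      nlinarith
    have h3 : (z : ℝ) ^ 3 / (8 * C8 ^ 3) = z ^ 3 / (16 * C8 ^ 3) + z ^ 3 / (16 * C8 ^ 3) := by
      field_simp; ring
    have h4 : (U : ℝ) ^ 2 + 4 ≤ (n0 : ℝ) ^ 3 := by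
      rw [hcube, h3] at hq3
      linarith
    exact_mod_cast h4
  have hcond2 : z ≤ n0 ^ 3 := by
    have h1 : (z : ℝ) ≤ z ^ 3 / (8 * C8 ^ 3) := by
      rw [le_div_iff₀ (by positivity)]
      have h2 : z * (8 * C8 ^ 3) ≤ (z : ℝ) * z := mul_le_mul_of_nonneg_left (by linarith)
        (by linarith)
      have h3 : (z : ℝ) * z ≤ z ^ 3 := by nlinarith
      linarith
    have h4 : (z : ℝ) ≤ (n0 : ℝ) ^ 3 := by
      rw [hcube] at hq3
      linarith
    exact_mod_cast h4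
  have hcond3 : U * Real.exp C / Real.log z ≤ n0 := by
    have h1 : U * Real.exp C / Real.log z ≤ z / (2 * C8) := by
      rw [div_le_iff₀ hlz]
      have h2 := mul_le_mul_of_nonneg_right hUle (Real.exp_pos C).le
      have h3 : c1 * (z * Real.log z) * Real.exp C = z / (2 * C8) * Real.log z := by
        rw [hc1]; field_simp
      linarith
    exact h1.trans hn0ge
  have hEle : Real.exp (C8' * n0) ≤ Real.exp z := by
    refine Real.exp_le_exp.2 ?_
    have h1 : C8' * n0 ≤ C8 * n0 := mul_le_mul_of_nonneg_right (le_max_left _ _)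
      (Nat.cast_nonneg _)
    have h2 : C8 * n0 ≤ C8 * (z / C8) := mul_le_mul_of_nonneg_left hn0le hC8pos.le
    have h3 : C8 * (z / C8) = z := by field_simp
    linarith
  obtain ⟨P, a, hP1, hP2, ha, hT⟩ := gap_params (E := Real.exp z) (Real.exp_pos _).le hC
    (by omega) hJ7 hcond2 hcond1 hcond3
    (fun N hN hit h1 h2 h3 T hT => by
      refine (hcov n0 hn0n1 N hN hit h1 h2 h3 T (hEle.trans hT)).trans ?_
      exact mul_le_mul_of_nonneg_right hEle (Nat.cast_nonneg _))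
  refine ⟨P, a, hP1, hP2, ha.trans ?_, hT⟩
  have hez : (z : ℝ) + 1 ≤ Real.exp z := Real.add_one_le_exp _
  have hen0 : Real.exp n0 ≤ Real.exp z := Real.exp_le_exp.2 hn0z
  have hsum : 2 + Real.exp n0 + z ≤ 3 * Real.exp z := by linarith
  have h3 : Real.exp (4 * z) = Real.exp (2 * z) * (Real.exp z * Real.exp z) := by
    rw [← Real.exp_add, ← Real.exp_add]; ring_nf
  calc Real.exp (2 * z) * (2 + Real.exp n0 + z) ≤ Real.exp (2 * z) * (3 * Real.exp z) :=
        mul_le_mul_of_nonneg_left hsum (Real.exp_pos _).le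
    _ ≤ Real.exp (2 * z) * (Real.exp z * Real.exp z) := by
        refine mul_le_mul_of_nonneg_left ?_ (Real.exp_pos _).le
        refine mul_le_mul_of_nonneg_right (by linarith) (Real.exp_pos _).le
    _ = Real.exp (4 * z) := h3.symm

open Classical in
/-- **Long gaps.**  For every `ε > 0` there is `c > 0` such that for every large `X` there are at
least `X ^ (1 - ε)` integers `n ≤ X` such that `m ^ 2 + 1` is not prime for all `m` with
`n < m ≤ n + c log X log log X`. -/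
theorem gap_main (ε : ℝ) (hε : 0 < ε) : ∃ c : ℝ, 0 < c ∧ ∃ X₀ : ℝ, ∀ X : ℝ, X₀ ≤ X →
    X ^ (1 - ε) ≤ (((range (⌊X⌋₊ + 1)).filter fun n : ℕ =>
      (n : ℝ) + c * (Real.log X * Real.log (Real.log X)) ≤ X ∧
      ∀ m : ℕ, n < m → (m : ℝ) ≤ n + c * (Real.log X * Real.log (Real.log X)) →
        ¬ (m ^ 2 + 1).Prime).card : ℝ) := by
  obtain ⟨c1, hc1, z0, hz0⟩ := gap_z
  -- `δ` small
  set δ : ℝ := min ε 1 / 16 with hδ
  have hδ0 : 0 < δ := by positivity
  have hδε : 16 * δ ≤ ε := by rw [hδ]; linarith [min_le_left ε 1]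
  have hδ1 : 16 * δ ≤ 1 := by rw [hδ]; linarith [min_le_right ε 1]
  set c : ℝ := min (c1 * δ / 8) (1 / 8) with hc
  have hcpos : 0 < c := by positivity
  have hev : ∀ᶠ x : ℝ in atTop, c * (x * Real.log x) ≤ Real.exp x / 8 := by
    have h1 : Tendsto (fun x : ℝ => Real.exp x / x ^ 2) atTop atTop :=
      Real.tendsto_exp_div_pow_atTop 2
    filter_upwards [h1.eventually_ge_atTop 1, eventually_ge_atTop 1] with x hx hx1
    rw [le_div_iff₀ (by positivity), one_mul] at hx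
    have h2 : Real.log x ≤ x := (Real.log_le_sub_one_of_pos (by linarith)).trans (by linarith)
    have h3 : c ≤ 1 / 8 := min_le_right _ _
    have h4 : x * Real.log x ≤ x ^ 2 := by nlinarith
    have h5 : 0 ≤ x * Real.log x := mul_nonneg (by linarith) (Real.log_nonneg hx1)
    nlinarith
  obtain ⟨x0, hx0⟩ := eventually_atTop.1 hev
  refine ⟨c, hcpos, Real.exp (max (max x0 ((z0 + 1) / δ)) (max (Real.exp (2 * (1 + |Real.log δ|)))
    (max (4 / δ) (8 / (c1 * δ))))), ?_⟩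
  intro X hX
  have hX0 : 0 < X := lt_of_lt_of_le (Real.exp_pos _) hX
  have hl := (Real.le_log_iff_exp_le hX0).2 hX
  set l := Real.log X with hldef
  have hl0' : x0 ≤ l := (le_max_left _ _).trans ((le_max_left _ _).trans hl)
  have hl1 : ((z0 : ℝ) + 1) / δ ≤ l := (le_max_right _ _).trans ((le_max_left _ _).trans hl)
  have hl2 : Real.exp (2 * (1 + |Real.log δ|)) ≤ l :=
    (le_max_left _ _).trans ((le_max_right _ _).trans hl)
  have hl3 : 4 / δ ≤ l :=
    (le_max_left _ _).trans ((le_max_right _ _).trans ((le_max_right _ _).trans hl))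
  have hl4 : 8 / (c1 * δ) ≤ l :=
    (le_max_right _ _).trans ((le_max_right _ _).trans ((le_max_right _ _).trans hl))
  have hl0 : 0 < l := lt_of_lt_of_le (Real.exp_pos _) hl2
  have hexpl : Real.exp l = X := Real.exp_log hX0
  have hll : 2 * (1 + |Real.log δ|) ≤ Real.log l := by
    rw [Real.le_log_iff_exp_le hl0]
    exact hl2
  have habs := abs_nonneg (Real.log δ)
  rw [div_le_iff₀ hδ0] at hl1 hl3
  rw [div_le_iff₀ (by positivity)] at hl4
  set z : ℕ := ⌊l * δ⌋₊ with hz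
  have hzle : (z : ℝ) ≤ l * δ := Nat.floor_le (by positivity)
  have hzgt : l * δ - 1 < z := Nat.sub_one_lt_floor _
  have hz0z : z0 ≤ z := by
    refine Nat.le_floor ?_
    linarith
  obtain ⟨P, a, hP1, hP2, ha, hT⟩ := hz0 z hz0z
  have hz8 : l * δ / 2 ≤ z := by linarith
  have hzpos : (0 : ℝ) < z := by linarith
  have hlogz : Real.log l / 2 ≤ Real.log z := by
    have h1 : Real.log (l * (δ / 2)) ≤ Real.log z := Real.log_le_log (by positivity) (by linarith)
    rw [Real.log_mul hl0.ne' (by positivity), Real.log_div hδ0.ne' (by norm_num)] at h1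
    have h7 := Real.log_two_lt_d9
    have h8 := neg_abs_le (Real.log δ)
    linarith
  have hprod : l * δ / 2 * (Real.log l / 2) ≤ z * Real.log z :=
    mul_le_mul hz8 hlogz (by linarith) hzpos.le
  have hUge : c * (l * Real.log l) ≤ ⌊c1 * (z * Real.log z)⌋₊ := by
    have h1 : c1 * (z * Real.log z) - 1 < ⌊c1 * (z * Real.log z)⌋₊ := Nat.sub_one_lt_floor _
    have h2 := mul_le_mul_of_nonneg_left hprod hc1.le
    have h3 : c ≤ c1 * δ / 8 := min_le_left _ _
    have h4 : 0 ≤ l * Real.log l := by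
      have : 0 ≤ Real.log l := by linarith
      positivity
    have h5 := mul_le_mul_of_nonneg_right h3 h4
    have h6 : 1 ≤ c1 * δ / 8 * (l * Real.log l) := by
      have h7 : 1 ≤ Real.log l := by linarith
      nlinarith
    have h8 : c1 * (l * δ / 2 * (Real.log l / 2)) = 2 * (c1 * δ / 8 * (l * Real.log l)) := by ring
    rw [h8] at h2
    linarith
  -- the number of steps
  have hPR : (0 : ℝ) < P := by exact_mod_cast hP1
  set T : ℕ := ⌊X / (2 * P)⌋₊ with hTdef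
  have hTle : (T : ℝ) ≤ X / (2 * P) := Nat.floor_le (by positivity)
  have hTgt : X / (2 * P) - 1 < T := Nat.sub_one_lt_floor _
  have hl4' : (4 : ℝ) ≤ l := by nlinarith
  have hz1 : (z : ℝ) ≤ l / 16 := by nlinarith
  have hX2 : 4 * Real.exp (3 * z) ≤ X := by
    rw [← hexpl]
    have h1 : (4 : ℝ) ≤ Real.exp 2 := by
      have h5 := Real.quadratic_le_exp_of_nonneg (x := (2 : ℝ)) (by norm_num)
      linarith
    calc 4 * Real.exp (3 * z) ≤ Real.exp 2 * Real.exp (3 * z) :=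
          mul_le_mul_of_nonneg_right h1 (Real.exp_pos _).le
      _ = Real.exp (2 + 3 * z) := by rw [← Real.exp_add]
      _ ≤ Real.exp l := Real.exp_le_exp.2 (by linarith)
  have hTge : X / (4 * P) ≤ T := by
    have h1 : X / (2 * P) = 2 * (X / (4 * P)) := by field_simp; ring
    have h2 : 1 ≤ X / (4 * P) := by
      rw [le_div_iff₀ (by positivity)]
      have : Real.exp (2 * z) ≤ Real.exp (3 * z) := Real.exp_le_exp.2 (by linarith)
      linarith
    linarith
  have hTE : Real.exp z ≤ T := by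
    refine le_trans ?_ hTge
    rw [le_div_iff₀ (by positivity)]
    have h1 : Real.exp (3 * z) = Real.exp z * Real.exp (2 * z) := by
      rw [← Real.exp_add]; ring_nf
    have h2 := mul_le_mul_of_nonneg_left hP2 (Real.exp_pos (z : ℝ)).le
    linarith
  have hcount := hT T hTE
  set G := (range T).filter fun t => ∀ j : ℕ, 0 < j → j ≤ ⌊c1 * (z * Real.log z)⌋₊ →
          ¬ ((a + P * t + j) ^ 2 + 1).Prime with hG
  -- transfer
  have hsub : G.image (fun t => a + P * t) ⊆ (range (⌊X⌋₊ + 1)).filter fun n : ℕ =>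
      (n : ℝ) + c * (l * Real.log l) ≤ X ∧
      ∀ m : ℕ, n < m → (m : ℝ) ≤ n + c * (l * Real.log l) → ¬ (m ^ 2 + 1).Prime := by
    intro n hn
    obtain ⟨t, ht, rfl⟩ := mem_image.1 hn
    rw [hG, mem_filter, mem_range] at ht
    have h1 : (a : ℝ) ≤ X / 4 := by
      refine ha.trans ?_
      rw [← hexpl, le_div_iff₀ (by norm_num)]
      have h1 : (4 : ℝ) ≤ Real.exp 2 := by
        have h5 := Real.quadratic_le_exp_of_nonneg (x := (2 : ℝ)) (by norm_num)
        linarith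
      calc Real.exp (4 * z) * 4 ≤ Real.exp (4 * z) * Real.exp 2 :=
            mul_le_mul_of_nonneg_left h1 (Real.exp_pos _).le
        _ = Real.exp (4 * z + 2) := by rw [← Real.exp_add]
        _ ≤ Real.exp l := Real.exp_le_exp.2 (by linarith)
    have h2 : (P : ℝ) * t ≤ X / 2 := by
      have h3 : (t : ℝ) ≤ X / (2 * P) := le_trans (by exact_mod_cast ht.1.le) hTle
      calc (P : ℝ) * t ≤ P * (X / (2 * P)) := mul_le_mul_of_nonneg_left h3 hPR.le
        _ = X / 2 := by field_simp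
    have h4 := hx0 l hl0'
    rw [hexpl] at h4
    have h5 : ((a + P * t : ℕ) : ℝ) + c * (l * Real.log l) ≤ X := by
      push_cast
      linarith
    have h6 : 0 ≤ c * (l * Real.log l) := by
      have : 0 ≤ Real.log l := by linarith
      positivity
    rw [mem_filter, mem_range]
    refine ⟨?_, h5, ?_⟩
    · rw [Nat.lt_succ_iff]
      exact Nat.le_floor (by linarith)
    · intro m hm1 hm2
      obtain ⟨j, rfl⟩ : ∃ j, m = a + P * t + j := ⟨m - (a + P * t), by omega⟩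
      refine ht.2 j (by omega) ?_
      have h1 : (j : ℝ) ≤ ⌊c1 * (z * Real.log z)⌋₊ := by
        push_cast at hm2
        linarith
      exact_mod_cast h1
  have hcardG : (G.image (fun t => a + P * t)).card = G.card := by
    refine card_image_of_injective _ fun t t' h => ?_
    change a + P * t = a + P * t' at h
    exact Nat.eq_of_mul_eq_mul_left hP1 (by omega)
  have hfin : (G.card : ℝ) ≤ (((range (⌊X⌋₊ + 1)).filter fun n : ℕ =>
      (n : ℝ) + c * (l * Real.log l) ≤ X ∧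
      ∀ m : ℕ, n < m → (m : ℝ) ≤ n + c * (l * Real.log l) → ¬ (m ^ 2 + 1).Prime).card : ℝ) := by
    rw [← hcardG]
    exact_mod_cast card_le_card hsub
  refine le_trans ?_ hfin
  -- `X^(1-ε) ≤ X / (4 P e^z)`
  have h1 : X / (4 * P) ≤ Real.exp z * G.card := hTge.trans hcount
  have h2 : X ≤ 4 * Real.exp (3 * z) * G.card := by
    rw [div_le_iff₀ (by positivity)] at h1
    have h3 : Real.exp z * G.card * (4 * P) ≤ Real.exp z * G.card * (4 * Real.exp (2 * z)) :=
      mul_le_mul_of_nonneg_left (by linarith) (by positivity)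
    have h4 : Real.exp (3 * z) = Real.exp z * Real.exp (2 * z) := by
      rw [← Real.exp_add]; ring_nf
    rw [h4]
    linarith
  have h3 : 4 * Real.exp (3 * z) ≤ X ^ ε := by
    have h4 : X ^ ε = Real.exp (l * ε) := by rw [Real.rpow_def_of_pos hX0]
    rw [h4]
    have h1 : (4 : ℝ) ≤ Real.exp 2 := by
      have h5 := Real.quadratic_le_exp_of_nonneg (x := (2 : ℝ)) (by norm_num)
      linarith
    calc 4 * Real.exp (3 * z) ≤ Real.exp 2 * Real.exp (3 * z) :=
          mul_le_mul_of_nonneg_right h1 (Real.exp_pos _).le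
      _ = Real.exp (2 + 3 * z) := by rw [← Real.exp_add]
      _ ≤ Real.exp (l * ε) := by
          refine Real.exp_le_exp.2 ?_
          have h6 : l * (16 * δ) ≤ l * ε := mul_le_mul_of_nonneg_left hδε hl0.le
          nlinarith
  have h5 : X ≤ X ^ ε * G.card := h2.trans (mul_le_mul_of_nonneg_right h3 (Nat.cast_nonneg _))
  have h6 : X ^ (1 - ε) * X ^ ε = X := by
    rw [← Real.rpow_add hX0]; simp
  have h7 : 0 < X ^ ε := Real.rpow_pos_of_pos hX0 ε
  by_contra hcon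
  push Not at hcon
  have h8 := mul_lt_mul_of_pos_right hcon h7
  rw [h6] at h8
  linarith

end Pool.Agent.GapSieve
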