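import Pool.Agent.Lib.GapSieve.Product
import Pool.Agent.Lib.GapSieve.Crt

/-!
# The arithmetic model is the product model conditioned on exclusivity

`hit q i t` : the prime `q` hits the site `i` at the integer `t`.
-/

open Finset

namespace Pool.Agent.GapSieve

open Classical in
/-- number of residues which hit a site -/
noncomputable def hitCount {N : ℕ} (hit : ℕ → Fin N → ℕ → Prop) (q : ℕ) (i : Fin N) : ℕ :=
  ((range q).filter fun a => hit q i a).card

/-- The data of an exclusive hitting system. -/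
structure HitSys {N : ℕ} (Q : Finset ℕ) (k : ℕ → ℕ) (hit : ℕ → Fin N → ℕ → Prop) : Prop where
  pos : ∀ q ∈ Q, 0 < q
  co : ∀ q ∈ Q, ∀ q' ∈ Q, q ≠ q' → Nat.Coprime q q'
  per : ∀ q ∈ Q, ∀ i t, hit q i (t + q) ↔ hit q i t
  cnt : ∀ q ∈ Q, ∀ i, hitCount hit q i = k q
  exc : ∀ q ∈ Q, ∀ i j t, hit q i t → hit q j t → i = j
  small : ∀ q ∈ Q, N * k q < q

variable {N : ℕ} {Q : Finset ℕ} {k : ℕ → ℕ} {hit : ℕ → Fin N → ℕ → Prop}

open Classical in
/-- the configuration at the integer `t` -/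
noncomputable def conf (Q : Finset ℕ) (hit : ℕ → Fin N → ℕ → Prop) (t : ℕ) (i : Fin N) :
    Finset ℕ := Q.filter fun q => hit q i t

/-- the parameters of the product model -/
noncomputable def pp (N : ℕ) (k : ℕ → ℕ) (q : ℕ) : ℝ := (k q : ℝ) / (q - (N - 1) * k q)

/-- normalising constants -/
noncomputable def Zq (N : ℕ) (k : ℕ → ℕ) (q : ℕ) : ℝ :=
  (1 - pp N k q) ^ (N - 1) * (1 + (N - 1) * pp N k q)

/-- exclusivity event -/
noncomputable def excl (Q : Finset ℕ) (ω : Fin N → Finset ℕ) : ℝ :=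
  ∏ q ∈ Q, if (univ.filter fun i => q ∈ ω i).card ≤ 1 then 1 else 0

/-- arithmetic average -/
noncomputable def ER (Q : Finset ℕ) (hit : ℕ → Fin N → ℕ → Prop)
    (Φ : (Fin N → Finset ℕ) → ℝ) : ℝ :=
  (∑ t ∈ range (∏ q ∈ Q, q), Φ (conf Q hit t)) / ((∏ q ∈ Q, q : ℕ) : ℝ)

lemma conf_mem (t : ℕ) : conf Q hit t ∈ Om N Q := by
  classical
  rw [mem_Om]
  intro i
  exact filter_subset _ _

open Classical in
lemma site_sum (h : HitSys Q k hit) {q : ℕ} (hq : q ∈ Q) (T : Finset (Fin N)) :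
    ∑ a ∈ range q, (if ∀ i, (hit q i a ↔ i ∈ T) then (1 : ℝ) else 0) =
      if T.card = 0 then (q : ℝ) - N * k q else if T.card = 1 then (k q : ℝ) else 0 := by
  split_ifs with h0 h1
  · rw [card_eq_zero] at h0
    subst h0
    have h2 : ∀ a ∈ range q, (if ∀ i, (hit q i a ↔ i ∈ (∅ : Finset (Fin N))) then (1 : ℝ) else 0) =
        1 - ∑ i : Fin N, (if hit q i a then (1 : ℝ) else 0) := by
      intro a _
      by_cases hex : ∃ i, hit q i a
      · obtain ⟨i, hi⟩ := hex
        rw [if_neg, sum_eq_single_of_mem i (mem_univ i), if_pos hi]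
        · ring
        · intro j _ hj
          rw [if_neg]
          intro hj'
          exact hj (h.exc q hq j i a hj' hi)
        · intro hall
          simpa using (hall i).1 hi
      · push Not at hex
        rw [if_pos, sum_eq_zero]
        · ring
        · intro i _
          rw [if_neg (hex i)]
        · intro i
          simp [hex i]
    rw [sum_congr rfl h2, sum_sub_distrib, sum_comm]
    have h3 : ∀ i ∈ (univ : Finset (Fin N)), ∑ a ∈ range q, (if hit q i a then (1 : ℝ) else 0) =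
        k q := by
      intro i _
      rw [← h.cnt q hq i]
      unfold hitCount
      rw [sum_ite, sum_const, sum_const_zero, add_zero, nsmul_eq_mul, mul_one]
    rw [sum_congr rfl h3]
    simp
  · rw [card_eq_one] at h1
    obtain ⟨i, rfl⟩ := h1
    rw [← h.cnt q hq i]
    unfold hitCount
    have h2 : ∀ a ∈ range q, (if ∀ j, (hit q j a ↔ j ∈ ({i} : Finset (Fin N))) then (1 : ℝ)
        else 0) = if hit q i a then (1 : ℝ) else 0 := by
      intro a _
      by_cases hi : hit q i a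
      · rw [if_pos hi, if_pos]
        intro j
        rw [mem_singleton]
        constructor
        · intro hj; exact h.exc q hq j i a hj hi
        · rintro rfl; exact hi
      · rw [if_neg hi, if_neg]
        intro hall
        exact hi ((hall i).2 (mem_singleton_self i))
    rw [sum_congr rfl h2, sum_ite, sum_const, sum_const_zero, add_zero, nsmul_eq_mul, mul_one]
  · refine sum_eq_zero fun a _ => ?_
    rw [if_neg]
    intro hall
    have h2 : 1 < T.card := by omega
    obtain ⟨i, hi, j, hj, hij⟩ := one_lt_card.1 h2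
    exact hij (h.exc q hq i j a ((hall i).2 hi) ((hall j).2 hj))

open Classical in
lemma conf_eq_iff {ω : Fin N → Finset ℕ} (hω : ω ∈ Om N Q) (t : ℕ) :
    conf Q hit t = ω ↔ ∀ q ∈ Q, ∀ i, (hit q i t ↔ i ∈ univ.filter fun i => q ∈ ω i) := by
  rw [mem_Om] at hω
  constructor
  · rintro rfl q hq i
    simp [conf, hq]
  · intro h
    funext i
    ext q
    unfold conf
    rw [mem_filter]
    constructor
    · rintro ⟨hq, hh⟩
      simpa using (h q hq i).1 hh
    · intro hq
      have hq' := hω i hq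
      refine ⟨hq', (h q hq' i).2 ?_⟩
      simpa using hq

open Classical in
lemma conf_count (h : HitSys Q k hit) {ω : Fin N → Finset ℕ} (hω : ω ∈ Om N Q) :
    ∑ t ∈ range (∏ q ∈ Q, q), (if conf Q hit t = ω then (1 : ℝ) else 0) =
      ∏ q ∈ Q, (if (univ.filter fun i => q ∈ ω i).card = 0 then (q : ℝ) - N * k q else
        if (univ.filter fun i => q ∈ ω i).card = 1 then (k q : ℝ) else 0) := by
  have h1 : ∀ t ∈ range (∏ q ∈ Q, q), (if conf Q hit t = ω then (1 : ℝ) else 0) =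
      ∏ q ∈ Q, (if ∀ i, (hit q i t ↔ i ∈ univ.filter fun i => q ∈ ω i) then (1 : ℝ) else 0) := by
    intro t _
    by_cases hc : conf Q hit t = ω
    · rw [if_pos hc]
      rw [conf_eq_iff hω] at hc
      symm
      refine prod_eq_one fun q hq => ?_
      rw [if_pos (hc q hq)]
    · rw [if_neg hc]
      rw [conf_eq_iff hω] at hc
      push Not at hc
      obtain ⟨q, hq, i, hi⟩ := hc
      symm
      refine prod_eq_zero hq ?_
      rw [if_neg]
      intro hall
      have := hall i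
      tauto
  rw [sum_congr rfl h1, crt_prod Q h.pos h.co]
  · refine prod_congr rfl fun q hq => ?_
    rw [site_sum h hq]
  · intro q hq t
    have : (∀ i, (hit q i (t + q) ↔ i ∈ univ.filter fun i => q ∈ ω i)) ↔
        ∀ i, (hit q i t ↔ i ∈ univ.filter fun i => q ∈ ω i) := by
      refine forall_congr' fun i => ?_
      rw [h.per q hq i t]
    simp only [this]

lemma muN_eq_prod (p : ℕ → ℝ) {ω : Fin N → Finset ℕ} (hω : ω ∈ Om N Q) :
    muN p Q ω = ∏ q ∈ Q, (p q ^ (univ.filter fun i => q ∈ ω i).card *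
      (1 - p q) ^ (N - (univ.filter fun i => q ∈ ω i).card)) := by
  rw [mem_Om] at hω
  unfold muN mu
  have h1 : ∀ i ∈ (univ : Finset (Fin N)), (∏ q ∈ ω i, p q) * ∏ q ∈ Q \ ω i, (1 - p q) =
      ∏ q ∈ Q, (if q ∈ ω i then p q else 1 - p q) := by
    intro i _
    rw [prod_split Q (ω i) (hω i)]
    congr 1
    · exact prod_congr rfl fun q hq => by rw [if_pos hq]
    · exact prod_congr rfl fun q hq => by rw [if_neg (mem_sdiff.1 hq).2]
  rw [prod_congr rfl h1, prod_comm]
  refine prod_congr rfl fun q _ => ?_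
  rw [prod_ite, prod_const, prod_const]
  congr 2
  have h2 := card_filter_add_card_filter_not (s := (univ : Finset (Fin N))) (fun i => q ∈ ω i)
  rw [card_univ, Fintype.card_fin] at h2
  omega

/-- basic algebra of the parameters -/
lemma den_pos (h : HitSys Q k hit) (_hN : 0 < N) {q : ℕ} (hq : q ∈ Q) :
    (0 : ℝ) < q - (N - 1) * k q := by
  have h1 := h.small q hq
  have h2 : (N : ℝ) * k q < q := by exact_mod_cast h1
  have h3 : (0 : ℝ) ≤ k q := Nat.cast_nonneg _
  nlinarith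

lemma one_sub_pp (h : HitSys Q k hit) (hN : 0 < N) {q : ℕ} (hq : q ∈ Q) :
    1 - pp N k q = (q - N * k q) / (q - (N - 1) * k q) := by
  have hd := den_pos h hN hq
  unfold pp
  rw [eq_div_iff hd.ne', sub_mul, div_mul_cancel₀ _ hd.ne']
  ring

lemma one_add_pp (h : HitSys Q k hit) (hN : 0 < N) {q : ℕ} (hq : q ∈ Q) :
    1 + (N - 1) * pp N k q = q / (q - (N - 1) * k q) := by
  have hd := den_pos h hN hq
  unfold pp
  rw [eq_div_iff hd.ne', add_mul, mul_assoc, div_mul_cancel₀ _ hd.ne']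
  ring

lemma pp_nonneg (h : HitSys Q k hit) (hN : 0 < N) {q : ℕ} (hq : q ∈ Q) : 0 ≤ pp N k q := by
  have hd := den_pos h hN hq
  unfold pp
  positivity

lemma pp_lt_one (h : HitSys Q k hit) (hN : 0 < N) {q : ℕ} (hq : q ∈ Q) : pp N k q < 1 := by
  have hd := den_pos h hN hq
  have h1 := one_sub_pp h hN hq
  have h2 : (N : ℝ) * k q < q := by exact_mod_cast h.small q hq
  have h3 : 0 < (q - N * k q : ℝ) / (q - (N - 1) * k q) := div_pos (by linarith) hd
  linarith

open Classical in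
/-- the key identity at one prime -/
lemma site_identity (h : HitSys Q k hit) (hN : 0 < N) {q : ℕ} (hq : q ∈ Q)
    (c : ℕ) (hc : c ≤ N) :
    (if c = 0 then (q : ℝ) - N * k q else if c = 1 then (k q : ℝ) else 0) / q * Zq N k q =
      (pp N k q ^ c * (1 - pp N k q) ^ (N - c)) * (if c ≤ 1 then 1 else 0) := by
  have hd := den_pos h hN hq
  have hq0 : (0 : ℝ) < q := by exact_mod_cast h.pos q hq
  unfold Zq
  rw [one_add_pp h hN hq]
  by_cases h0 : c = 0
  · subst h0
    simp only [if_true, pow_zero, one_mul, Nat.sub_zero, Nat.zero_le, mul_one]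
    have h1 : (1 - pp N k q) ^ N = (1 - pp N k q) ^ (N - 1) * (1 - pp N k q) := by
      rw [← pow_succ, Nat.sub_add_cancel hN]
    rw [h1]
    have h2 := one_sub_pp h hN hq
    have h3 : ((q : ℝ) - N * k q) / q * ((1 - pp N k q) ^ (N - 1) * (q / (q - (N - 1) * k q))) =
        (1 - pp N k q) ^ (N - 1) * ((q - N * k q) / (q - (N - 1) * k q)) := by
      field_simp
    rw [h3, ← h2]
  · by_cases h1 : c = 1
    · subst h1
      simp only [one_ne_zero, if_false, if_true, pow_one, le_refl, mul_one]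
      have h2 : pp N k q = k q / (q - (N - 1) * k q) := rfl
      have h3 : (k q : ℝ) / q * ((1 - pp N k q) ^ (N - 1) * (q / (q - (N - 1) * k q))) =
        (k q / (q - (N - 1) * k q)) * (1 - pp N k q) ^ (N - 1) := by
        field_simp
      rw [h3, ← h2]
    · rw [if_neg h0, if_neg h1, if_neg (by omega)]
      ring

/-- total normalising constant -/
noncomputable def ZZ (N : ℕ) (k : ℕ → ℕ) (Q : Finset ℕ) : ℝ := ∏ q ∈ Q, Zq N k q

/-- The arithmetic average is the conditioned product average. -/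
theorem ER_eq (h : HitSys Q k hit) (hN : 0 < N) (Φ : (Fin N → Finset ℕ) → ℝ) :
    ZZ N k Q * ER Q hit Φ = EN (pp N k) Q (fun ω => Φ ω * excl Q ω) := by
  classical
  unfold ER EN
  have h1 : ∑ t ∈ range (∏ q ∈ Q, q), Φ (conf Q hit t) =
      ∑ ω ∈ Om N Q, Φ ω * ∑ t ∈ range (∏ q ∈ Q, q), (if conf Q hit t = ω then (1 : ℝ) else 0) := by
    simp only [mul_sum]
    rw [sum_comm]
    refine sum_congr rfl fun t _ => ?_
    simp only [mul_ite, mul_one, mul_zero]
    rw [sum_ite_eq, if_pos (conf_mem t)]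
  rw [h1, mul_div_assoc', mul_sum, sum_div]
  refine sum_congr rfl fun ω hω => ?_
  rw [conf_count h hω, muN_eq_prod _ hω]
  unfold ZZ excl
  rw [Nat.cast_prod]
  have h3 : (∏ q ∈ Q, (if (univ.filter fun i => q ∈ ω i).card = 0 then (q : ℝ) - N * k q else
        if (univ.filter fun i => q ∈ ω i).card = 1 then (k q : ℝ) else 0)) / (∏ q ∈ Q, (q : ℝ)) *
        ∏ q ∈ Q, Zq N k q =
      (∏ q ∈ Q, (pp N k q ^ (univ.filter fun i => q ∈ ω i).card *
      (1 - pp N k q) ^ (N - (univ.filter fun i => q ∈ ω i).card))) *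
      ∏ q ∈ Q, (if (univ.filter fun i => q ∈ ω i).card ≤ 1 then (1 : ℝ) else 0) := by
    rw [← prod_div_distrib, ← prod_mul_distrib, ← prod_mul_distrib]
    refine prod_congr rfl fun q hq => ?_
    refine site_identity h hN hq _ ?_
    exact (card_le_univ _).trans (by simp)
  have h4 : (∏ q ∈ Q, Zq N k q) * (Φ ω * ∏ q ∈ Q, (if (univ.filter fun i => q ∈ ω i).card = 0
        then (q : ℝ) - N * k q else if (univ.filter fun i => q ∈ ω i).card = 1 then (k q : ℝ)
        else 0)) / (∏ q ∈ Q, (q : ℝ)) = Φ ω * ((∏ q ∈ Q,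
        (if (univ.filter fun i => q ∈ ω i).card = 0 then (q : ℝ) - N * k q else
        if (univ.filter fun i => q ∈ ω i).card = 1 then (k q : ℝ) else 0)) / (∏ q ∈ Q, (q : ℝ)) *
        ∏ q ∈ Q, Zq N k q) := by ring
  rw [h4, h3]
  ring

lemma Zq_le_one (h : HitSys Q k hit) (hN : 0 < N) {q : ℕ} (hq : q ∈ Q) : Zq N k q ≤ 1 := by
  have hp0 := pp_nonneg h hN hq
  have hp1 := pp_lt_one h hN hq
  unfold Zq
  have h1 : 1 + ((N : ℝ) - 1) * pp N k q ≤ (1 + pp N k q) ^ (N - 1) := by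
    have h2 := one_add_mul_le_pow (a := pp N k q) (by linarith) (N - 1)
    rw [Nat.cast_sub hN, Nat.cast_one] at h2
    exact h2
  calc (1 - pp N k q) ^ (N - 1) * (1 + (N - 1) * pp N k q)
      ≤ (1 - pp N k q) ^ (N - 1) * (1 + pp N k q) ^ (N - 1) :=
        mul_le_mul_of_nonneg_left h1 (pow_nonneg (by linarith) _)
    _ = (1 - pp N k q ^ 2) ^ (N - 1) := by rw [← mul_pow]; ring
    _ ≤ 1 := pow_le_one₀ (by nlinarith) (by nlinarith)

lemma Zq_ge (h : HitSys Q k hit) (hN : 0 < N) {q : ℕ} (hq : q ∈ Q) :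
    1 - (N : ℝ) ^ 2 * pp N k q ^ 2 ≤ Zq N k q := by
  have hp0 := pp_nonneg h hN hq
  have hp1 := pp_lt_one h hN hq
  have hN1 : (1 : ℝ) ≤ N := by exact_mod_cast hN
  unfold Zq
  have h1 : 1 - ((N : ℝ) - 1) * pp N k q ≤ (1 - pp N k q) ^ (N - 1) := by
    have h2 := one_add_mul_le_pow (a := - pp N k q) (by linarith) (N - 1)
    rw [Nat.cast_sub hN, Nat.cast_one] at h2
    calc 1 - ((N : ℝ) - 1) * pp N k q = 1 + ((N : ℝ) - 1) * (- pp N k q) := by ring
      _ ≤ _ := h2
      _ = _ := by ring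
  have h3 : 0 ≤ 1 + ((N : ℝ) - 1) * pp N k q := by nlinarith
  calc 1 - (N : ℝ) ^ 2 * pp N k q ^ 2 ≤ (1 - ((N : ℝ) - 1) * pp N k q) *
        (1 + ((N : ℝ) - 1) * pp N k q) := by nlinarith [sq_nonneg (pp N k q)]
    _ ≤ _ := mul_le_mul_of_nonneg_right h1 h3

lemma Zq_nonneg (h : HitSys Q k hit) (hN : 0 < N) {q : ℕ} (hq : q ∈ Q) : 0 ≤ Zq N k q := by
  have hp0 := pp_nonneg h hN hq
  have hp1 := pp_lt_one h hN hq
  have hN1 : (1 : ℝ) ≤ N := by exact_mod_cast hN
  unfold Zq
  refine mul_nonneg (pow_nonneg (by linarith) _) (by nlinarith)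

lemma ZZ_le_one (h : HitSys Q k hit) (hN : 0 < N) : ZZ N k Q ≤ 1 :=
  prod_le_one (fun _ hq => Zq_nonneg h hN hq) fun _ hq => Zq_le_one h hN hq

lemma weierstrass (s : Finset ℕ) (x : ℕ → ℝ) (h0 : ∀ q ∈ s, 0 ≤ x q) (h1 : ∀ q ∈ s, x q ≤ 1) :
    1 - ∑ q ∈ s, x q ≤ ∏ q ∈ s, (1 - x q) := by
  induction s using Finset.induction_on with
  | empty => simp
  | insert q s hq ih =>
    rw [sum_insert hq, prod_insert hq]
    have ih' := ih (fun a ha => h0 a (mem_insert_of_mem ha))
      (fun a ha => h1 a (mem_insert_of_mem ha))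
    have h2 := h0 q (mem_insert_self q s)
    have h3 := h1 q (mem_insert_self q s)
    have h4 : 0 ≤ ∑ a ∈ s, x a := sum_nonneg fun a ha => h0 a (mem_insert_of_mem ha)
    calc 1 - (x q + ∑ a ∈ s, x a) ≤ (1 - x q) * (1 - ∑ a ∈ s, x a) := by nlinarith
      _ ≤ _ := mul_le_mul_of_nonneg_left ih' (by linarith)

lemma ZZ_ge (h : HitSys Q k hit) (hN : 0 < N)
    (hsm : (N : ℝ) ^ 2 * ∑ q ∈ Q, pp N k q ^ 2 ≤ 1 / 2) : 1 / 2 ≤ ZZ N k Q := by
  have h1 : ∀ q ∈ Q, (N : ℝ) ^ 2 * pp N k q ^ 2 ≤ 1 := by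
    intro q hq
    have h2 : pp N k q ^ 2 ≤ ∑ q ∈ Q, pp N k q ^ 2 :=
      single_le_sum (f := fun q => pp N k q ^ 2) (fun _ _ => sq_nonneg _) hq
    have h3 : (0 : ℝ) ≤ (N : ℝ) ^ 2 := by positivity
    nlinarith
  have h2 := weierstrass Q (fun q => (N : ℝ) ^ 2 * pp N k q ^ 2)
    (fun q _ => by positivity) h1
  rw [← mul_sum] at h2
  unfold ZZ
  calc (1 : ℝ) / 2 ≤ ∏ q ∈ Q, (1 - (N : ℝ) ^ 2 * pp N k q ^ 2) := by linarith
    _ ≤ ∏ q ∈ Q, Zq N k q := by
        refine prod_le_prod (fun q hq => ?_) fun q hq => Zq_ge h hN hq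
        have := h1 q hq
        linarith

end Pool.Agent.GapSieve
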