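import Pool.Agent.Lib.GapSieve.Core
import Pool.Agent.Lib.GapSieve.Mertens4

/-!
# Choice of the parameters
-/

open Finset

namespace Pool.Agent.GapSieve

/-- number of scales -/
def Jn (n0 : ℕ) : ℕ := Nat.log 8 n0

/-- primes up to scale `m` -/
def Bset (n0 m : ℕ) : Finset ℕ :=
  (Ioc (n0 ^ 3) ((n0 ^ 3) ^ (2 ^ (m + 1)))).filter fun q => q.Prime ∧ q % 4 = 1

/-- all primes -/
def Qset (n0 : ℕ) : Finset ℕ :=
  (Ioc (n0 ^ 3) ((n0 ^ 3) ^ (2 ^ Jn n0))).filter fun q => q.Prime ∧ q % 4 = 1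

lemma Bset_mono {n0 : ℕ} (hn : 0 < n0) : Monotone (Bset n0) := by
  intro m m' h
  refine filter_subset_filter _ (Ioc_subset_Ioc_right ?_)
  exact Nat.pow_le_pow_right (by positivity) (Nat.pow_le_pow_right (by norm_num) (by omega))

lemma Bset_subset {n0 : ℕ} (hn : 0 < n0) (m : ℕ) (hm : m < Jn n0) : Bset n0 m ⊆ Qset n0 := by
  refine filter_subset_filter _ (Ioc_subset_Ioc_right ?_)
  exact Nat.pow_le_pow_right (by positivity) (Nat.pow_le_pow_right (by norm_num) (by omega))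

lemma mem_Qset {n0 q : ℕ} (hq : q ∈ Qset n0) :
    n0 ^ 3 < q ∧ q ≤ (n0 ^ 3) ^ (2 ^ Jn n0) ∧ q.Prime ∧ q % 4 = 1 := by
  unfold Qset at hq
  obtain ⟨h1, h2⟩ := mem_filter.1 hq
  rw [mem_Ioc] at h1
  exact ⟨h1.1, h1.2, h2.1, h2.2⟩

section bounds

variable {n0 N : ℕ}

/-- the parameter bounds -/
lemma pp_bounds (hn : 4 ≤ n0) (hN : 0 < N) (hNn : N ≤ n0) {q : ℕ} (hq : n0 ^ 3 < q) :
    2 / (q : ℝ) ≤ pp N (fun _ => 2) q ∧ pp N (fun _ => 2) q ≤ 4 / q := by
  have hn' : (4 : ℝ) ≤ n0 := by exact_mod_cast hn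
  have hN' : (1 : ℝ) ≤ N := by exact_mod_cast hN
  have hNn' : (N : ℝ) ≤ n0 := by exact_mod_cast hNn
  have hq' : (n0 : ℝ) ^ 3 < q := by exact_mod_cast hq
  have h1 : (16 : ℝ) * n0 ≤ (n0 : ℝ) ^ 3 := by nlinarith [sq_nonneg ((n0 : ℝ) - 4)]
  have hq0 : (0 : ℝ) < q := by linarith
  have hd : (q : ℝ) / 2 ≤ q - (N - 1) * 2 := by linarith
  have hd0 : (0 : ℝ) < q - (N - 1) * 2 := by linarith
  unfold pp
  push_cast
  constructor
  · exact div_le_div_of_nonneg_left (by norm_num) hd0 (by linarith)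
  · rw [div_le_div_iff₀ hd0 hq0]
    linarith

lemma two_pow_log (n0 : ℕ) {n : ℕ} : Real.log (((n0 ^ 3 : ℕ) ^ (2 ^ n) : ℕ) : ℝ) =
    2 ^ n * Real.log ((n0 ^ 3 : ℕ) : ℝ) := by
  push_cast
  rw [Real.log_pow]
  push_cast
  ring

lemma V_bound {C : ℝ} (hC : ∀ M K : ℕ, 2 ≤ M → M ≤ K →
    Real.log (Real.log K) - Real.log (Real.log M) - C ≤
      ∑ p ∈ Ioc M K with p.Prime ∧ p % 4 = 1, 2 / (p : ℝ))
    (hn : 4 ≤ n0) (hN : 0 < N) (hNn : N ≤ n0) (m : ℕ) :
    V (pp N (fun _ => 2)) (Bset n0) m ≤ Real.exp C * (1 / 2) ^ (m + 1) := by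
  have hM : 2 ≤ n0 ^ 3 := le_trans (by omega : 2 ≤ n0) (Nat.le_self_pow (by norm_num) n0)
  have h1 := hC (n0 ^ 3) ((n0 ^ 3) ^ (2 ^ (m + 1))) hM (Nat.le_self_pow (by positivity) _)
  have hL : 0 < Real.log ((n0 ^ 3 : ℕ) : ℝ) := Real.log_pos (by exact_mod_cast (by omega))
  rw [two_pow_log n0, Real.log_mul (by positivity) hL.ne', Real.log_pow] at h1
  have h2 : V (pp N (fun _ => 2)) (Bset n0) m ≤
      Real.exp (- ∑ q ∈ Bset n0 m, 2 / (q : ℝ)) := by
    unfold V
    rw [← sum_neg_distrib, Real.exp_sum]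
    refine prod_le_prod (fun q hq => ?_) fun q hq => ?_
    · have hq' : n0 ^ 3 < q := (mem_Ioc.1 (mem_filter.1 hq).1).1
      have h3 := (pp_bounds hn hN hNn hq').2
      have h4 : (4 : ℝ) / q ≤ 1 := by
        rw [div_le_one (by exact_mod_cast (by omega : 0 < q))]
        have : 4 ≤ n0 ^ 3 := hn.trans (Nat.le_self_pow (by norm_num) n0)
        exact_mod_cast (by omega : 4 ≤ q)
      linarith
    · have hq' : n0 ^ 3 < q := (mem_Ioc.1 (mem_filter.1 hq).1).1
      have h3 := (pp_bounds hn hN hNn hq').1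
      have h4 := Real.add_one_le_exp (-(2 / (q : ℝ)))
      linarith
  refine h2.trans ?_
  have h5 : Real.exp C * (1 / 2) ^ (m + 1) = Real.exp (C - (m + 1) * Real.log 2) := by
    rw [Real.exp_sub, one_div, inv_pow, div_eq_mul_inv]
    congr 2
    rw [mul_comm, Real.exp_mul, Real.exp_log (by norm_num)]
    norm_cast
  rw [h5]
  refine Real.exp_le_exp.2 ?_
  push_cast at h1
  unfold Bset
  linarith

lemma one_sub_ge_exp {x : ℝ} (h0 : 0 ≤ x) (h1 : x ≤ 1 / 2) : Real.exp (-(2 * x)) ≤ 1 - x := by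
  have h2 : 1 + 2 * x ≤ Real.exp (2 * x) := by
    have := Real.add_one_le_exp (2 * x)
    linarith
  rw [Real.exp_neg]
  have h3 : 0 < 1 + 2 * x := by linarith
  calc (Real.exp (2 * x))⁻¹ ≤ (1 + 2 * x)⁻¹ := inv_anti₀ h3 h2
    _ ≤ 1 - x := by
      rw [inv_le_iff_one_le_mul₀ h3]
      nlinarith

/-- sums of `log q / q` over the scales -/
lemma sum_log_le (hn : 8 ≤ n0) (n : ℕ) :
    ∑ q ∈ (Ioc (n0 ^ 3) ((n0 ^ 3) ^ (2 ^ n))).filter (fun q => q.Prime ∧ q % 4 = 1),
      Real.log q / q ≤ 2 * (2 ^ n * Real.log ((n0 ^ 3 : ℕ) : ℝ)) := by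
  have h1 := mertens_primes_upper ((n0 ^ 3) ^ (2 ^ n)) (by positivity)
  rw [two_pow_log n0] at h1
  have h2 : ∑ q ∈ (Ioc (n0 ^ 3) ((n0 ^ 3) ^ (2 ^ n))).filter (fun q => q.Prime ∧ q % 4 = 1),
      Real.log q / (q : ℝ) ≤ ∑ p ∈ Ioc 0 ((n0 ^ 3) ^ (2 ^ n)) with p.Prime,
      Real.log p / (p : ℝ) := by
    refine sum_le_sum_of_subset_of_nonneg ?_ fun q hq _ => ?_
    · intro q hq
      rw [mem_filter, mem_Ioc] at hq ⊢
      exact ⟨⟨by omega, hq.1.2⟩, hq.2.1⟩
    · have : (1 : ℝ) ≤ q := by exact_mod_cast (mem_Ioc.1 (mem_filter.1 hq).1).1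
      exact div_nonneg (Real.log_nonneg this) (by linarith)
  have h3 : (6 : ℝ) ≤ Real.log ((n0 ^ 3 : ℕ) : ℝ) := by
    have h4 : (8 : ℝ) ≤ n0 := by exact_mod_cast hn
    have h5 : Real.log 8 ≤ Real.log n0 := Real.log_le_log (by norm_num) h4
    have h6 : Real.log 8 = 3 * Real.log 2 := by
      rw [show (8 : ℝ) = 2 ^ 3 by norm_num, Real.log_pow]; norm_num
    have h7 := Real.log_two_gt_d9
    push_cast
    rw [Real.log_pow]
    push_cast
    linarith
  have h8 : (1 : ℝ) ≤ 2 ^ n := one_le_pow₀ (by norm_num)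
  nlinarith

/-- the geometric double sum -/
lemma geom_double (J : ℕ) :
    ∑ m ∈ range J, ∑ m' ∈ range J, (1 / 2 : ℝ) ^ (max m m' - min m m') ≤ 4 * J := by
  have hgeom : ∀ n : ℕ, ∑ i ∈ range n, (1 / 2 : ℝ) ^ i ≤ 2 := by
    intro n
    have h5 : ∑ i ∈ range n, (1 / 2 : ℝ) ^ i = 2 - 2 * (1 / 2) ^ n := by
      induction n with
      | zero => simp
      | succ M ih => rw [sum_range_succ, ih, pow_succ]; ring
    rw [h5]
    have : (0 : ℝ) < (1 / 2) ^ n := by positivity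
    linarith
  have h1 : ∀ m ∈ range J, ∑ m' ∈ range J, (1 / 2 : ℝ) ^ (max m m' - min m m') ≤ 4 := by
    intro m hm
    rw [mem_range] at hm
    have h2 : ∑ m' ∈ range J, (1 / 2 : ℝ) ^ (max m m' - min m m') ≤
        ∑ m' ∈ range (m + 1), (1 / 2 : ℝ) ^ (m - m') +
        ∑ m' ∈ Ico m J, (1 / 2 : ℝ) ^ (m' - m) := by
      have h3 : range J = range m ∪ Ico m J := by
        ext x
        simp only [mem_range, mem_union, mem_Ico]
        omega
      have h4 : Disjoint (range m) (Ico m J) := by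
        rw [disjoint_left]
        intro x hx hx'
        rw [mem_range] at hx
        rw [mem_Ico] at hx'
        omega
      rw [h3, sum_union h4]
      refine add_le_add ?_ ?_
      · rw [sum_range_succ]
        have h5 : ∑ x ∈ range m, (1 / 2 : ℝ) ^ (max m x - min m x) =
            ∑ x ∈ range m, (1 / 2 : ℝ) ^ (m - x) := by
          refine sum_congr rfl fun x hx => ?_
          rw [mem_range] at hx
          rw [max_eq_left hx.le, min_eq_right hx.le]
        rw [h5]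
        have : (0 : ℝ) < (1 / 2) ^ (m - m) := by positivity
        linarith
      · refine le_of_eq (sum_congr rfl fun x hx => ?_)
        rw [mem_Ico] at hx
        rw [max_eq_right hx.1, min_eq_left hx.1]
    refine h2.trans ?_
    have h6 : ∑ m' ∈ range (m + 1), (1 / 2 : ℝ) ^ (m - m') ≤ 2 := by
      have := sum_range_reflect (fun i => (1 / 2 : ℝ) ^ i) (m + 1)
      simp only [Nat.add_sub_cancel] at this
      rw [this]
      exact hgeom _
    have h7 : ∑ m' ∈ Ico m J, (1 / 2 : ℝ) ^ (m' - m) ≤ 2 := by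
      rw [sum_Ico_eq_sum_range]
      simp only [Nat.add_sub_cancel_left]
      exact hgeom _
    linarith
  calc ∑ m ∈ range J, ∑ m' ∈ range J, (1 / 2 : ℝ) ^ (max m m' - min m m')
      ≤ ∑ _m ∈ range J, (4 : ℝ) := sum_le_sum h1
    _ = 4 * J := by rw [sum_const, card_range, nsmul_eq_mul]; ring

/-- the exponent -/
noncomputable def th (n0 : ℕ) : ℝ := 1 / (2 ^ Jn n0 * Real.log ((n0 ^ 3 : ℕ) : ℝ))

lemma logn_ge (hn : 8 ≤ n0) : (6 : ℝ) ≤ Real.log ((n0 ^ 3 : ℕ) : ℝ) := by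
  have h4 : (8 : ℝ) ≤ n0 := by exact_mod_cast hn
  have h5 : Real.log 8 ≤ Real.log n0 := Real.log_le_log (by norm_num) h4
  have h6 : Real.log 8 = 3 * Real.log 2 := by
    rw [show (8 : ℝ) = 2 ^ 3 by norm_num, Real.log_pow]; norm_num
  have h7 := Real.log_two_gt_d9
  push_cast
  rw [Real.log_pow]
  push_cast
  linarith

/-- the weights of small primes -/
lemma W_bound (hn : 8 ≤ n0) (hN : 0 < N) (hNn : N ≤ n0) {m : ℕ} (hm : m < Jn n0) :
    ∏ q ∈ Bset n0 m, (1 + pp N (fun _ => 2) q * ((q : ℝ) ^ th n0 - 1)) ≤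
      1 + 16 * Real.exp 16 * (2 ^ (m + 1) / 2 ^ Jn n0) := by
  have hL := logn_ge hn
  have hL0 : 0 < Real.log ((n0 ^ 3 : ℕ) : ℝ) := by linarith
  have hth : 0 < th n0 := by unfold th; positivity
  set x : ℝ := 2 ^ (m + 1) / 2 ^ Jn n0 with hx
  have hx0 : 0 < x := by positivity
  have hx1 : x ≤ 1 := by
    rw [hx, div_le_one (by positivity)]
    exact pow_le_pow_right₀ (by norm_num) (by omega)
  have h1 : ∑ q ∈ Bset n0 m, pp N (fun _ => 2) q * ((q : ℝ) ^ th n0 - 1) ≤ 16 * x := by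
    have h2 : ∀ q ∈ Bset n0 m, pp N (fun _ => 2) q * ((q : ℝ) ^ th n0 - 1) ≤
        8 * th n0 * (Real.log q / q) := by
      intro q hq
      unfold Bset at hq
      rw [mem_filter, mem_Ioc] at hq
      obtain ⟨⟨hq1, hq2⟩, -⟩ := hq
      have hq0 : (0 : ℝ) < q := by exact_mod_cast (by omega : 0 < q)
      have hq1' : (1 : ℝ) ≤ q := by exact_mod_cast (by omega : 1 ≤ q)
      have hlq : 0 ≤ Real.log q := Real.log_nonneg hq1'
      have hp := (pp_bounds (by omega) hN hNn hq1).2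
      have hp0 : 0 ≤ pp N (fun _ => 2) q :=
        le_trans (by positivity) (pp_bounds (by omega) hN hNn hq1).1
      have h3 : th n0 * Real.log q ≤ 1 := by
        have h4 : Real.log q ≤ 2 ^ (m + 1) * Real.log ((n0 ^ 3 : ℕ) : ℝ) := by
          rw [← two_pow_log n0]
          exact Real.log_le_log hq0 (by exact_mod_cast hq2)
        unfold th
        rw [one_div, inv_mul_le_iff₀ (by positivity), mul_one]
        refine h4.trans (mul_le_mul_of_nonneg_right ?_ hL0.le)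
        exact pow_le_pow_right₀ (by norm_num) (by omega)
      have h5 : (q : ℝ) ^ th n0 - 1 ≤ 2 * (th n0 * Real.log q) := by
        have h6 : (q : ℝ) ^ th n0 = Real.exp (th n0 * Real.log q) := by
          rw [Real.rpow_def_of_pos hq0, mul_comm]
        rw [h6]
        have h7 := Real.abs_exp_sub_one_le (x := th n0 * Real.log q)
          (by rw [abs_of_nonneg (by positivity)]; exact h3)
        rw [abs_of_nonneg (show 0 ≤ th n0 * Real.log q by positivity)] at h7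
        exact (le_abs_self _).trans h7
      have h8 : 0 ≤ (q : ℝ) ^ th n0 - 1 := by
        have := Real.one_le_rpow hq1' hth.le
        linarith
      calc pp N (fun _ => 2) q * ((q : ℝ) ^ th n0 - 1) ≤ 4 / q * (2 * (th n0 * Real.log q)) :=
            mul_le_mul hp h5 h8 (by positivity)
        _ = 8 * th n0 * (Real.log q / q) := by ring
    refine (sum_le_sum h2).trans ?_
    rw [← mul_sum]
    have h9 := sum_log_le hn (m + 1)
    calc 8 * th n0 * ∑ q ∈ Bset n0 m, Real.log q / (q : ℝ)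
        ≤ 8 * th n0 * (2 * (2 ^ (m + 1) * Real.log ((n0 ^ 3 : ℕ) : ℝ))) :=
          mul_le_mul_of_nonneg_left h9 (by positivity)
      _ = 16 * x := by
          rw [hx]
          unfold th
          field_simp
          ring
  have h10 : ∏ q ∈ Bset n0 m, (1 + pp N (fun _ => 2) q * ((q : ℝ) ^ th n0 - 1)) ≤
      Real.exp (16 * x) := by
    refine le_trans ?_ (Real.exp_le_exp.2 h1)
    rw [Real.exp_sum]
    refine prod_le_prod (fun q hq => ?_) fun q hq => ?_
    · unfold Bset at hq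
      rw [mem_filter, mem_Ioc] at hq
      obtain ⟨⟨hq1, hq2⟩, -⟩ := hq
      have hq1' : (1 : ℝ) ≤ q := by exact_mod_cast (by omega : 1 ≤ q)
      have hp0 : 0 ≤ pp N (fun _ => 2) q :=
        le_trans (by positivity) (pp_bounds (by omega) hN hNn hq1).1
      have := Real.one_le_rpow hq1' hth.le
      have h8 : 0 ≤ (q : ℝ) ^ th n0 - 1 := by linarith
      positivity
    · have := Real.add_one_le_exp (pp N (fun _ => 2) q * ((q : ℝ) ^ th n0 - 1))
      linarith
  refine h10.trans ?_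
  -- `e^y - 1 ≤ y e^16` for `0 ≤ y ≤ 16`
  have h11 : Real.exp (16 * x) - 1 ≤ 16 * x * Real.exp (16 * x) := by
    have h12 := Real.add_one_le_exp (-(16 * x))
    rw [Real.exp_neg] at h12
    have h13 := Real.exp_pos (16 * x)
    have h14 : (-(16 * x) + 1) * Real.exp (16 * x) ≤ 1 := by
      calc (-(16 * x) + 1) * Real.exp (16 * x) ≤ (Real.exp (16 * x))⁻¹ * Real.exp (16 * x) :=
            mul_le_mul_of_nonneg_right h12 h13.le
        _ = 1 := inv_mul_cancel₀ h13.ne'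
    linarith
  have h15 : Real.exp (16 * x) ≤ Real.exp 16 := Real.exp_le_exp.2 (by linarith)
  have h16 : 16 * x * Real.exp (16 * x) ≤ 16 * x * Real.exp 16 :=
    mul_le_mul_of_nonneg_left h15 (by positivity)
  linarith

/-- comparison of the weighted and unweighted second moments -/
lemma Aw_bound {C : ℝ} (hC : ∀ M K : ℕ, 2 ≤ M → M ≤ K →
    Real.log (Real.log K) - Real.log (Real.log M) - C ≤
      ∑ p ∈ Ioc M K with p.Prime ∧ p % 4 = 1, 2 / (p : ℝ))
    (hn : 8 ≤ n0) (hN : 0 < N) (hNn : N ≤ n0) :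
    Aw (pp N (fun _ => 2)) (fun q => (q : ℝ) ^ th n0) (Bset n0) (Jn n0) (Qset n0) ≤
      A0 (pp N (fun _ => 2)) (Bset n0) (Jn n0) (Qset n0) +
      64 * Real.exp 16 * Real.exp C / (2 ^ Jn n0 * Jn n0) := by
  have hJ : 0 < Jn n0 := Nat.log_pos (by norm_num) hn
  have hJ' : (0 : ℝ) < Jn n0 := by exact_mod_cast hJ
  have hB : ∀ m < Jn n0, Bset n0 m ⊆ Qset n0 := Bset_subset (by omega)
  rw [A0_eq_Aw _ hB, Aw_eq _ _ (Bset_mono (by omega)) hB, Aw_eq _ _ (Bset_mono (by omega)) hB]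
  have h1 : ∑ m ∈ range (Jn n0), ∑ m' ∈ range (Jn n0), V (pp N (fun _ => 2)) (Bset n0) (max m m') *
        ∏ q ∈ Bset n0 (min m m'), (1 + pp N (fun _ => 2) q * ((q : ℝ) ^ th n0 - 1)) ≤
      ∑ m ∈ range (Jn n0), ∑ m' ∈ range (Jn n0), V (pp N (fun _ => 2)) (Bset n0) (max m m') *
        ∏ q ∈ Bset n0 (min m m'), (1 + pp N (fun _ => 2) q * ((1 : ℝ) - 1)) +
      16 * Real.exp 16 * Real.exp C / 2 ^ Jn n0 * (4 * Jn n0) := by
    have h2 : ∀ m ∈ range (Jn n0), ∀ m' ∈ range (Jn n0),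
        V (pp N (fun _ => 2)) (Bset n0) (max m m') *
        ∏ q ∈ Bset n0 (min m m'), (1 + pp N (fun _ => 2) q * ((q : ℝ) ^ th n0 - 1)) ≤
        V (pp N (fun _ => 2)) (Bset n0) (max m m') *
        ∏ q ∈ Bset n0 (min m m'), (1 + pp N (fun _ => 2) q * ((1 : ℝ) - 1)) +
        16 * Real.exp 16 * Real.exp C / 2 ^ Jn n0 * (1 / 2 : ℝ) ^ (max m m' - min m m') := by
      intro m hm m' hm'
      rw [mem_range] at hm hm'
      have h3 := W_bound hn hN hNn (m := min m m') (by omega)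
      have h4 := V_bound hC (by omega) hN hNn (max m m')
      have h5 : ∏ q ∈ Bset n0 (min m m'), (1 + pp N (fun _ => 2) q * ((1 : ℝ) - 1)) = 1 := by
        refine prod_eq_one fun q _ => ?_
        ring
      rw [h5, mul_one]
      have hV0 : 0 ≤ V (pp N (fun _ => 2)) (Bset n0) (max m m') := by
        unfold V
        refine prod_nonneg fun q hq => ?_
        have hq' : n0 ^ 3 < q := (mem_Ioc.1 (mem_filter.1 hq).1).1
        have h6 := (pp_bounds (by omega) hN hNn hq').2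
        have h7 : (4 : ℝ) / q ≤ 1 := by
          rw [div_le_one (by exact_mod_cast (by omega : 0 < q))]
          have : 8 ≤ n0 ^ 3 := hn.trans (Nat.le_self_pow (by norm_num) n0)
          exact_mod_cast (by omega : 4 ≤ q)
        linarith
      calc V (pp N (fun _ => 2)) (Bset n0) (max m m') *
          ∏ q ∈ Bset n0 (min m m'), (1 + pp N (fun _ => 2) q * ((q : ℝ) ^ th n0 - 1))
          ≤ V (pp N (fun _ => 2)) (Bset n0) (max m m') *
            (1 + 16 * Real.exp 16 * (2 ^ (min m m' + 1) / 2 ^ Jn n0)) :=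
            mul_le_mul_of_nonneg_left h3 hV0
        _ = V (pp N (fun _ => 2)) (Bset n0) (max m m') +
            V (pp N (fun _ => 2)) (Bset n0) (max m m') *
            (16 * Real.exp 16 * (2 ^ (min m m' + 1) / 2 ^ Jn n0)) := by ring
        _ ≤ V (pp N (fun _ => 2)) (Bset n0) (max m m') +
            (Real.exp C * (1 / 2) ^ (max m m' + 1)) *
            (16 * Real.exp 16 * (2 ^ (min m m' + 1) / 2 ^ Jn n0)) := by
            have := mul_le_mul_of_nonneg_right h4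
              (show 0 ≤ (16 * Real.exp 16 * (2 ^ (min m m' + 1) / 2 ^ Jn n0)) by positivity)
            linarith
        _ = _ := by
            have h8 : (1 / 2 : ℝ) ^ (max m m' + 1) * 2 ^ (min m m' + 1) =
                (1 / 2 : ℝ) ^ (max m m' - min m m') := by
              have h9 : max m m' + 1 = (max m m' - min m m') + (min m m' + 1) := by omega
              rw [h9, pow_add, mul_assoc, ← mul_pow]
              norm_num
            rw [← h8]
            ring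
    calc _ ≤ ∑ m ∈ range (Jn n0), ∑ m' ∈ range (Jn n0),
        (V (pp N (fun _ => 2)) (Bset n0) (max m m') *
        ∏ q ∈ Bset n0 (min m m'), (1 + pp N (fun _ => 2) q * ((1 : ℝ) - 1)) +
        16 * Real.exp 16 * Real.exp C / 2 ^ Jn n0 * (1 / 2 : ℝ) ^ (max m m' - min m m')) :=
          sum_le_sum fun m hm => sum_le_sum fun m' hm' => h2 m hm m' hm'
      _ ≤ _ := by
          simp only [sum_add_distrib, ← mul_sum]
          have := mul_le_mul_of_nonneg_left (geom_double (Jn n0))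
            (show 0 ≤ 16 * Real.exp 16 * Real.exp C / 2 ^ Jn n0 by positivity)
          linarith
  have h3 := div_le_div_of_nonneg_right h1 (show (0 : ℝ) ≤ (Jn n0 : ℝ) ^ 2 by positivity)
  rw [add_div] at h3
  have h4 : 16 * Real.exp 16 * Real.exp C / 2 ^ Jn n0 * (4 * (Jn n0 : ℝ)) / (Jn n0 : ℝ) ^ 2 =
      64 * Real.exp 16 * Real.exp C / (2 ^ Jn n0 * Jn n0) := by
    field_simp
    ring
  rw [h4] at h3
  linarith

/-- the second moment is at least one half -/
lemma A0_bound {C : ℝ} (hC : ∀ M K : ℕ, 2 ≤ M → M ≤ K →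
    Real.log (Real.log K) - Real.log (Real.log M) - C ≤
      ∑ p ∈ Ioc M K with p.Prime ∧ p % 4 = 1, 2 / (p : ℝ))
    (hn : 8 ≤ n0) (hN : 0 < N) (hNn : N ≤ n0) (hJC : 4 * Real.exp C ≤ Jn n0) :
    1 / 2 ≤ A0 (pp N (fun _ => 2)) (Bset n0) (Jn n0) (Qset n0) := by
  have hJ : 0 < Jn n0 := Nat.log_pos (by norm_num) hn
  have hJ' : (0 : ℝ) < Jn n0 := by exact_mod_cast hJ
  have hB : ∀ m < Jn n0, Bset n0 m ⊆ Qset n0 := Bset_subset (by omega)
  have hV0 : ∀ m, 0 ≤ V (pp N (fun _ => 2)) (Bset n0) m := by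
    intro m
    unfold V
    refine prod_nonneg fun q hq => ?_
    have hq' : n0 ^ 3 < q := (mem_Ioc.1 (mem_filter.1 hq).1).1
    have h6 := (pp_bounds (by omega) hN hNn hq').2
    have h7 : (4 : ℝ) / q ≤ 1 := by
      rw [div_le_one (by exact_mod_cast (by omega : 0 < q))]
      have : 8 ≤ n0 ^ 3 := hn.trans (Nat.le_self_pow (by norm_num) n0)
      exact_mod_cast (by omega : 4 ≤ q)
    linarith
  rw [A0_eq_Aw _ hB, Aw_eq _ _ (Bset_mono (by omega)) hB]
  have h1 : 0 ≤ ∑ m ∈ range (Jn n0), ∑ m' ∈ range (Jn n0),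
      V (pp N (fun _ => 2)) (Bset n0) (max m m') *
        ∏ q ∈ Bset n0 (min m m'), (1 + pp N (fun _ => 2) q * ((1 : ℝ) - 1)) := by
    refine sum_nonneg fun m _ => sum_nonneg fun m' _ => mul_nonneg (hV0 _) ?_
    refine prod_nonneg fun q _ => ?_
    norm_num
  have h2 : ∑ m ∈ range (Jn n0), V (pp N (fun _ => 2)) (Bset n0) m ≤ Real.exp C := by
    have h3 : ∑ i ∈ range (Jn n0), (1 / 2 : ℝ) ^ (i + 1) ≤ 1 := by
      have h5 : ∀ n : ℕ, ∑ i ∈ range n, (1 / 2 : ℝ) ^ (i + 1) = 1 - (1 / 2) ^ n := by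
        intro n
        induction n with
        | zero => simp
        | succ M ih => rw [sum_range_succ, ih, pow_succ]; ring
      rw [h5]
      have : (0 : ℝ) < (1 / 2) ^ Jn n0 := by positivity
      linarith
    calc ∑ m ∈ range (Jn n0), V (pp N (fun _ => 2)) (Bset n0) m
        ≤ ∑ m ∈ range (Jn n0), Real.exp C * (1 / 2) ^ (m + 1) :=
          sum_le_sum fun m _ => V_bound hC (by omega) hN hNn m
      _ = Real.exp C * ∑ m ∈ range (Jn n0), (1 / 2 : ℝ) ^ (m + 1) := by rw [mul_sum]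
      _ ≤ Real.exp C * 1 := mul_le_mul_of_nonneg_left h3 (Real.exp_pos _).le
      _ = Real.exp C := mul_one _
  have h4 : 2 * (∑ m ∈ range (Jn n0), V (pp N (fun _ => 2)) (Bset n0) m) / (Jn n0 : ℝ) ≤
      1 / 2 := by
    rw [div_le_iff₀ hJ']
    linarith
  have h5 := div_nonneg h1 (show (0 : ℝ) ≤ (Jn n0 : ℝ) ^ 2 by positivity)
  linarith

/-- lower bound for the probability that a site is not hit -/
lemma mu_empty_bound (hn : 8 ≤ n0) (hN : 0 < N) (hNn : N ≤ n0) :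
    Real.exp (-(16 * 2 ^ Jn n0)) ≤ mu (pp N (fun _ => 2)) (Qset n0) ∅ := by
  have hL := logn_ge hn
  have hL0 : 0 < Real.log ((n0 ^ 3 : ℕ) : ℝ) := by linarith
  unfold mu
  rw [prod_empty, one_mul, sdiff_empty]
  have h1 : ∏ q ∈ Qset n0, Real.exp (-(8 / (q : ℝ))) ≤
      ∏ q ∈ Qset n0, (1 - pp N (fun _ => 2) q) := by
    refine prod_le_prod (fun q _ => (Real.exp_pos _).le) fun q hq => ?_
    have hq' := (mem_Qset hq).1
    have h2 := pp_bounds (by omega) hN hNn hq'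
    have hq8 : (8 : ℝ) ≤ q := by
      have : 8 ≤ n0 ^ 3 := hn.trans (Nat.le_self_pow (by norm_num) n0)
      exact_mod_cast (by omega : 8 ≤ q)
    have h3 : (4 : ℝ) / q ≤ 1 / 2 := by
      rw [div_le_div_iff₀ (by linarith) (by norm_num)]
      linarith
    have h4 : 0 ≤ pp N (fun _ => 2) q := le_trans (by positivity) h2.1
    refine le_trans (Real.exp_le_exp.2 ?_) (one_sub_ge_exp h4 (h2.2.trans h3))
    have : (8 : ℝ) / q = 2 * (4 / q) := by ring
    rw [this]
    linarith [h2.2]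
  refine le_trans ?_ h1
  rw [← Real.exp_sum]
  refine Real.exp_le_exp.2 ?_
  rw [sum_neg_distrib, neg_le_neg_iff]
  have h5 : ∀ q ∈ Qset n0, 8 / (q : ℝ) ≤
      8 / Real.log ((n0 ^ 3 : ℕ) : ℝ) * (Real.log q / q) := by
    intro q hq
    have hq' := (mem_Qset hq).1
    have hq0 : (0 : ℝ) < q := by exact_mod_cast (by omega : 0 < q)
    have h6 : Real.log ((n0 ^ 3 : ℕ) : ℝ) ≤ Real.log q :=
      Real.log_le_log (by positivity) (by exact_mod_cast hq'.le)
    rw [div_mul_div_comm, div_le_div_iff₀ hq0 (by positivity)]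
    nlinarith
  refine (sum_le_sum h5).trans ?_
  rw [← mul_sum]
  have h7 := sum_log_le hn (Jn n0)
  calc 8 / Real.log ((n0 ^ 3 : ℕ) : ℝ) * ∑ q ∈ Qset n0, Real.log q / (q : ℝ)
      ≤ 8 / Real.log ((n0 ^ 3 : ℕ) : ℝ) * (2 * (2 ^ Jn n0 * Real.log ((n0 ^ 3 : ℕ) : ℝ))) :=
        mul_le_mul_of_nonneg_left h7 (by positivity)
    _ = 16 * 2 ^ Jn n0 := by field_simp; ring

end bounds

end Pool.Agent.GapSieve
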