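import Mathlib

/-!
# The Erdős–Rankin presieve

Residue classes modulo the primes up to `x` which leave at most `ε x` elements of an interval of
length `c x (log x)^2 / (log log x)^2`.
-/

open Finset
open scoped Classical

namespace Pool.Agent.Presieve

lemma sum_dyadic (y : ℕ) (hy : 2 ≤ y) :
    ∑ p ∈ (Ioc y (2 * y)).filter Nat.Prime, (1 / (p : ℝ)) ≤ 2 * Real.log 4 / Real.log y := by
  have hy0 : (0:ℝ) < y := by positivity
  have hlog : 0 < Real.log y := Real.log_pos (by exact_mod_cast hy)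
  have h1 : ∀ p ∈ (Ioc y (2 * y)).filter Nat.Prime,
      (1 / (p : ℝ)) ≤ Real.log p / (y * Real.log y) := by
    intro p hp
    rw [mem_filter, mem_Ioc] at hp
    have hp1 : (y:ℝ) < p := by exact_mod_cast hp.1.1
    have h2 : Real.log y ≤ Real.log p := Real.log_le_log hy0 hp1.le
    rw [div_le_div_iff₀ (by linarith) (by positivity)]
    have := mul_le_mul hp1.le h2 hlog.le (by linarith)
    linarith
  refine (sum_le_sum h1).trans ?_
  rw [← sum_div]
  have h3 : ∑ p ∈ (Ioc y (2 * y)).filter Nat.Prime, Real.log p ≤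
      Chebyshev.theta ((2 * y : ℕ) : ℝ) := by
    unfold Chebyshev.theta
    rw [Nat.floor_natCast]
    refine sum_le_sum_of_subset_of_nonneg ?_ ?_
    · intro p hp
      rw [mem_filter, mem_Ioc] at hp ⊢
      exact ⟨⟨by omega, hp.1.2⟩, hp.2⟩
    · intro p hp _
      rw [mem_filter, mem_Ioc] at hp
      exact Real.log_nonneg (by exact_mod_cast hp.1.1)
  have h4 := Chebyshev.theta_le_log4_mul_x (x := ((2 * y : ℕ) : ℝ)) (by positivity)
  push_cast at h3 h4
  rw [div_le_div_iff₀ (by positivity) hlog]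
  have h5 : ∑ p ∈ (Ioc y (2 * y)).filter Nat.Prime, Real.log p ≤ Real.log 4 * (2 * y) :=
    h3.trans h4
  calc (∑ p ∈ (Ioc y (2 * y)).filter Nat.Prime, Real.log p) * Real.log y
      ≤ (Real.log 4 * (2 * y)) * Real.log y := by gcongr
    _ = 2 * Real.log 4 * (y * Real.log y) := by ring

lemma sum_blocks (x : ℕ) (hx : 2 ≤ x) (K : ℕ) :
    ∑ p ∈ (Ioc x (2 ^ K * x)).filter Nat.Prime, (1 / (p : ℝ)) ≤
      K * (2 * Real.log 4 / Real.log x) := by
  induction K with
  | zero => simp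
  | succ K ih =>
    have hlog : 0 < Real.log x := Real.log_pos (by exact_mod_cast hx)
    have hsplit : (Ioc x (2 ^ (K + 1) * x)).filter Nat.Prime ⊆
        (Ioc x (2 ^ K * x)).filter Nat.Prime ∪
          (Ioc (2 ^ K * x) (2 * (2 ^ K * x))).filter Nat.Prime := by
      intro p hp
      rw [mem_filter, mem_Ioc] at hp
      rw [mem_union, mem_filter, mem_filter, mem_Ioc, mem_Ioc]
      rcases le_or_gt p (2 ^ K * x) with h | h
      · exact Or.inl ⟨⟨hp.1.1, h⟩, hp.2⟩
      · refine Or.inr ⟨⟨h, ?_⟩, hp.2⟩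
        have : 2 ^ (K + 1) * x = 2 * (2 ^ K * x) := by ring
        omega
    have h1 := sum_le_sum_of_subset_of_nonneg hsplit (f := fun p : ℕ => (1 / (p : ℝ)))
      (fun p _ _ => by positivity)
    have h2 : ∑ p ∈ ((Ioc x (2 ^ K * x)).filter Nat.Prime ∪
        (Ioc (2 ^ K * x) (2 * (2 ^ K * x))).filter Nat.Prime), (1 / (p : ℝ)) ≤
        ∑ p ∈ (Ioc x (2 ^ K * x)).filter Nat.Prime, (1 / (p : ℝ)) +
        ∑ p ∈ (Ioc (2 ^ K * x) (2 * (2 ^ K * x))).filter Nat.Prime, (1 / (p : ℝ)) := by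
      rw [← sum_union_inter]
      have : 0 ≤ ∑ p ∈ ((Ioc x (2 ^ K * x)).filter Nat.Prime ∩
        (Ioc (2 ^ K * x) (2 * (2 ^ K * x))).filter Nat.Prime), (1 / (p : ℝ)) :=
        sum_nonneg fun p _ => by positivity
      linarith
    have hy : 2 ≤ 2 ^ K * x := le_trans hx (Nat.le_mul_of_pos_left _ (by positivity))
    have h3 := sum_dyadic (2 ^ K * x) hy
    have h4 : 2 * Real.log 4 / Real.log ((2 ^ K * x : ℕ) : ℝ) ≤ 2 * Real.log 4 / Real.log x := by
      have hle : Real.log x ≤ Real.log ((2 ^ K * x : ℕ) : ℝ) := by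
        apply Real.log_le_log (by positivity)
        exact_mod_cast Nat.le_mul_of_pos_left _ (by positivity)
      have : 0 ≤ Real.log 4 := Real.log_nonneg (by norm_num)
      gcongr
    push_cast
    calc _ ≤ _ := h1
      _ ≤ _ := h2
      _ ≤ K * (2 * Real.log 4 / Real.log x) + 2 * Real.log 4 / Real.log x :=
          add_le_add ih (h3.trans h4)
      _ = _ := by ring

lemma card_dvd_le (U p : ℕ) :
    (((Ioc 0 U).filter fun n => p ∣ n).card : ℝ) ≤ U * (1 / (p : ℝ)) := by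
  rw [Nat.Ioc_filter_dvd_card_eq_div]
  calc ((U / p : ℕ) : ℝ) ≤ (U : ℝ) / p := Nat.cast_div_le
    _ = _ := by ring

lemma count_big (U x K : ℕ) (hx : 2 ≤ x) (hU : U ≤ 2 ^ K * x) :
    (((Ioc 0 U).filter fun n => ∃ p : ℕ, p.Prime ∧ x < p ∧ p ∣ n).card : ℝ) ≤
      U * (K * (2 * Real.log 4 / Real.log x)) := by
  have hsub : ((Ioc 0 U).filter fun n => ∃ p : ℕ, p.Prime ∧ x < p ∧ p ∣ n) ⊆
      ((Ioc x (2 ^ K * x)).filter Nat.Prime).biUnion fun p => (Ioc 0 U).filter fun n => p ∣ n := by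
    intro n hn
    rw [mem_filter, mem_Ioc] at hn
    obtain ⟨⟨h0, h1⟩, p, hp, hxp, hpn⟩ := hn
    rw [mem_biUnion]
    refine ⟨p, ?_, ?_⟩
    · rw [mem_filter, mem_Ioc]
      exact ⟨⟨hxp, (Nat.le_of_dvd h0 hpn).trans (h1.trans hU)⟩, hp⟩
    · rw [mem_filter, mem_Ioc]
      exact ⟨⟨h0, h1⟩, hpn⟩
  have h1 := card_le_card hsub
  have h2 := h1.trans card_biUnion_le
  have h3 : (((Ioc 0 U).filter fun n => ∃ p : ℕ, p.Prime ∧ x < p ∧ p ∣ n).card : ℝ) ≤
      ∑ p ∈ (Ioc x (2 ^ K * x)).filter Nat.Prime,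
        (((Ioc 0 U).filter fun n => p ∣ n).card : ℝ) := by exact_mod_cast h2
  refine h3.trans ((sum_le_sum fun p _ => card_dvd_le U p).trans ?_)
  rw [← mul_sum]
  exact mul_le_mul_of_nonneg_left (sum_blocks x hx K) (by positivity)

/-- the reciprocals of the primes up to `2 ^ K` -/
lemma recip_small (K : ℕ) :
    ∑ p ∈ (Ioc 0 (2 ^ (K + 1))).filter Nat.Prime, (1 / (p : ℝ)) ≤ 1 / 2 + 4 * harmonic K := by
  induction K with
  | zero =>
    have : (Ioc 0 (2 ^ (0 + 1))).filter Nat.Prime = {2} := by decide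
    rw [this]
    simp
  | succ K ih =>
    have hsplit : (Ioc 0 (2 ^ (K + 1 + 1))).filter Nat.Prime =
        (Ioc 0 (2 ^ (K + 1))).filter Nat.Prime ∪
          (Ioc (2 ^ (K + 1)) (2 * 2 ^ (K + 1))).filter Nat.Prime := by
      have : 2 ^ (K + 1 + 1) = 2 * 2 ^ (K + 1) := by ring
      rw [this, ← filter_union, Ioc_union_Ioc_eq_Ioc (by positivity) (by omega)]
    have hdisj : Disjoint ((Ioc 0 (2 ^ (K + 1))).filter Nat.Prime)
        ((Ioc (2 ^ (K + 1)) (2 * 2 ^ (K + 1))).filter Nat.Prime) := by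
      rw [disjoint_left]
      intro p hp hq
      rw [mem_filter, mem_Ioc] at hp hq
      omega
    rw [hsplit, sum_union hdisj]
    have h1 := sum_dyadic (2 ^ (K + 1)) (by
      calc 2 = 2 ^ 1 := by norm_num
        _ ≤ 2 ^ (K + 1) := Nat.pow_le_pow_right (by norm_num) (by omega))
    have hlog2 : 0 < Real.log 2 := Real.log_pos (by norm_num)
    have h2 : 2 * Real.log 4 / Real.log ((2 ^ (K + 1) : ℕ) : ℝ) = 4 / ((K : ℝ) + 1) := by
      have h4 : Real.log 4 = 2 * Real.log 2 := by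
        rw [show (4:ℝ) = 2 ^ 2 by norm_num, Real.log_pow]
        norm_num
      push_cast
      rw [h4, Real.log_pow]
      push_cast
      have : (0:ℝ) < (K:ℝ) + 1 := by positivity
      field_simp
      ring
    rw [h2] at h1
    rw [harmonic_succ]
    push_cast
    have : (4:ℝ) * (((K:ℝ) + 1)⁻¹) = 4 / ((K:ℝ) + 1) := by rw [div_eq_mul_inv]
    linarith

/-- the completely multiplicative function `n ^ (-σ)` -/
noncomputable def pw (σ : ℝ) : ℕ →* ℝ where
  toFun n := (n : ℝ) ^ (-σ)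
  map_one' := by simp
  map_mul' m n := by
    push_cast
    exact Real.mul_rpow (by positivity) (by positivity)

lemma pw_apply (σ : ℝ) (n : ℕ) : pw σ n = (n : ℝ) ^ (-σ) := rfl

lemma pw_lt_one {σ : ℝ} (hσ : 0 < σ) {p : ℕ} (hp : p.Prime) : ‖pw σ p‖ < 1 := by
  rw [pw_apply, Real.norm_of_nonneg (by positivity)]
  exact Real.rpow_lt_one_of_one_lt_of_neg (by exact_mod_cast hp.one_lt) (by linarith)

/-- finite sums of `n ^ (-σ)` over numbers composed of primes of `P` -/
lemma sum_pw_le (P : Finset ℕ) (hP : ∀ p ∈ P, p.Prime) {σ : ℝ} (hσ : 0 < σ) (S : Finset ℕ)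
    (hS : ∀ n ∈ S, n ≠ 0 ∧ ∀ p, p.Prime → p ∣ n → p ∈ P) :
    ∑ n ∈ S, (n : ℝ) ^ (-σ) ≤ ∏ p ∈ P, (1 - (p : ℝ) ^ (-σ))⁻¹ := by
  obtain ⟨-, hsum⟩ := EulerProduct.summable_and_hasSum_factoredNumbers_prod_filter_prime_geometric
    (f := pw σ) (fun {p} hp => pw_lt_one hσ hp) P
  have hfilter : P.filter Nat.Prime = P := filter_true_of_mem hP
  rw [hfilter] at hsum
  have hmem : ∀ n ∈ S, n ∈ Nat.factoredNumbers P := fun n hn => by
    rw [Nat.mem_factoredNumbers']
    exact fun p hp hpn => (hS n hn).2 p hp hpn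
  have h1 := sum_le_hasSum (S.subtype (· ∈ Nat.factoredNumbers P))
    (fun m _ => by rw [pw_apply]; positivity) hsum
  rw [Finset.sum_subtype_of_mem (fun n => pw σ n) hmem] at h1
  exact h1

lemma rankin (P : Finset ℕ) (hP : ∀ p ∈ P, p.Prime) {σ : ℝ} (hσ : 0 < σ) (U : ℕ) :
    (((Ioc 0 U).filter fun n => ∀ p : ℕ, p.Prime → p ∣ n → p ∈ P).card : ℝ) ≤
      (U : ℝ) ^ σ * ∏ p ∈ P, (1 - (p : ℝ) ^ (-σ))⁻¹ := by
  set S := (Ioc 0 U).filter fun n => ∀ p : ℕ, p.Prime → p ∣ n → p ∈ P with hS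
  have h1 := sum_pw_le P hP hσ S (fun n hn => by
    rw [hS, mem_filter, mem_Ioc] at hn
    exact ⟨by omega, hn.2⟩)
  have h2 : (S.card : ℝ) ≤ (U : ℝ) ^ σ * ∑ n ∈ S, (n : ℝ) ^ (-σ) := by
    rw [mul_sum, card_eq_sum_ones]
    push_cast
    refine sum_le_sum fun n hn => ?_
    rw [hS, mem_filter, mem_Ioc] at hn
    have hn0 : (0:ℝ) < n := by exact_mod_cast hn.1.1
    have hnU : (n:ℝ) ≤ U := by exact_mod_cast hn.1.2
    rw [Real.rpow_neg hn0.le, ← div_eq_mul_inv, le_div_iff₀ (by positivity), one_mul]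
    exact Real.rpow_le_rpow hn0.le hnU hσ.le
  exact h2.trans (mul_le_mul_of_nonneg_left h1 (by positivity))

lemma inv_one_sub_le {y : ℝ} (h0 : 0 ≤ y) (h1 : y ≤ 3 / 4) : (1 - y)⁻¹ ≤ Real.exp (4 * y) := by
  have h2 := Real.quadratic_le_exp_of_nonneg (show 0 ≤ 4 * y by linarith)
  refine le_trans ?_ h2
  rw [inv_le_iff_one_le_mul₀ (by linarith)]
  nlinarith [mul_nonneg h0 h0, mul_nonneg h0 (mul_nonneg h0 h0), mul_nonneg h0 (sub_nonneg.2 h1)]

/-- smooth numbers are rare -/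
lemma smooth_count (z U : ℕ) (hz : 8 ≤ z) (hU : 0 < U) :
    (((Ioc 0 U).filter fun n => ∀ p : ℕ, p.Prime → p ∣ n → p ≤ z).card : ℝ) ≤
      U * Real.exp (- (Real.log U / Real.log z)) *
        Real.exp (11 * ∑ p ∈ (Ioc 0 z).filter Nat.Prime, (1 / (p : ℝ))) := by
  set P := (Ioc 0 z).filter Nat.Prime with hPdef
  have hP : ∀ p ∈ P, p.Prime := fun p hp => (mem_filter.1 hp).2
  have hz0 : (0:ℝ) < z := by positivity
  have hlz : 2 ≤ Real.log z := by
    have h8 : Real.log 8 ≤ Real.log z := Real.log_le_log (by norm_num) (by exact_mod_cast hz)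
    have h2 : (2:ℝ) ≤ Real.log 8 := by
      rw [Real.le_log_iff_exp_le (by norm_num)]
      have := Real.exp_one_lt_d9
      have h3 : Real.exp 2 = Real.exp 1 * Real.exp 1 := by rw [← Real.exp_add]; norm_num
      rw [h3]
      nlinarith [Real.exp_pos 1]
    linarith
  set σ : ℝ := 1 - 1 / Real.log z with hσdef
  have hinv : 1 / Real.log z ≤ 1 / 2 := by
    apply one_div_le_one_div_of_le (by norm_num) hlz
  have hσ : 1 / 2 ≤ σ := by rw [hσdef]; linarith
  have hσ0 : 0 < σ := by linarith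
  have h1 := rankin P hP hσ0 U
  have heq : ((Ioc 0 U).filter fun n => ∀ p : ℕ, p.Prime → p ∣ n → p ≤ z) =
      ((Ioc 0 U).filter fun n => ∀ p : ℕ, p.Prime → p ∣ n → p ∈ P) := by
    apply filter_congr
    intro n _
    constructor
    · intro h p hp hpn
      rw [hPdef, mem_filter, mem_Ioc]
      exact ⟨⟨hp.pos, h p hp hpn⟩, hp⟩
    · intro h p hp hpn
      have := h p hp hpn
      rw [hPdef, mem_filter, mem_Ioc] at this
      exact this.1.2
  rw [heq]
  refine h1.trans ?_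
  have hU0 : (0:ℝ) < U := by exact_mod_cast hU
  have h2 : (U : ℝ) ^ σ = U * Real.exp (- (Real.log U / Real.log z)) := by
    rw [hσdef, Real.rpow_sub hU0, Real.rpow_one, Real.exp_neg, Real.rpow_def_of_pos hU0]
    rw [div_eq_mul_inv, mul_one_div]
  rw [h2]
  apply mul_le_mul_of_nonneg_left _ (by positivity)
  rw [mul_sum, Real.exp_sum]
  refine prod_le_prod ?_ ?_
  · intro p hp
    have hp' := hP p hp
    have := pw_lt_one hσ0 hp'
    rw [pw_apply, Real.norm_of_nonneg (by positivity)] at this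
    exact inv_nonneg.2 (by linarith)
  · intro p hp
    have hp' := hP p hp
    have hp2 : (2:ℝ) ≤ p := by exact_mod_cast hp'.two_le
    have hp0 : (0:ℝ) < p := by linarith
    have hpz : (p:ℝ) ≤ z := by
      rw [hPdef, mem_filter, mem_Ioc] at hp
      exact_mod_cast hp.1.2
    have h3 : (p:ℝ) ^ (-σ) ≤ 3 / 4 := by
      calc (p:ℝ) ^ (-σ) ≤ (p:ℝ) ^ (-(1/2) : ℝ) :=
            Real.rpow_le_rpow_of_exponent_le (by linarith) (by linarith)
        _ ≤ (2:ℝ) ^ (-(1/2) : ℝ) := by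
            apply Real.rpow_le_rpow_of_nonpos (by norm_num) hp2 (by norm_num)
        _ ≤ 3 / 4 := by
            rw [Real.rpow_neg (by norm_num), ← Real.sqrt_eq_rpow, inv_le_comm₀ (by positivity) (by norm_num)]
            rw [show ((3:ℝ)/4)⁻¹ = 4/3 by norm_num]
            apply Real.le_sqrt_of_sq_le
            norm_num
    have h4 : (p:ℝ) ^ (-σ) ≤ Real.exp 1 * (1 / p) := by
      have : (p:ℝ) ^ (-σ) = (p:ℝ) ^ (1 / Real.log z) * (1 / p) := by
        rw [hσdef, show -(1 - 1 / Real.log z) = 1 / Real.log z - 1 by ring, Real.rpow_sub hp0,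
          Real.rpow_one]
        ring
      rw [this]
      apply mul_le_mul_of_nonneg_right _ (by positivity)
      rw [Real.rpow_def_of_pos hp0]
      apply Real.exp_le_exp.2
      rw [mul_one_div, div_le_one (by linarith)]
      exact Real.log_le_log hp0 hpz
    have h5 := inv_one_sub_le (y := (p:ℝ) ^ (-σ)) (by positivity) h3
    refine h5.trans (Real.exp_le_exp.2 ?_)
    have h6 := Real.exp_one_lt_d9
    have h7 : (0:ℝ) ≤ 1 / p := by positivity
    nlinarith

lemma recip_le (z : ℕ) (hz : 8 ≤ z) :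
    ∑ p ∈ (Ioc 0 z).filter Nat.Prime, (1 / (p : ℝ)) ≤ 8 + 4 * Real.log (Real.log z) := by
  have hz0 : (0:ℝ) < z := by positivity
  have hlz : 2 ≤ Real.log z := by
    have h8 : Real.log 8 ≤ Real.log z := Real.log_le_log (by norm_num) (by exact_mod_cast hz)
    have h2 : (2:ℝ) ≤ Real.log 8 := by
      rw [Real.le_log_iff_exp_le (by norm_num)]
      have := Real.exp_one_lt_d9
      have h3 : Real.exp 2 = Real.exp 1 * Real.exp 1 := by rw [← Real.exp_add]; norm_num
      rw [h3]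
      nlinarith [Real.exp_pos 1]
    linarith
  set K := Nat.log 2 z with hK
  have hK1 : z < 2 ^ (K + 1) := Nat.lt_pow_succ_log_self (by norm_num) z
  have hK2 : 2 ^ K ≤ z := Nat.pow_log_le_self 2 (by omega)
  have hKpos : 0 < K := by
    rw [hK]
    exact Nat.log_pos (by norm_num) (by omega)
  have h1 : ∑ p ∈ (Ioc 0 z).filter Nat.Prime, (1 / (p : ℝ)) ≤
      ∑ p ∈ (Ioc 0 (2 ^ (K + 1))).filter Nat.Prime, (1 / (p : ℝ)) := by
    refine sum_le_sum_of_subset_of_nonneg ?_ (fun _ _ _ => by positivity)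
    intro p hp
    rw [mem_filter, mem_Ioc] at hp ⊢
    exact ⟨⟨hp.1.1, by omega⟩, hp.2⟩
  have h2 := recip_small K
  have h3 := harmonic_le_one_add_log K
  have hlog2 : 0.6931471803 < Real.log 2 := Real.log_two_gt_d9
  have hKle : (K:ℝ) ≤ 2 * Real.log z := by
    have h4 : (K:ℝ) * Real.log 2 ≤ Real.log z := by
      rw [← Real.log_pow]
      exact Real.log_le_log (by positivity) (by exact_mod_cast hK2)
    have h5 : (0:ℝ) ≤ K := by positivity
    nlinarith
  have h6 : Real.log K ≤ Real.log (2 * Real.log z) :=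
    Real.log_le_log (by exact_mod_cast hKpos) hKle
  rw [Real.log_mul (by norm_num) (by linarith)] at h6
  have hlog2' : Real.log 2 < 0.6931471808 := Real.log_two_lt_d9
  linarith

/-- greedy choice of residue classes -/
lemma greedy (P : Finset ℕ) (hP : ∀ p ∈ P, 0 < p) (S : Finset ℕ) :
    ∃ r : ℕ → ℕ, ((S.filter fun n => ∀ p ∈ P, n % p ≠ r p).card : ℝ) ≤
      S.card * ∏ p ∈ P, (1 - 1 / (p : ℝ)) := by
  induction P using Finset.induction_on with
  | empty => exact ⟨fun _ => 0, by simp⟩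
  | insert q P hq ih =>
    obtain ⟨r, hr⟩ := ih (fun p hp => hP p (mem_insert_of_mem hp))
    have hq0 : 0 < q := hP q (mem_insert_self _ _)
    have hq0' : (0:ℝ) < q := by exact_mod_cast hq0
    set S' := S.filter fun n => ∀ p ∈ P, n % p ≠ r p with hS'
    have hcount : ∑ a ∈ range q, ((S'.filter fun n => n % q = a).card : ℝ) = S'.card := by
      have := card_eq_sum_card_fiberwise (f := fun n => n % q) (s := S') (t := range q)
        (fun n _ => by simpa using Nat.mod_lt n hq0)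
      exact_mod_cast this.symm
    obtain ⟨a, -, ha⟩ : ∃ a ∈ range q, (S'.card : ℝ) / q ≤
        ((S'.filter fun n => n % q = a).card : ℝ) := by
      apply exists_le_of_sum_le (by simpa using hq0.ne')
      rw [hcount, sum_const, card_range, nsmul_eq_mul]
      exact (mul_div_cancel₀ _ hq0'.ne').le
    refine ⟨fun p => if p = q then a else r p, ?_⟩
    have hsub : (S.filter fun n => ∀ p ∈ insert q P, n % p ≠ if p = q then a else r p) =
        S'.filter fun n => ¬ n % q = a := by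
      ext n
      simp only [mem_filter, hS', mem_insert, forall_eq_or_imp, if_true]
      constructor
      · rintro ⟨h1, h2, h3⟩
        refine ⟨⟨h1, fun p hp => ?_⟩, h2⟩
        have := h3 p hp
        rwa [if_neg (by rintro rfl; exact hq hp)] at this
      · rintro ⟨⟨h1, h3⟩, h2⟩
        refine ⟨h1, h2, fun p hp => ?_⟩
        rw [if_neg (by rintro rfl; exact hq hp)]
        exact h3 p hp
    rw [hsub]
    have hsplit := card_filter_add_card_filter_not (s := S') (fun n => n % q = a)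
    have hsplit' : ((S'.filter fun n => n % q = a).card : ℝ) +
        ((S'.filter fun n => ¬ n % q = a).card : ℝ) = S'.card := by exact_mod_cast hsplit
    rw [prod_insert hq]
    have h1 : ((S'.filter fun n => ¬ n % q = a).card : ℝ) ≤ S'.card * (1 - 1 / (q:ℝ)) := by
      have : (S'.card : ℝ) * (1 - 1 / (q:ℝ)) = S'.card - S'.card / q := by ring
      rw [this]
      linarith
    have h2 : 0 ≤ 1 - 1 / (q:ℝ) := by
      rw [sub_nonneg, div_le_one hq0']
      exact_mod_cast hq0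
    calc _ ≤ _ := h1
      _ ≤ (S.card * ∏ p ∈ P, (1 - 1 / (p : ℝ))) * (1 - 1 / (q:ℝ)) :=
          mul_le_mul_of_nonneg_right hr h2
      _ = _ := by ring

/-- Mertens' product, upper bound -/
lemma prod_le (z : ℕ) (hz : 1 ≤ z) :
    ∏ p ∈ (Ioc 0 z).filter Nat.Prime, (1 - 1 / (p : ℝ)) ≤ 1 / Real.log (z + 1) := by
  set P := (Ioc 0 z).filter Nat.Prime with hPdef
  have hP : ∀ p ∈ P, p.Prime := fun p hp => (mem_filter.1 hp).2
  have h1 := sum_pw_le P hP one_pos (Ioc 0 z) (fun n hn => by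
    rw [mem_Ioc] at hn
    refine ⟨by omega, fun p hp hpn => ?_⟩
    rw [hPdef, mem_filter, mem_Ioc]
    exact ⟨⟨hp.pos, (Nat.le_of_dvd hn.1 hpn).trans hn.2⟩, hp⟩)
  have h2 : ∑ n ∈ Ioc 0 z, (n : ℝ) ^ (-(1:ℝ)) = (harmonic z : ℝ) := by
    rw [harmonic_eq_sum_Icc]
    push_cast
    have : Ioc 0 z = Icc 1 z := by ext; simp [Nat.lt_iff_add_one_le]
    rw [this]
    refine sum_congr rfl fun n _ => ?_
    rw [Real.rpow_neg_one]
  have h3 := log_add_one_le_harmonic z
  rw [h2] at h1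
  have h4 : ∏ p ∈ P, (1 - (p : ℝ) ^ (-(1:ℝ)))⁻¹ = (∏ p ∈ P, (1 - 1 / (p : ℝ)))⁻¹ := by
    rw [prod_inv_distrib]
    congr 1
    refine prod_congr rfl fun p _ => ?_
    rw [Real.rpow_neg_one, one_div]
  rw [h4] at h1
  have hlog : 0 < Real.log ((z:ℝ) + 1) := Real.log_pos (by
    have : (1:ℝ) ≤ z := by exact_mod_cast hz
    linarith)
  have hpos : 0 < ∏ p ∈ P, (1 - 1 / (p : ℝ)) := by
    apply prod_pos
    intro p hp
    have : (2:ℝ) ≤ p := by exact_mod_cast (hP p hp).two_le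
    rw [sub_pos, div_lt_one (by linarith)]
    linarith
  have h5 : Real.log ((z:ℝ) + 1) ≤ (∏ p ∈ P, (1 - 1 / (p : ℝ)))⁻¹ := by
    push_cast at h3
    linarith
  rw [le_div_iff₀ hlog]
  have h6 := mul_le_mul_of_nonneg_left h5 hpos.le
  rwa [mul_inv_cancel₀ hpos.ne'] at h6

lemma prod_excl_le (z : ℕ) (hz : 1 ≤ z) (E : Finset ℕ) (hE : ∀ p ∈ E, p.Prime) :
    ∏ p ∈ ((Ioc 0 z).filter Nat.Prime) \ E, (1 - 1 / (p : ℝ)) ≤
      1 / Real.log (z + 1) * (∏ p ∈ E, (1 - 1 / (p : ℝ)))⁻¹ := by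
  set P := (Ioc 0 z).filter Nat.Prime with hPdef
  have hP : ∀ p ∈ P, p.Prime := fun p hp => (mem_filter.1 hp).2
  have hfac : ∀ p : ℕ, p.Prime → 0 < 1 - 1 / (p:ℝ) ∧ 1 - 1 / (p:ℝ) ≤ 1 := by
    intro p hp
    have : (2:ℝ) ≤ p := by exact_mod_cast hp.two_le
    constructor
    · rw [sub_pos, div_lt_one (by linarith)]
      linarith
    · have : 0 ≤ 1 / (p:ℝ) := by positivity
      linarith
  have h1 := prod_le z hz
  have h2 : (∏ p ∈ P \ E, (1 - 1 / (p : ℝ))) * ∏ p ∈ E, (1 - 1 / (p : ℝ)) ≤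
      ∏ p ∈ P, (1 - 1 / (p : ℝ)) := by
    rw [← prod_union sdiff_disjoint, sdiff_union_self_eq_union]
    have h3 : P ∪ E = P ∪ (E \ P) := by simp
    rw [h3, prod_union disjoint_sdiff]
    have h4 : ∏ p ∈ E \ P, (1 - 1 / (p : ℝ)) ≤ 1 :=
      prod_le_one (fun p hp => (hfac p (hE p (mem_sdiff.1 hp).1)).1.le)
        (fun p hp => (hfac p (hE p (mem_sdiff.1 hp).1)).2)
    have h5 : 0 ≤ ∏ p ∈ P, (1 - 1 / (p : ℝ)) := prod_nonneg fun p hp => (hfac p (hP p hp)).1.le
    calc _ ≤ (∏ p ∈ P, (1 - 1 / (p : ℝ))) * 1 := mul_le_mul_of_nonneg_left h4 h5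
      _ = _ := mul_one _
  have hEpos : 0 < ∏ p ∈ E, (1 - 1 / (p : ℝ)) := prod_pos fun p hp => (hfac p (hE p hp)).1
  rw [← div_eq_mul_inv, le_div_iff₀ hEpos]
  exact h2.trans h1

lemma eventually_L : ∀ᶠ L : ℝ in Filter.atTop,
    100 ≤ L ∧ 1 ≤ Real.log L ∧ Real.sqrt L + Real.log (2 * L) ≤ L / (100 * Real.log L) ∧
      Real.exp 88 ≤ L ^ 5 := by
  have h1 := (isLittleO_log_rpow_atTop (show (0:ℝ) < 1 / 4 by norm_num)).bound one_pos
  have h2 : Filter.Tendsto (fun L : ℝ => L ^ (1 / 4 : ℝ)) Filter.atTop Filter.atTop :=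
    tendsto_rpow_atTop (by norm_num)
  filter_upwards [h1, h2.eventually_ge_atTop 200, Filter.eventually_ge_atTop 100,
    Filter.eventually_ge_atTop (Real.exp 88)] with L h1 h2 h3 h4
  have hL0 : 0 < L := by linarith
  have hlog1 : 1 ≤ Real.log L := by
    rw [Real.le_log_iff_exp_le hL0]
    have := Real.exp_one_lt_d9
    linarith
  refine ⟨h3, hlog1, ?_, ?_⟩
  · set s := L ^ (1 / 4 : ℝ) with hs
    have hs0 : 0 < s := by positivity
    have hs4 : s ^ 4 = L := by
      rw [hs, ← Real.rpow_natCast, ← Real.rpow_mul hL0.le]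
      norm_num
    have hs2 : Real.sqrt L = s ^ 2 := by
      rw [← hs4, show s ^ 4 = (s ^ 2) ^ 2 by ring, Real.sqrt_sq (by positivity)]
    rw [Real.norm_of_nonneg (by linarith), Real.norm_of_nonneg hs0.le, one_mul] at h1
    have h5 : Real.log (2 * L) ≤ 1 + s := by
      rw [Real.log_mul (by norm_num) hL0.ne']
      have := Real.log_two_lt_d9
      linarith
    have h6 : s ^ 3 / 100 ≤ L / (100 * Real.log L) := by
      rw [div_le_div_iff₀ (by norm_num) (by linarith)]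
      have h7 : s ^ 3 * Real.log L ≤ s ^ 3 * s := mul_le_mul_of_nonneg_left h1 (by positivity)
      have h8 : s ^ 3 * s = L := by rw [← hs4]; ring
      nlinarith
    rw [hs2]
    have h9 : s ^ 2 + (1 + s) ≤ s ^ 3 / 100 := by nlinarith [mul_nonneg hs0.le (sub_nonneg.2 h2), mul_nonneg (mul_nonneg hs0.le hs0.le) (sub_nonneg.2 h2)]
    linarith
  · have : L ≤ L ^ 5 := by
      calc L = L ^ 1 := (pow_one L).symm
        _ ≤ L ^ 5 := pow_le_pow_right₀ (by linarith) (by norm_num)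
    linarith

/-- The Erdős–Rankin presieve with a small set `E` of forbidden primes. -/
theorem presieve (ε : ℝ) (hε : 0 < ε) : ∃ c : ℝ, 0 < c ∧ ∃ x₀ : ℕ, ∀ x : ℕ, x₀ ≤ x →
    ∀ E : Finset ℕ, (∀ p ∈ E, p.Prime) → (E.card : ℝ) ≤ Real.exp (Real.sqrt (Real.log x)) →
    ∀ U : ℕ, (U : ℝ) ≤ c * x * Real.log x ^ 2 / Real.log (Real.log x) ^ 2 *
      ∏ p ∈ E, (1 - 1 / (p : ℝ)) →
    ∃ r : ℕ → ℕ, (((Ioc 0 U).filter fun n =>
      ∀ p : ℕ, p.Prime → p ≤ x → p ∉ E → n % p ≠ r p).card : ℝ) ≤ ε * x := by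
  refine ⟨min 1 (ε / 1400), by positivity, ?_⟩
  have hcast : Filter.Tendsto (fun x : ℕ => Real.log (x : ℝ)) Filter.atTop Filter.atTop :=
    Real.tendsto_log_atTop.comp tendsto_natCast_atTop_atTop
  have hsq : Filter.Tendsto (fun x : ℕ => Real.sqrt (x : ℝ)) Filter.atTop Filter.atTop :=
    Real.tendsto_sqrt_atTop.comp tendsto_natCast_atTop_atTop
  obtain ⟨x₀, hx₀⟩ := Filter.eventually_atTop.1 ((hcast.eventually eventually_L).and
    ((hsq.eventually_ge_atTop (1 / ε)).and (Filter.eventually_ge_atTop 2)))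
  refine ⟨x₀, fun x hx E hE hEcard U hU => ?_⟩
  obtain ⟨⟨hL100, hLL1, hLexp, hL5⟩, hxsq, hx2⟩ := hx₀ x hx
  set L := Real.log (x : ℝ) with hL
  set LL := Real.log L with hLL
  have hx0 : (0:ℝ) < x := by positivity
  have hL0 : 0 < L := by linarith
  have hLL0 : 0 < LL := by linarith
  set c := min 1 (ε / 1400) with hc
  have hc0 : 0 < c := by positivity
  have hc1 : c ≤ 1 := min_le_left _ _
  have hc2 : c ≤ ε / 1400 := min_le_right _ _
  have hfac : ∀ p : ℕ, p.Prime → 0 < 1 - 1 / (p:ℝ) ∧ 1 - 1 / (p:ℝ) ≤ 1 := by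
    intro p hp
    have : (2:ℝ) ≤ p := by exact_mod_cast hp.two_le
    constructor
    · rw [sub_pos, div_lt_one (by linarith)]
      linarith
    · have : 0 ≤ 1 / (p:ℝ) := by positivity
      linarith
  set ρ := ∏ p ∈ E, (1 - 1 / (p : ℝ)) with hρ
  have hρ0 : 0 < ρ := prod_pos fun p hp => (hfac p (hE p hp)).1
  have hρ1 : ρ ≤ 1 := prod_le_one (fun p hp => (hfac p (hE p hp)).1.le)
    (fun p hp => (hfac p (hE p hp)).2)
  -- trivial bound
  have htriv : ∀ r : ℕ → ℕ, (((Ioc 0 U).filter fun n =>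
      ∀ p : ℕ, p.Prime → p ≤ x → p ∉ E → n % p ≠ r p).card : ℝ) ≤ U := by
    intro r
    have := card_le_card (filter_subset (fun n =>
      ∀ p : ℕ, p.Prime → p ≤ x → p ∉ E → n % p ≠ r p) (Ioc 0 U))
    rw [Nat.card_Ioc, Nat.sub_zero] at this
    exact_mod_cast this
  by_cases hUs : (U : ℝ) ≤ Real.sqrt x
  · refine ⟨fun _ => 0, (htriv _).trans (hUs.trans ?_)⟩
    have h1 : Real.sqrt x * Real.sqrt x = x := Real.mul_self_sqrt hx0.le
    have h2 : 0 ≤ Real.sqrt x := Real.sqrt_nonneg _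
    rw [div_le_iff₀ hε] at hxsq
    nlinarith
  rw [not_le] at hUs
  have hU0 : (0:ℝ) < U := lt_of_le_of_lt (Real.sqrt_nonneg _) hUs
  have hU0' : 0 < U := by exact_mod_cast hU0
  have hlogU : L / 2 ≤ Real.log U := by
    have h1 := Real.log_le_log (Real.sqrt_pos.2 hx0) hUs.le
    rwa [Real.log_sqrt hx0.le] at h1
  -- the parameter z
  set y := L / (100 * LL) with hy
  have hy3 : Real.sqrt L + Real.log (2 * L) ≤ y := hLexp
  have hsqL : 10 ≤ Real.sqrt L := by
    apply Real.le_sqrt_of_sq_le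
    norm_num
    linarith
  have hlog2L : 0 ≤ Real.log (2 * L) := Real.log_nonneg (by linarith)
  have hy10 : 10 ≤ y := by linarith
  have hyL : y ≤ L := by
    rw [hy, div_le_iff₀ (by positivity)]
    nlinarith
  set z := ⌊Real.exp y⌋₊ with hz
  have hexp8 : (8:ℝ) ≤ Real.exp y := by
    have h1 := Real.add_one_le_exp y
    linarith
  have hz8 : 8 ≤ z := by
    rw [hz]
    exact Nat.le_floor (by exact_mod_cast hexp8)
  have hz0 : (0:ℝ) < z := by positivity
  have hzle : (z:ℝ) ≤ Real.exp y := Nat.floor_le (Real.exp_pos y).le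
  have hzge : Real.exp y < z + 1 := Nat.lt_floor_add_one _
  have hlogz : Real.log z ≤ y := by
    rw [Real.log_le_iff_le_exp hz0]
    exact hzle
  have hlogz1 : y ≤ Real.log (z + 1) := by
    rw [Real.le_log_iff_exp_le (by linarith)]
    exact hzge.le
  have hlogzpos : 0 < Real.log z := Real.log_pos (by
    have : (8:ℝ) ≤ z := by exact_mod_cast hz8
    linarith)
  -- the number of blocks
  set K := ⌈2 * LL / Real.log 2⌉₊ with hK
  have hlog2 : 0 < Real.log 2 := Real.log_pos (by norm_num)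
  have hlog2' : 0.6931471803 < Real.log 2 := Real.log_two_gt_d9
  have hlog2'' : Real.log 2 < 0.6931471808 := Real.log_two_lt_d9
  have hK1 : 2 * LL / Real.log 2 ≤ K := Nat.le_ceil _
  have hK2 : (K:ℝ) ≤ 4 * LL := by
    have h1 : (K:ℝ) < 2 * LL / Real.log 2 + 1 := Nat.ceil_lt_add_one (by positivity)
    have h2 : 2 * LL / Real.log 2 ≤ 3 * LL := by
      rw [div_le_iff₀ hlog2]
      nlinarith
    linarith
  have hUK : U ≤ 2 ^ K * x := by
    have h1 : L ^ 2 ≤ (2:ℝ) ^ K := by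
      rw [← Real.log_le_log_iff (by positivity) (by positivity), Real.log_pow, Real.log_pow]
      push_cast
      rw [div_le_iff₀ hlog2] at hK1
      exact hK1
    have h2 : (U:ℝ) ≤ L ^ 2 * x := by
      refine hU.trans ?_
      have h3 : c * x * L ^ 2 / LL ^ 2 * ρ ≤ 1 * x * L ^ 2 / 1 * 1 := by
        have : (1:ℝ) ≤ LL ^ 2 := by nlinarith
        gcongr
      linarith
    have h3 : (U:ℝ) ≤ 2 ^ K * x := h2.trans (mul_le_mul_of_nonneg_right h1 hx0.le)
    exact_mod_cast h3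
  -- the set surviving the medium primes
  set S := (Ioc 0 U).filter fun n => ∀ p : ℕ, p.Prime → z < p → p ≤ x → p ∉ E → ¬ p ∣ n with hS
  obtain ⟨r, hr⟩ := greedy (((Ioc 0 z).filter Nat.Prime) \ E) (fun p hp => by
    rw [mem_sdiff, mem_filter] at hp
    exact hp.1.2.pos) S
  refine ⟨fun p => if p ≤ z then r p else 0, ?_⟩
  have hzx : z ≤ x := by
    have h1 : (z:ℝ) ≤ x := by
      refine hzle.trans ?_
      rw [← Real.exp_log hx0]
      exact Real.exp_le_exp.2 hyL
    exact_mod_cast h1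
  have hsub : ((Ioc 0 U).filter fun n =>
      ∀ p : ℕ, p.Prime → p ≤ x → p ∉ E → n % p ≠ if p ≤ z then r p else 0).card ≤
      (S.filter fun n => ∀ p ∈ ((Ioc 0 z).filter Nat.Prime) \ E, n % p ≠ r p).card := by
    apply card_le_card
    intro n hn
    rw [mem_filter] at hn
    refine (@Finset.mem_filter _ _ (_) _ _).2 ⟨mem_filter.2
      ⟨hn.1, fun p hp hzp hpx hpE hpn => ?_⟩, fun p hp => ?_⟩
    · have := hn.2 p hp hpx hpE
      rw [if_neg (by omega)] at this
      exact this (Nat.mod_eq_zero_of_dvd hpn)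
    · rw [mem_sdiff, mem_filter, mem_Ioc] at hp
      have := hn.2 p hp.1.2 (hp.1.1.2.trans hzx) hp.2
      rwa [if_pos hp.1.1.2] at this
  -- the size of S
  have hcover : S ⊆ ((Ioc 0 U).filter fun n => ∃ p : ℕ, p.Prime ∧ x < p ∧ p ∣ n) ∪
      ((E.filter fun p => z < p).biUnion fun p => (Ioc 0 U).filter fun n => p ∣ n) ∪
      ((Ioc 0 U).filter fun n => ∀ p : ℕ, p.Prime → p ∣ n → p ≤ z) := by
    intro n hn
    rw [hS, mem_filter] at hn
    rw [mem_union, mem_union, mem_filter, mem_filter, mem_biUnion]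
    by_cases h1 : ∃ p : ℕ, p.Prime ∧ x < p ∧ p ∣ n
    · exact Or.inl (Or.inl ⟨hn.1, h1⟩)
    · by_cases h2 : ∀ p : ℕ, p.Prime → p ∣ n → p ≤ z
      · exact Or.inr ⟨hn.1, h2⟩
      · left; right
        push Not at h1 h2
        obtain ⟨p, hp, hpn, hzp⟩ := h2
        have hpx : p ≤ x := by
          by_contra hcon
          exact h1 p hp (by omega) hpn
        have hpE : p ∈ E := by
          by_contra hcon
          exact hn.2 p hp hzp hpx hcon hpn
        refine ⟨p, ?_, ?_⟩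
        · rw [mem_filter]; exact ⟨hpE, hzp⟩
        · rw [mem_filter]; exact ⟨hn.1, hpn⟩
  have hA := count_big U x K hx2 hUK
  have hB : (((E.filter fun p => z < p).biUnion fun p =>
      (Ioc 0 U).filter fun n => p ∣ n).card : ℝ) ≤ E.card * (U * (1 / (z:ℝ))) := by
    have h1 : ((E.filter fun p => z < p).biUnion fun p =>
      (Ioc 0 U).filter fun n => p ∣ n).card ≤ ∑ p ∈ E.filter fun p => z < p,
        ((Ioc 0 U).filter fun n => p ∣ n).card := card_biUnion_le
    have h2 : (((E.filter fun p => z < p).biUnion fun p =>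
      (Ioc 0 U).filter fun n => p ∣ n).card : ℝ) ≤ ∑ p ∈ E.filter fun p => z < p,
        (((Ioc 0 U).filter fun n => p ∣ n).card : ℝ) := by exact_mod_cast h1
    have h3 : ∀ p ∈ E.filter fun p => z < p,
        (((Ioc 0 U).filter fun n => p ∣ n).card : ℝ) ≤ U * (1 / (z:ℝ)) := by
      intro p hp
      rw [mem_filter] at hp
      refine (card_dvd_le U p).trans ?_
      apply mul_le_mul_of_nonneg_left _ hU0.le
      apply one_div_le_one_div_of_le hz0
      exact_mod_cast hp.2.le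
    refine h2.trans ((sum_le_sum h3).trans ?_)
    rw [sum_const, nsmul_eq_mul]
    apply mul_le_mul_of_nonneg_right _ (by positivity)
    exact_mod_cast card_le_card (filter_subset _ _)
  have hC := smooth_count z U hz8 hU0'
  have hD := recip_le z hz8
  -- bounds for the three pieces
  have hlog4 : Real.log 4 < 1.3863 := by
    rw [show (4:ℝ) = 2 ^ 2 by norm_num, Real.log_pow]
    push_cast
    linarith
  have hlog4' : 0 < Real.log 4 := Real.log_pos (by norm_num)
  have hA' : (K:ℝ) * (2 * Real.log 4 / Real.log x) ≤ 12 * LL / L := by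
    rw [← hL, ← mul_div_assoc]
    apply div_le_div_of_nonneg_right _ hL0.le
    have : (0:ℝ) ≤ K := by positivity
    nlinarith
  have hB' : (E.card : ℝ) * (1 / (z:ℝ)) ≤ LL / L := by
    have h1 : Real.exp y ≤ 2 * z := by
      have : (8:ℝ) ≤ z := by exact_mod_cast hz8
      linarith
    have h2 : Real.exp (Real.sqrt L) * (2 * L) ≤ Real.exp y := by
      have : Real.exp (Real.sqrt L + Real.log (2 * L)) = Real.exp (Real.sqrt L) * (2 * L) := by
        rw [Real.exp_add, Real.exp_log (by positivity)]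
      rw [← this]
      exact Real.exp_le_exp.2 hy3
    rw [mul_one_div, div_le_div_iff₀ hz0 hL0]
    have h3 : (E.card : ℝ) * L ≤ z := by
      have h4 : (E.card : ℝ) * L ≤ Real.exp (Real.sqrt L) * L :=
        mul_le_mul_of_nonneg_right hEcard hL0.le
      linarith
    nlinarith
  have hC' : Real.exp (- (Real.log U / Real.log z)) *
        Real.exp (11 * ∑ p ∈ (Ioc 0 z).filter Nat.Prime, (1 / (p : ℝ))) ≤ LL / L := by
    rw [← Real.exp_add]
    have h1 : 50 * LL ≤ Real.log U / Real.log z := by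
      rw [le_div_iff₀ hlogzpos]
      calc 50 * LL * Real.log z ≤ 50 * LL * y := by gcongr
        _ = L / 2 := by
            rw [hy]
            field_simp
            ring
        _ ≤ _ := hlogU
    have h2 : Real.log (Real.log z) ≤ LL := by
      apply Real.log_le_log hlogzpos
      linarith
    have h3 : -(Real.log U / Real.log z) + 11 * ∑ p ∈ (Ioc 0 z).filter Nat.Prime, (1 / (p : ℝ)) ≤
        88 - 6 * LL := by linarith
    refine (Real.exp_le_exp.2 h3).trans ?_
    rw [Real.exp_sub]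
    have h4 : Real.exp (6 * LL) = L ^ 6 := by
      rw [show (6:ℝ) * LL = ((6:ℕ):ℝ) * LL by norm_num, Real.exp_nat_mul, hLL,
        Real.exp_log hL0]
    rw [h4, div_le_div_iff₀ (by positivity) hL0]
    have h5 : Real.exp 88 * L ≤ L ^ 5 * L := mul_le_mul_of_nonneg_right hL5 hL0.le
    have h6 : 0 < L ^ 6 := by positivity
    have h7 : L ^ 5 * L = L ^ 6 := by ring
    nlinarith
  have hScard : (S.card : ℝ) ≤ U * (14 * LL / L) := by
    have h1 := card_le_card hcover
    have h2 := h1.trans ((card_union_le _ _).trans (Nat.add_le_add_right (card_union_le _ _) _))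
    have h3 : (S.card : ℝ) ≤
        (((Ioc 0 U).filter fun n => ∃ p : ℕ, p.Prime ∧ x < p ∧ p ∣ n).card : ℝ) +
        (((E.filter fun p => z < p).biUnion fun p =>
          (Ioc 0 U).filter fun n => p ∣ n).card : ℝ) +
        (((Ioc 0 U).filter fun n => ∀ p : ℕ, p.Prime → p ∣ n → p ≤ z).card : ℝ) := by
      exact_mod_cast h2
    have h4 : (U:ℝ) * (K * (2 * Real.log 4 / Real.log x)) ≤ U * (12 * LL / L) :=
      mul_le_mul_of_nonneg_left hA' hU0.le
    have h5 : (E.card : ℝ) * (U * (1 / (z:ℝ))) ≤ U * (LL / L) := by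
      calc (E.card : ℝ) * (U * (1 / (z:ℝ))) = U * (E.card * (1 / (z:ℝ))) := by ring
        _ ≤ _ := mul_le_mul_of_nonneg_left hB' hU0.le
    have h6 : (U:ℝ) * Real.exp (- (Real.log U / Real.log z)) *
        Real.exp (11 * ∑ p ∈ (Ioc 0 z).filter Nat.Prime, (1 / (p : ℝ))) ≤ U * (LL / L) := by
      rw [mul_assoc]
      exact mul_le_mul_of_nonneg_left hC' hU0.le
    have h7 : (U:ℝ) * (14 * LL / L) = U * (12 * LL / L) + U * (LL / L) + U * (LL / L) := by ring
    rw [h7]
    linarith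
  -- conclusion
  have hprod := prod_excl_le z (by omega) E hE
  have hprod' : ∏ p ∈ ((Ioc 0 z).filter Nat.Prime) \ E, (1 - 1 / (p : ℝ)) ≤
      100 * LL / L * ρ⁻¹ := by
    refine hprod.trans ?_
    apply mul_le_mul_of_nonneg_right _ (inv_nonneg.2 hρ0.le)
    have h1 : 1 / Real.log ((z:ℝ) + 1) ≤ 1 / y := one_div_le_one_div_of_le (by linarith) hlogz1
    refine h1.trans (le_of_eq ?_)
    rw [hy, one_div_div]
  have hfin : (((Ioc 0 U).filter fun n =>
      ∀ p : ℕ, p.Prime → p ≤ x → p ∉ E → n % p ≠ if p ≤ z then r p else 0).card : ℝ) ≤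
      S.card * ∏ p ∈ ((Ioc 0 z).filter Nat.Prime) \ E, (1 - 1 / (p : ℝ)) := by
    have hsub' : (((Ioc 0 U).filter fun n =>
      ∀ p : ℕ, p.Prime → p ≤ x → p ∉ E → n % p ≠ if p ≤ z then r p else 0).card : ℝ) ≤
      ((S.filter fun n => ∀ p ∈ ((Ioc 0 z).filter Nat.Prime) \ E, n % p ≠ r p).card : ℝ) := by
      exact_mod_cast hsub
    refine hsub'.trans (le_trans (le_of_eq ?_) hr)
    congr!
  refine hfin.trans ?_
  have hprod0 : 0 ≤ ∏ p ∈ ((Ioc 0 z).filter Nat.Prime) \ E, (1 - 1 / (p : ℝ)) :=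
    prod_nonneg fun p hp => (hfac p (mem_filter.1 (mem_sdiff.1 hp).1).2).1.le
  calc (S.card : ℝ) * ∏ p ∈ ((Ioc 0 z).filter Nat.Prime) \ E, (1 - 1 / (p : ℝ))
      ≤ (U * (14 * LL / L)) * (100 * LL / L * ρ⁻¹) := by
        apply mul_le_mul hScard hprod' hprod0 (by positivity)
    _ = U * (1400 * LL ^ 2 / L ^ 2 * ρ⁻¹) := by ring
    _ ≤ (c * x * L ^ 2 / LL ^ 2 * ρ) * (1400 * LL ^ 2 / L ^ 2 * ρ⁻¹) := by
        apply mul_le_mul_of_nonneg_right hU (by positivity)
    _ = 1400 * c * x := by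
        field_simp
    _ ≤ ε * x := by
        apply mul_le_mul_of_nonneg_right _ hx0.le
        linarith

end Pool.Agent.Presieve
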