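import Mathlib
import Pool.Agent.Lib.GapSieve.Presieve

/-!
# The Erdős–Rankin presieve with Rankin's fourth logarithm

Residue classes modulo the primes up to `x` which leave at most `ε x` elements of an interval of
length `c x (log x)^2 (log log log x) / (log log x)^2`.
-/

open Finset
open scoped Classical

namespace Pool.Agent.Presieve

lemma sum_dyadic_log (y : ℕ) (hy : 1 ≤ y) :
    ∑ p ∈ (Ioc y (2 * y)).filter Nat.Prime, (Real.log p / (p : ℝ)) ≤ 2 * Real.log 4 := by
  have hy0 : (0:ℝ) < y := by positivity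
  have h1 : ∀ p ∈ (Ioc y (2 * y)).filter Nat.Prime,
      (Real.log p / (p : ℝ)) ≤ Real.log p / y := by
    intro p hp
    rw [mem_filter, mem_Ioc] at hp
    have hp1 : (y:ℝ) < p := by exact_mod_cast hp.1.1
    have h2 : 0 ≤ Real.log p := Real.log_nonneg (by exact_mod_cast hp.2.one_lt.le)
    exact div_le_div_of_nonneg_left h2 hy0 hp1.le
  refine (sum_le_sum h1).trans ?_
  rw [← sum_div]
  have h3 : ∑ p ∈ (Ioc y (2 * y)).filter Nat.Prime, Real.log p ≤
      Chebyshev.theta ((2 * y : ℕ) : ℝ) := by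
    unfold Chebyshev.theta
    rw [Nat.floor_natCast]
    refine sum_le_sum_of_subset_of_nonneg ?_ ?_
    · intro p hp
      rw [mem_filter, mem_Ioc] at hp ⊢
      exact ⟨⟨by omega, hp.1.2⟩, hp.2⟩
    · intro p hp _
      rw [mem_filter, mem_Ioc] at hp
      exact Real.log_nonneg (by exact_mod_cast hp.1.1)
  have h4 := Chebyshev.theta_le_log4_mul_x (x := ((2 * y : ℕ) : ℝ)) (by positivity)
  push_cast at h3 h4
  rw [div_le_iff₀ hy0]
  linarith

lemma log_small (K : ℕ) :
    ∑ p ∈ (Ioc 0 (2 ^ K)).filter Nat.Prime, (Real.log p / (p : ℝ)) ≤ 2 * Real.log 4 * K := by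
  induction K with
  | zero =>
    have : (Ioc 0 (2 ^ 0)).filter Nat.Prime = ∅ := by decide
    rw [this]
    simp
  | succ K ih =>
    have hsplit : (Ioc 0 (2 ^ (K + 1))).filter Nat.Prime =
        (Ioc 0 (2 ^ K)).filter Nat.Prime ∪
          (Ioc (2 ^ K) (2 * 2 ^ K)).filter Nat.Prime := by
      have : 2 ^ (K + 1) = 2 * 2 ^ K := by ring
      rw [this, ← filter_union, Ioc_union_Ioc_eq_Ioc (by positivity) (by omega)]
    have hdisj : Disjoint ((Ioc 0 (2 ^ K)).filter Nat.Prime)
        ((Ioc (2 ^ K) (2 * 2 ^ K)).filter Nat.Prime) := by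
      rw [disjoint_left]
      intro p hp hq
      rw [mem_filter, mem_Ioc] at hp hq
      omega
    rw [hsplit, sum_union hdisj]
    have h1 := sum_dyadic_log (2 ^ K) Nat.one_le_two_pow
    push_cast
    linarith

lemma log_le (z : ℕ) (hz : 8 ≤ z) :
    ∑ p ∈ (Ioc 0 z).filter Nat.Prime, (Real.log p / (p : ℝ)) ≤ 6 * Real.log z := by
  have hz0 : (0:ℝ) < z := by positivity
  have hlog2 : 0.6931471803 < Real.log 2 := Real.log_two_gt_d9
  have hlog2' : Real.log 2 < 0.6931471808 := Real.log_two_lt_d9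
  have hlog4 : Real.log 4 = 2 * Real.log 2 := by
    rw [show (4:ℝ) = 2 ^ 2 by norm_num, Real.log_pow]
    norm_num
  have hlog8 : Real.log 8 = 3 * Real.log 2 := by
    rw [show (8:ℝ) = 2 ^ 3 by norm_num, Real.log_pow]
    norm_num
  have hlz : Real.log 8 ≤ Real.log z := Real.log_le_log (by norm_num) (by exact_mod_cast hz)
  set K := Nat.log 2 z with hK
  have hK1 : z < 2 ^ (K + 1) := Nat.lt_pow_succ_log_self (by norm_num) z
  have hK2 : 2 ^ K ≤ z := Nat.pow_log_le_self 2 (by omega)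
  have h1 : ∑ p ∈ (Ioc 0 z).filter Nat.Prime, (Real.log p / (p : ℝ)) ≤
      ∑ p ∈ (Ioc 0 (2 ^ (K + 1))).filter Nat.Prime, (Real.log p / (p : ℝ)) := by
    refine sum_le_sum_of_subset_of_nonneg ?_ (fun p hp _ => ?_)
    · intro p hp
      rw [mem_filter, mem_Ioc] at hp ⊢
      exact ⟨⟨hp.1.1, by omega⟩, hp.2⟩
    · rw [mem_filter, mem_Ioc] at hp
      have : 0 ≤ Real.log p := Real.log_nonneg (by exact_mod_cast hp.2.one_lt.le)
      positivity
  have h2 := log_small (K + 1)
  have hKle : (K:ℝ) * Real.log 2 ≤ Real.log z := by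
    rw [← Real.log_pow]
    exact Real.log_le_log (by positivity) (by exact_mod_cast hK2)
  push_cast at h2
  rw [hlog4] at h2
  nlinarith

lemma exp_sub_one_le {t η : ℝ} (ht : 0 ≤ t) (htη : t ≤ η) (hη : 0 < η) :
    Real.exp t ≤ 1 + t / η * (Real.exp η - 1) := by
  have h := convexOn_exp.2 (Set.mem_univ (0:ℝ)) (Set.mem_univ η)
    (show 0 ≤ 1 - t / η by rw [sub_nonneg, div_le_one hη]; exact htη)
    (show 0 ≤ t / η by positivity) (by ring)
  simp only [smul_eq_mul, mul_zero, zero_add, Real.exp_zero, mul_one] at h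
  have h2 : t / η * η = t := by field_simp
  rw [h2] at h
  linarith

/-- smooth numbers are very rare -/
lemma smooth_count' (z U : ℕ) (η : ℝ) (hη : 0 < η) (hz : 8 ≤ z) (hηz : 2 * η ≤ Real.log z)
    (hU : 0 < U) :
    (((Ioc 0 U).filter fun n => ∀ p : ℕ, p.Prime → p ∣ n → p ≤ z).card : ℝ) ≤
      U * Real.exp (- (η * Real.log U / Real.log z)) *
        Real.exp (4 * ∑ p ∈ (Ioc 0 z).filter Nat.Prime, (1 / (p : ℝ)) + 24 * Real.exp η) := by
  set P := (Ioc 0 z).filter Nat.Prime with hPdef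
  have hP : ∀ p ∈ P, p.Prime := fun p hp => (mem_filter.1 hp).2
  have hz0 : (0:ℝ) < z := by positivity
  have hlz : 0 < Real.log z := by linarith
  set σ : ℝ := 1 - η / Real.log z with hσdef
  have hinv : η / Real.log z ≤ 1 / 2 := by
    rw [div_le_div_iff₀ hlz (by norm_num)]
    linarith
  have hσ : 1 / 2 ≤ σ := by rw [hσdef]; linarith
  have hσ0 : 0 < σ := by linarith
  have h1 := rankin P hP hσ0 U
  have heq : ((Ioc 0 U).filter fun n => ∀ p : ℕ, p.Prime → p ∣ n → p ≤ z) =
      ((Ioc 0 U).filter fun n => ∀ p : ℕ, p.Prime → p ∣ n → p ∈ P) := by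
    apply filter_congr
    intro n _
    constructor
    · intro h p hp hpn
      rw [hPdef, mem_filter, mem_Ioc]
      exact ⟨⟨hp.pos, h p hp hpn⟩, hp⟩
    · intro h p hp hpn
      have := h p hp hpn
      rw [hPdef, mem_filter, mem_Ioc] at this
      exact this.1.2
  rw [heq]
  refine h1.trans ?_
  have hU0 : (0:ℝ) < U := by exact_mod_cast hU
  have h2 : (U : ℝ) ^ σ = U * Real.exp (- (η * Real.log U / Real.log z)) := by
    rw [hσdef, Real.rpow_sub hU0, Real.rpow_one, Real.exp_neg, Real.rpow_def_of_pos hU0]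
    rw [div_eq_mul_inv]
    congr 3
    ring
  rw [h2]
  apply mul_le_mul_of_nonneg_left _ (by positivity)
  have hpt : ∀ p ∈ P, (1 - (p:ℝ) ^ (-σ))⁻¹ ≤
      Real.exp (4 * (1 / (p:ℝ)) + 4 * (Real.exp η - 1) / Real.log z * (Real.log p / p)) := by
    intro p hp
    have hp' := hP p hp
    have hp2 : (2:ℝ) ≤ p := by exact_mod_cast hp'.two_le
    have hp0 : (0:ℝ) < p := by linarith
    have hpz : (p:ℝ) ≤ z := by
      rw [hPdef, mem_filter, mem_Ioc] at hp
      exact_mod_cast hp.1.2
    have hlp : 0 ≤ Real.log p := Real.log_nonneg (by linarith)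
    have hlpz : Real.log p ≤ Real.log z := Real.log_le_log hp0 hpz
    have h3 : (p:ℝ) ^ (-σ) ≤ 3 / 4 := by
      calc (p:ℝ) ^ (-σ) ≤ (p:ℝ) ^ (-(1/2) : ℝ) :=
            Real.rpow_le_rpow_of_exponent_le (by linarith) (by linarith)
        _ ≤ (2:ℝ) ^ (-(1/2) : ℝ) := by
            apply Real.rpow_le_rpow_of_nonpos (by norm_num) hp2 (by norm_num)
        _ ≤ 3 / 4 := by
            rw [Real.rpow_neg (by norm_num), ← Real.sqrt_eq_rpow, inv_le_comm₀ (by positivity) (by norm_num)]
            rw [show ((3:ℝ)/4)⁻¹ = 4/3 by norm_num]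
            apply Real.le_sqrt_of_sq_le
            norm_num
    have h4 : (p:ℝ) ^ (-σ) ≤
        (1 / (p:ℝ)) + (Real.exp η - 1) / Real.log z * (Real.log p / p) := by
      have : (p:ℝ) ^ (-σ) = (p:ℝ) ^ (η / Real.log z) * (1 / p) := by
        rw [hσdef, show -(1 - η / Real.log z) = η / Real.log z - 1 by ring, Real.rpow_sub hp0,
          Real.rpow_one]
        ring
      rw [this, Real.rpow_def_of_pos hp0]
      have ht : Real.log p * (η / Real.log z) ≤ η := by
        rw [← mul_div_assoc, div_le_iff₀ hlz]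
        nlinarith
      have ht0 : 0 ≤ Real.log p * (η / Real.log z) := by positivity
      have h5 := exp_sub_one_le ht0 ht hη
      have h6 : Real.log p * (η / Real.log z) / η = Real.log p / Real.log z := by
        field_simp
      rw [h6] at h5
      calc Real.exp (Real.log p * (η / Real.log z)) * (1 / p)
          ≤ (1 + Real.log p / Real.log z * (Real.exp η - 1)) * (1 / p) :=
            mul_le_mul_of_nonneg_right h5 (by positivity)
        _ = _ := by ring
    have h5 := inv_one_sub_le (y := (p:ℝ) ^ (-σ)) (by positivity) h3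
    refine h5.trans (Real.exp_le_exp.2 ?_)
    have h6 : 4 * (Real.exp η - 1) / Real.log z * (Real.log p / p) =
      4 * ((Real.exp η - 1) / Real.log z * (Real.log p / p)) := by ring
    rw [h6]
    linarith
  have hprod : ∏ p ∈ P, (1 - (p:ℝ) ^ (-σ))⁻¹ ≤ ∏ p ∈ P,
      Real.exp (4 * (1 / (p:ℝ)) + 4 * (Real.exp η - 1) / Real.log z * (Real.log p / p)) := by
    refine prod_le_prod ?_ hpt
    intro p hp
    have := pw_lt_one hσ0 (hP p hp)
    rw [pw_apply, Real.norm_of_nonneg (by positivity)] at this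
    exact inv_nonneg.2 (by linarith)
  refine hprod.trans ?_
  rw [← Real.exp_sum, sum_add_distrib, ← mul_sum, ← mul_sum]
  apply Real.exp_le_exp.2
  have h7 := log_le z hz
  have h8 : 1 ≤ Real.exp η := Real.one_le_exp hη.le
  have h9 : 4 * (Real.exp η - 1) / Real.log z * ∑ p ∈ P, (Real.log p / (p:ℝ)) ≤
      24 * Real.exp η := by
    calc 4 * (Real.exp η - 1) / Real.log z * ∑ p ∈ P, (Real.log p / (p:ℝ))
        ≤ 4 * (Real.exp η - 1) / Real.log z * (6 * Real.log z) := by
          apply mul_le_mul_of_nonneg_left h7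
          have : 0 ≤ Real.exp η - 1 := by linarith
          positivity
      _ = 24 * (Real.exp η - 1) := by
          field_simp
          ring
      _ ≤ _ := by linarith
  linarith

lemma eventually_L' : ∀ᶠ L : ℝ in Filter.atTop,
    100 ≤ L ∧ 1 ≤ Real.log L ∧ 1 ≤ Real.log (Real.log L) ∧
      Real.sqrt L + Real.log (2 * L) ≤ L / (400 * Real.log L) ∧
      32 + 24 * Real.sqrt (Real.log L) ≤ 10 * Real.log L := by
  have h1 := (isLittleO_log_rpow_atTop (show (0:ℝ) < 1 / 4 by norm_num)).bound one_pos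
  have h2 : Filter.Tendsto (fun L : ℝ => L ^ (1 / 4 : ℝ)) Filter.atTop Filter.atTop :=
    tendsto_rpow_atTop (by norm_num)
  filter_upwards [h1, h2.eventually_ge_atTop 800, Filter.eventually_ge_atTop 100,
    Filter.eventually_ge_atTop (Real.exp (Real.exp 1)),
    Filter.eventually_ge_atTop (Real.exp 16)] with L h1 h2 h3 h4 h4'
  have hL0 : 0 < L := by linarith
  have hlog16 : 16 ≤ Real.log L := (Real.le_log_iff_exp_le hL0).2 h4'
  have hlog1 : 1 ≤ Real.log L := by linarith
  have hlog0 : 0 < Real.log L := by linarith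
  refine ⟨h3, hlog1, ?_, ?_, ?_⟩
  · rw [Real.le_log_iff_exp_le hlog0, Real.le_log_iff_exp_le hL0]
    exact h4
  · set s := L ^ (1 / 4 : ℝ) with hs
    have hs0 : 0 < s := by positivity
    have hs4 : s ^ 4 = L := by
      rw [hs, ← Real.rpow_natCast, ← Real.rpow_mul hL0.le]
      norm_num
    have hs2 : Real.sqrt L = s ^ 2 := by
      rw [← hs4, show s ^ 4 = (s ^ 2) ^ 2 by ring, Real.sqrt_sq (by positivity)]
    rw [Real.norm_of_nonneg (by linarith), Real.norm_of_nonneg hs0.le, one_mul] at h1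
    have h5 : Real.log (2 * L) ≤ 1 + s := by
      rw [Real.log_mul (by norm_num) hL0.ne']
      have := Real.log_two_lt_d9
      linarith
    have h6 : s ^ 3 / 400 ≤ L / (400 * Real.log L) := by
      rw [div_le_div_iff₀ (by norm_num) (by linarith)]
      have h7 : s ^ 3 * Real.log L ≤ s ^ 3 * s := mul_le_mul_of_nonneg_left h1 (by positivity)
      have h8 : s ^ 3 * s = L := by rw [← hs4]; ring
      nlinarith
    rw [hs2]
    have h9 : s ^ 2 + (1 + s) ≤ s ^ 3 / 400 := by nlinarith [mul_nonneg hs0.le (sub_nonneg.2 h2), mul_nonneg (mul_nonneg hs0.le hs0.le) (sub_nonneg.2 h2)]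
    linarith
  · set w := Real.sqrt (Real.log L) with hw
    have hw2 : w * w = Real.log L := Real.mul_self_sqrt hlog0.le
    have hw4 : 4 ≤ w := Real.le_sqrt_of_sq_le (by norm_num; exact hlog16)
    rw [← hw2]
    nlinarith

/-- The Erdős–Rankin presieve with a small set `E` of forbidden primes, with Rankin's
fourth logarithm. -/
theorem presieve4 (ε : ℝ) (hε : 0 < ε) : ∃ c : ℝ, 0 < c ∧ ∃ x₀ : ℕ, ∀ x : ℕ, x₀ ≤ x →
    ∀ E : Finset ℕ, (∀ p ∈ E, p.Prime) → (E.card : ℝ) ≤ Real.exp (Real.sqrt (Real.log x)) →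
    ∀ U : ℕ, (U : ℝ) ≤ c * x * Real.log x ^ 2 * Real.log (Real.log (Real.log x)) /
      Real.log (Real.log x) ^ 2 * ∏ p ∈ E, (1 - 1 / (p : ℝ)) →
    ∃ r : ℕ → ℕ, (((Ioc 0 U).filter fun n =>
      ∀ p : ℕ, p.Prime → p ≤ x → p ∉ E → n % p ≠ r p).card : ℝ) ≤ ε * x := by
  refine ⟨min 1 (ε / 5600), by positivity, ?_⟩
  have hcast : Filter.Tendsto (fun x : ℕ => Real.log (x : ℝ)) Filter.atTop Filter.atTop :=
    Real.tendsto_log_atTop.comp tendsto_natCast_atTop_atTop
  have hsq : Filter.Tendsto (fun x : ℕ => Real.sqrt (x : ℝ)) Filter.atTop Filter.atTop :=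
    Real.tendsto_sqrt_atTop.comp tendsto_natCast_atTop_atTop
  obtain ⟨x₀, hx₀⟩ := Filter.eventually_atTop.1 ((hcast.eventually eventually_L').and
    ((hsq.eventually_ge_atTop (1 / ε)).and (Filter.eventually_ge_atTop 2)))
  refine ⟨x₀, fun x hx E hE hEcard U hU => ?_⟩
  obtain ⟨⟨hL100, hLL1, hLLL1, hLexp, hL5⟩, hxsq, hx2⟩ := hx₀ x hx
  set L := Real.log (x : ℝ) with hL
  set LL := Real.log L with hLL
  set L3 := Real.log LL with hL3
  have hx0 : (0:ℝ) < x := by positivity
  have hL0 : 0 < L := by linarith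
  have hLL0 : 0 < LL := by linarith
  have hL30 : 0 < L3 := by linarith
  have hL3LL : L3 ≤ LL := by
    have := Real.log_le_sub_one_of_pos hLL0
    linarith
  set c := min 1 (ε / 5600) with hc
  have hc0 : 0 < c := by positivity
  have hc1 : c ≤ 1 := min_le_left _ _
  have hc2 : c ≤ ε / 5600 := min_le_right _ _
  have hfac : ∀ p : ℕ, p.Prime → 0 < 1 - 1 / (p:ℝ) ∧ 1 - 1 / (p:ℝ) ≤ 1 := by
    intro p hp
    have : (2:ℝ) ≤ p := by exact_mod_cast hp.two_le
    constructor
    · rw [sub_pos, div_lt_one (by linarith)]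
      linarith
    · have : 0 ≤ 1 / (p:ℝ) := by positivity
      linarith
  set ρ := ∏ p ∈ E, (1 - 1 / (p : ℝ)) with hρ
  have hρ0 : 0 < ρ := prod_pos fun p hp => (hfac p (hE p hp)).1
  have hρ1 : ρ ≤ 1 := prod_le_one (fun p hp => (hfac p (hE p hp)).1.le)
    (fun p hp => (hfac p (hE p hp)).2)
  -- trivial bound
  have htriv : ∀ r : ℕ → ℕ, (((Ioc 0 U).filter fun n =>
      ∀ p : ℕ, p.Prime → p ≤ x → p ∉ E → n % p ≠ r p).card : ℝ) ≤ U := by
    intro r
    have := card_le_card (filter_subset (fun n =>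
      ∀ p : ℕ, p.Prime → p ≤ x → p ∉ E → n % p ≠ r p) (Ioc 0 U))
    rw [Nat.card_Ioc, Nat.sub_zero] at this
    exact_mod_cast this
  by_cases hUs : (U : ℝ) ≤ Real.sqrt x
  · refine ⟨fun _ => 0, (htriv _).trans (hUs.trans ?_)⟩
    have h1 : Real.sqrt x * Real.sqrt x = x := Real.mul_self_sqrt hx0.le
    have h2 : 0 ≤ Real.sqrt x := Real.sqrt_nonneg _
    rw [div_le_iff₀ hε] at hxsq
    nlinarith
  rw [not_le] at hUs
  have hU0 : (0:ℝ) < U := lt_of_le_of_lt (Real.sqrt_nonneg _) hUs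
  have hU0' : 0 < U := by exact_mod_cast hU0
  have hlogU : L / 2 ≤ Real.log U := by
    have h1 := Real.log_le_log (Real.sqrt_pos.2 hx0) hUs.le
    rwa [Real.log_sqrt hx0.le] at h1
  -- the parameter z
  set y := L * L3 / (400 * LL) with hy
  have hy3 : Real.sqrt L + Real.log (2 * L) ≤ y := by
    refine hLexp.trans ?_
    rw [hy]
    apply div_le_div_of_nonneg_right _ (by positivity)
    nlinarith
  have hsqL : 10 ≤ Real.sqrt L := by
    apply Real.le_sqrt_of_sq_le
    norm_num
    linarith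
  have hlog2L : 0 ≤ Real.log (2 * L) := Real.log_nonneg (by linarith)
  have hy10 : 10 ≤ y := by linarith
  have hyL : y ≤ L := by
    rw [hy, div_le_iff₀ (by positivity)]
    nlinarith
  set z := ⌊Real.exp y⌋₊ with hz
  have hexp8 : (8:ℝ) ≤ Real.exp y := by
    have h1 := Real.add_one_le_exp y
    linarith
  have hz8 : 8 ≤ z := by
    rw [hz]
    exact Nat.le_floor (by exact_mod_cast hexp8)
  have hz0 : (0:ℝ) < z := by positivity
  have hzle : (z:ℝ) ≤ Real.exp y := Nat.floor_le (Real.exp_pos y).le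
  have hzge : Real.exp y < z + 1 := Nat.lt_floor_add_one _
  have hlogz : Real.log z ≤ y := by
    rw [Real.log_le_iff_le_exp hz0]
    exact hzle
  have hlogz1 : y ≤ Real.log (z + 1) := by
    rw [Real.le_log_iff_exp_le (by linarith)]
    exact hzge.le
  have hlogzpos : 0 < Real.log z := Real.log_pos (by
    have : (8:ℝ) ≤ z := by exact_mod_cast hz8
    linarith)
  -- the number of blocks
  set K := ⌈2 * LL / Real.log 2⌉₊ with hK
  have hlog2 : 0 < Real.log 2 := Real.log_pos (by norm_num)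
  have hlog2' : 0.6931471803 < Real.log 2 := Real.log_two_gt_d9
  have hlog2'' : Real.log 2 < 0.6931471808 := Real.log_two_lt_d9
  have hK1 : 2 * LL / Real.log 2 ≤ K := Nat.le_ceil _
  have hK2 : (K:ℝ) ≤ 4 * LL := by
    have h1 : (K:ℝ) < 2 * LL / Real.log 2 + 1 := Nat.ceil_lt_add_one (by positivity)
    have h2 : 2 * LL / Real.log 2 ≤ 3 * LL := by
      rw [div_le_iff₀ hlog2]
      nlinarith
    linarith
  have hUK : U ≤ 2 ^ K * x := by
    have h1 : L ^ 2 ≤ (2:ℝ) ^ K := by
      rw [← Real.log_le_log_iff (by positivity) (by positivity), Real.log_pow, Real.log_pow]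
      push_cast
      rw [div_le_iff₀ hlog2] at hK1
      exact hK1
    have h2 : (U:ℝ) ≤ L ^ 2 * x := by
      refine hU.trans ?_
      have h3 : c * x * L ^ 2 * L3 / LL ^ 2 * ρ ≤ 1 * x * L ^ 2 * 1 * 1 := by
        have h4 : L3 / LL ^ 2 ≤ 1 := by
          rw [div_le_one (by positivity)]
          nlinarith
        have h5 : c * x * L ^ 2 * L3 / LL ^ 2 * ρ = c * x * L ^ 2 * (L3 / LL ^ 2) * ρ := by ring
        rw [h5]
        gcongr
      linarith
    have h3 : (U:ℝ) ≤ 2 ^ K * x := h2.trans (mul_le_mul_of_nonneg_right h1 hx0.le)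
    exact_mod_cast h3
  -- the set surviving the medium primes
  set S := (Ioc 0 U).filter fun n => ∀ p : ℕ, p.Prime → z < p → p ≤ x → p ∉ E → ¬ p ∣ n with hS
  obtain ⟨r, hr⟩ := greedy (((Ioc 0 z).filter Nat.Prime) \ E) (fun p hp => by
    rw [mem_sdiff, mem_filter] at hp
    exact hp.1.2.pos) S
  refine ⟨fun p => if p ≤ z then r p else 0, ?_⟩
  have hzx : z ≤ x := by
    have h1 : (z:ℝ) ≤ x := by
      refine hzle.trans ?_
      rw [← Real.exp_log hx0]
      exact Real.exp_le_exp.2 hyL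
    exact_mod_cast h1
  have hsub : ((Ioc 0 U).filter fun n =>
      ∀ p : ℕ, p.Prime → p ≤ x → p ∉ E → n % p ≠ if p ≤ z then r p else 0).card ≤
      (S.filter fun n => ∀ p ∈ ((Ioc 0 z).filter Nat.Prime) \ E, n % p ≠ r p).card := by
    apply card_le_card
    intro n hn
    rw [mem_filter] at hn
    refine (@Finset.mem_filter _ _ (_) _ _).2 ⟨mem_filter.2
      ⟨hn.1, fun p hp hzp hpx hpE hpn => ?_⟩, fun p hp => ?_⟩
    · have := hn.2 p hp hpx hpE
      rw [if_neg (by omega)] at this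
      exact this (Nat.mod_eq_zero_of_dvd hpn)
    · rw [mem_sdiff, mem_filter, mem_Ioc] at hp
      have := hn.2 p hp.1.2 (hp.1.1.2.trans hzx) hp.2
      rwa [if_pos hp.1.1.2] at this
  -- the size of S
  have hcover : S ⊆ ((Ioc 0 U).filter fun n => ∃ p : ℕ, p.Prime ∧ x < p ∧ p ∣ n) ∪
      ((E.filter fun p => z < p).biUnion fun p => (Ioc 0 U).filter fun n => p ∣ n) ∪
      ((Ioc 0 U).filter fun n => ∀ p : ℕ, p.Prime → p ∣ n → p ≤ z) := by
    intro n hn
    rw [hS, mem_filter] at hn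
    rw [mem_union, mem_union, mem_filter, mem_filter, mem_biUnion]
    by_cases h1 : ∃ p : ℕ, p.Prime ∧ x < p ∧ p ∣ n
    · exact Or.inl (Or.inl ⟨hn.1, h1⟩)
    · by_cases h2 : ∀ p : ℕ, p.Prime → p ∣ n → p ≤ z
      · exact Or.inr ⟨hn.1, h2⟩
      · left; right
        push Not at h1 h2
        obtain ⟨p, hp, hpn, hzp⟩ := h2
        have hpx : p ≤ x := by
          by_contra hcon
          exact h1 p hp (by omega) hpn
        have hpE : p ∈ E := by
          by_contra hcon
          exact hn.2 p hp hzp hpx hcon hpn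
        refine ⟨p, ?_, ?_⟩
        · rw [mem_filter]; exact ⟨hpE, hzp⟩
        · rw [mem_filter]; exact ⟨hn.1, hpn⟩
  have hA := count_big U x K hx2 hUK
  have hB : (((E.filter fun p => z < p).biUnion fun p =>
      (Ioc 0 U).filter fun n => p ∣ n).card : ℝ) ≤ E.card * (U * (1 / (z:ℝ))) := by
    have h1 : ((E.filter fun p => z < p).biUnion fun p =>
      (Ioc 0 U).filter fun n => p ∣ n).card ≤ ∑ p ∈ E.filter fun p => z < p,
        ((Ioc 0 U).filter fun n => p ∣ n).card := card_biUnion_le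
    have h2 : (((E.filter fun p => z < p).biUnion fun p =>
      (Ioc 0 U).filter fun n => p ∣ n).card : ℝ) ≤ ∑ p ∈ E.filter fun p => z < p,
        (((Ioc 0 U).filter fun n => p ∣ n).card : ℝ) := by exact_mod_cast h1
    have h3 : ∀ p ∈ E.filter fun p => z < p,
        (((Ioc 0 U).filter fun n => p ∣ n).card : ℝ) ≤ U * (1 / (z:ℝ)) := by
      intro p hp
      rw [mem_filter] at hp
      refine (card_dvd_le U p).trans ?_
      apply mul_le_mul_of_nonneg_left _ hU0.le
      apply one_div_le_one_div_of_le hz0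
      exact_mod_cast hp.2.le
    refine h2.trans ((sum_le_sum h3).trans ?_)
    rw [sum_const, nsmul_eq_mul]
    apply mul_le_mul_of_nonneg_right _ (by positivity)
    exact_mod_cast card_le_card (filter_subset _ _)
  have hlogz2 : y / 2 ≤ Real.log z := by
    have h1 : Real.exp y ≤ 2 * z := by
      have : (8:ℝ) ≤ z := by exact_mod_cast hz8
      linarith
    have h2 := Real.log_le_log (Real.exp_pos y) h1
    rw [Real.log_exp, Real.log_mul (by norm_num) hz0.ne'] at h2
    linarith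
  have hηz : 2 * (L3 / 2) ≤ Real.log z := by
    have h1 : 2 * L3 ≤ y := by
      have h2 : 10 ≤ L / (400 * LL) := by linarith
      have h3 : y = L / (400 * LL) * L3 := by rw [hy]; ring
      rw [h3]
      nlinarith
    linarith
  have hexpη : Real.exp (L3 / 2) = Real.sqrt LL := by
    rw [Real.sqrt_eq_rpow, Real.rpow_def_of_pos hLL0, ← hL3]
    congr 1
    ring
  have hC := smooth_count' z U (L3 / 2) (by positivity) hz8 hηz hU0'
  rw [hexpη] at hC
  have hD := recip_le z hz8
  -- bounds for the three pieces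
  have hlog4 : Real.log 4 < 1.3863 := by
    rw [show (4:ℝ) = 2 ^ 2 by norm_num, Real.log_pow]
    push_cast
    linarith
  have hlog4' : 0 < Real.log 4 := Real.log_pos (by norm_num)
  have hA' : (K:ℝ) * (2 * Real.log 4 / Real.log x) ≤ 12 * LL / L := by
    rw [← hL, ← mul_div_assoc]
    apply div_le_div_of_nonneg_right _ hL0.le
    have : (0:ℝ) ≤ K := by positivity
    nlinarith
  have hB' : (E.card : ℝ) * (1 / (z:ℝ)) ≤ LL / L := by
    have h1 : Real.exp y ≤ 2 * z := by
      have : (8:ℝ) ≤ z := by exact_mod_cast hz8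
      linarith
    have h2 : Real.exp (Real.sqrt L) * (2 * L) ≤ Real.exp y := by
      have : Real.exp (Real.sqrt L + Real.log (2 * L)) = Real.exp (Real.sqrt L) * (2 * L) := by
        rw [Real.exp_add, Real.exp_log (by positivity)]
      rw [← this]
      exact Real.exp_le_exp.2 hy3
    rw [mul_one_div, div_le_div_iff₀ hz0 hL0]
    have h3 : (E.card : ℝ) * L ≤ z := by
      have h4 : (E.card : ℝ) * L ≤ Real.exp (Real.sqrt L) * L :=
        mul_le_mul_of_nonneg_right hEcard hL0.le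
      linarith
    nlinarith
  have hC' : Real.exp (- (L3 / 2 * Real.log U / Real.log z)) *
        Real.exp (4 * ∑ p ∈ (Ioc 0 z).filter Nat.Prime, (1 / (p : ℝ)) + 24 * Real.sqrt LL) ≤
        LL / L := by
    rw [← Real.exp_add]
    have h1 : 100 * LL ≤ L3 / 2 * Real.log U / Real.log z := by
      rw [le_div_iff₀ hlogzpos]
      calc 100 * LL * Real.log z ≤ 100 * LL * y := by gcongr
        _ = L3 / 2 * (L / 2) := by
            rw [hy]
            field_simp
            ring
        _ ≤ _ := mul_le_mul_of_nonneg_left hlogU (by positivity)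
    have h2 : Real.log (Real.log z) ≤ LL := by
      apply Real.log_le_log hlogzpos
      linarith
    have h3 : -(L3 / 2 * Real.log U / Real.log z) +
        (4 * ∑ p ∈ (Ioc 0 z).filter Nat.Prime, (1 / (p : ℝ)) + 24 * Real.sqrt LL) ≤
        -(2 * LL) := by linarith
    refine (Real.exp_le_exp.2 h3).trans ?_
    rw [Real.exp_neg]
    have h4 : Real.exp (2 * LL) = L ^ 2 := by
      rw [show (2:ℝ) * LL = ((2:ℕ):ℝ) * LL by norm_num, Real.exp_nat_mul, hLL,
        Real.exp_log hL0]
    rw [h4, ← one_div, div_le_div_iff₀ (by positivity) hL0]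
    nlinarith
  have hScard : (S.card : ℝ) ≤ U * (14 * LL / L) := by
    have h1 := card_le_card hcover
    have h2 := h1.trans ((card_union_le _ _).trans (Nat.add_le_add_right (card_union_le _ _) _))
    have h3 : (S.card : ℝ) ≤
        (((Ioc 0 U).filter fun n => ∃ p : ℕ, p.Prime ∧ x < p ∧ p ∣ n).card : ℝ) +
        (((E.filter fun p => z < p).biUnion fun p =>
          (Ioc 0 U).filter fun n => p ∣ n).card : ℝ) +
        (((Ioc 0 U).filter fun n => ∀ p : ℕ, p.Prime → p ∣ n → p ≤ z).card : ℝ) := by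
      exact_mod_cast h2
    have h4 : (U:ℝ) * (K * (2 * Real.log 4 / Real.log x)) ≤ U * (12 * LL / L) :=
      mul_le_mul_of_nonneg_left hA' hU0.le
    have h5 : (E.card : ℝ) * (U * (1 / (z:ℝ))) ≤ U * (LL / L) := by
      calc (E.card : ℝ) * (U * (1 / (z:ℝ))) = U * (E.card * (1 / (z:ℝ))) := by ring
        _ ≤ _ := mul_le_mul_of_nonneg_left hB' hU0.le
    have h6 : (U:ℝ) * Real.exp (- (L3 / 2 * Real.log U / Real.log z)) *
        Real.exp (4 * ∑ p ∈ (Ioc 0 z).filter Nat.Prime, (1 / (p : ℝ)) + 24 * Real.sqrt LL) ≤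
        U * (LL / L) := by
      rw [mul_assoc]
      exact mul_le_mul_of_nonneg_left hC' hU0.le
    have h7 : (U:ℝ) * (14 * LL / L) = U * (12 * LL / L) + U * (LL / L) + U * (LL / L) := by ring
    rw [h7]
    linarith
  -- conclusion
  have hprod := prod_excl_le z (by omega) E hE
  have hprod' : ∏ p ∈ ((Ioc 0 z).filter Nat.Prime) \ E, (1 - 1 / (p : ℝ)) ≤
      400 * LL / (L * L3) * ρ⁻¹ := by
    refine hprod.trans ?_
    apply mul_le_mul_of_nonneg_right _ (inv_nonneg.2 hρ0.le)
    have h1 : 1 / Real.log ((z:ℝ) + 1) ≤ 1 / y := one_div_le_one_div_of_le (by linarith) hlogz1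
    refine h1.trans (le_of_eq ?_)
    rw [hy, one_div_div]
  have hfin : (((Ioc 0 U).filter fun n =>
      ∀ p : ℕ, p.Prime → p ≤ x → p ∉ E → n % p ≠ if p ≤ z then r p else 0).card : ℝ) ≤
      S.card * ∏ p ∈ ((Ioc 0 z).filter Nat.Prime) \ E, (1 - 1 / (p : ℝ)) := by
    have hsub' : (((Ioc 0 U).filter fun n =>
      ∀ p : ℕ, p.Prime → p ≤ x → p ∉ E → n % p ≠ if p ≤ z then r p else 0).card : ℝ) ≤
      ((S.filter fun n => ∀ p ∈ ((Ioc 0 z).filter Nat.Prime) \ E, n % p ≠ r p).card : ℝ) := by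
      exact_mod_cast hsub
    refine hsub'.trans (le_trans (le_of_eq ?_) hr)
    congr!
  refine hfin.trans ?_
  have hprod0 : 0 ≤ ∏ p ∈ ((Ioc 0 z).filter Nat.Prime) \ E, (1 - 1 / (p : ℝ)) :=
    prod_nonneg fun p hp => (hfac p (mem_filter.1 (mem_sdiff.1 hp).1).2).1.le
  calc (S.card : ℝ) * ∏ p ∈ ((Ioc 0 z).filter Nat.Prime) \ E, (1 - 1 / (p : ℝ))
      ≤ (U * (14 * LL / L)) * (400 * LL / (L * L3) * ρ⁻¹) := by
        apply mul_le_mul hScard hprod' hprod0 (by positivity)
    _ = U * (5600 * LL ^ 2 / (L ^ 2 * L3) * ρ⁻¹) := by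
        field_simp
        ring
    _ ≤ (c * x * L ^ 2 * L3 / LL ^ 2 * ρ) * (5600 * LL ^ 2 / (L ^ 2 * L3) * ρ⁻¹) := by
        apply mul_le_mul_of_nonneg_right hU (by positivity)
    _ = 5600 * c * x := by
        field_simp
    _ ≤ ε * x := by
        apply mul_le_mul_of_nonneg_right _ hx0.le
        linarith

end Pool.Agent.Presieve
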