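import Pool.Agent.Lib.GapSieve.Site

/-!
# Many independent sites

`Ω = (Fin N → subsets of Q)` with the product weight `muN`.
-/

open Finset

namespace Pool.Agent.GapSieve

/-- configurations -/
def Om (N : ℕ) (Q : Finset ℕ) : Finset (Fin N → Finset ℕ) :=
  Fintype.piFinset (fun _ => Q.powerset)

lemma mem_Om {N : ℕ} {Q : Finset ℕ} {ω : Fin N → Finset ℕ} :
    ω ∈ Om N Q ↔ ∀ i, ω i ⊆ Q := by
  simp [Om, Fintype.mem_piFinset]

/-- product weight -/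
noncomputable def muN {N : ℕ} (p : ℕ → ℝ) (Q : Finset ℕ) (ω : Fin N → Finset ℕ) : ℝ :=
  ∏ i, mu p Q (ω i)

lemma muN_nonneg {N : ℕ} {p : ℕ → ℝ} {Q : Finset ℕ} {ω : Fin N → Finset ℕ} (hω : ω ∈ Om N Q)
    (h0 : ∀ q ∈ Q, 0 ≤ p q) (h1 : ∀ q ∈ Q, p q ≤ 1) : 0 ≤ muN p Q ω :=
  prod_nonneg fun i _ => mu_nonneg (mem_Om.1 hω i) h0 h1

/-- expectation in the product model -/
noncomputable def EN {N : ℕ} (p : ℕ → ℝ) (Q : Finset ℕ) (Φ : (Fin N → Finset ℕ) → ℝ) : ℝ :=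
  ∑ ω ∈ Om N Q, muN p Q ω * Φ ω

lemma EN_mono {N : ℕ} {p : ℕ → ℝ} {Q : Finset ℕ} {Φ Ψ : (Fin N → Finset ℕ) → ℝ}
    (h0 : ∀ q ∈ Q, 0 ≤ p q) (h1 : ∀ q ∈ Q, p q ≤ 1) (h : ∀ ω ∈ Om N Q, Φ ω ≤ Ψ ω) :
    EN p Q Φ ≤ EN p Q Ψ :=
  sum_le_sum fun ω hω => mul_le_mul_of_nonneg_left (h ω hω) (muN_nonneg hω h0 h1)

lemma EN_add {N : ℕ} (p : ℕ → ℝ) (Q : Finset ℕ) (Φ Ψ : (Fin N → Finset ℕ) → ℝ) :
    EN p Q (fun ω => Φ ω + Ψ ω) = EN p Q Φ + EN p Q Ψ := by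
  unfold EN
  rw [← sum_add_distrib]
  exact sum_congr rfl fun ω _ => by ring

lemma EN_sub {N : ℕ} (p : ℕ → ℝ) (Q : Finset ℕ) (Φ Ψ : (Fin N → Finset ℕ) → ℝ) :
    EN p Q (fun ω => Φ ω - Ψ ω) = EN p Q Φ - EN p Q Ψ := by
  unfold EN
  rw [← sum_sub_distrib]
  exact sum_congr rfl fun ω _ => by ring

lemma EN_smul {N : ℕ} (p : ℕ → ℝ) (Q : Finset ℕ) (c : ℝ) (Φ : (Fin N → Finset ℕ) → ℝ) :
    EN p Q (fun ω => c * Φ ω) = c * EN p Q Φ := by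
  unfold EN
  rw [mul_sum]
  exact sum_congr rfl fun ω _ => by ring

lemma EN_sum {N : ℕ} {ι : Type*} (p : ℕ → ℝ) (Q : Finset ℕ) (s : Finset ι)
    (Φ : ι → (Fin N → Finset ℕ) → ℝ) :
    EN p Q (fun ω => ∑ x ∈ s, Φ x ω) = ∑ x ∈ s, EN p Q (Φ x) := by
  unfold EN
  rw [sum_comm]
  exact sum_congr rfl fun ω _ => by rw [mul_sum]

/-- factorisation of expectations -/
lemma EN_prod {N : ℕ} (p : ℕ → ℝ) (Q : Finset ℕ) (g : Fin N → Finset ℕ → ℝ) :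
    EN p Q (fun ω => ∏ i, g i (ω i)) = ∏ i, ∑ ω ∈ Q.powerset, mu p Q ω * g i ω := by
  rw [prod_univ_sum]
  unfold EN Om muN
  refine sum_congr rfl fun ω _ => ?_
  rw [prod_mul_distrib]

/-- characters -/
noncomputable def psi {N : ℕ} (p : ℕ → ℝ) (σ ω : Fin N → Finset ℕ) : ℝ :=
  ∏ i, chi p (σ i) (ω i)

lemma EN_psi {N : ℕ} {p : ℕ → ℝ} {Q : Finset ℕ} {σ τ : Fin N → Finset ℕ} (hσ : σ ∈ Om N Q)
    (hτ : τ ∈ Om N Q) :
    EN p Q (fun ω => psi p σ ω * psi p τ ω) =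
      if σ = τ then ∏ i, ∏ q ∈ σ i, (p q * (1 - p q)) else 0 := by
  have h1 : (fun ω : Fin N → Finset ℕ => psi p σ ω * psi p τ ω) =
      fun ω => ∏ i, (chi p (σ i) (ω i) * chi p (τ i) (ω i)) := by
    funext ω
    unfold psi
    rw [prod_mul_distrib]
  rw [h1, EN_prod p Q (fun i ω => chi p (σ i) ω * chi p (τ i) ω)]
  have h2 : ∀ i ∈ (univ : Finset (Fin N)), ∑ ω ∈ Q.powerset, mu p Q ω *
      (chi p (σ i) ω * chi p (τ i) ω) =
      if σ i = τ i then ∏ q ∈ σ i, (p q * (1 - p q)) else 0 := fun i _ =>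
    E_chi (mem_Om.1 hσ i) (mem_Om.1 hτ i)
  rw [prod_congr rfl h2]
  split_ifs with h
  · subst h
    simp
  · obtain ⟨i, hi⟩ : ∃ i, σ i ≠ τ i := by
      by_contra hne
      push Not at hne
      exact h (funext hne)
    exact prod_eq_zero (mem_univ i) (by simp [hi])

/-- coefficient of the product function -/
noncomputable def CN {N : ℕ} (p : ℕ → ℝ) (B : ℕ → Finset ℕ) (J : ℕ)
    (σ : Fin N → Finset ℕ) : ℝ := ∏ i, cco p B J (σ i)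

/-- the product function -/
noncomputable def FN {N : ℕ} (B : ℕ → Finset ℕ) (J : ℕ) (ω : Fin N → Finset ℕ) : ℝ :=
  ∏ i, cov B J (ω i)

lemma FN_expand {N : ℕ} (p : ℕ → ℝ) {B : ℕ → Finset ℕ} {Q : Finset ℕ} {J : ℕ}
    (hB : ∀ m < J, B m ⊆ Q) (ω : Fin N → Finset ℕ) :
    FN B J ω = ∑ σ ∈ Om N Q, CN p B J σ * psi p σ ω := by
  unfold FN
  rw [prod_congr rfl fun i _ => cov_expand p hB (ω i), prod_univ_sum]
  unfold Om CN psi
  refine sum_congr rfl fun σ _ => ?_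
  rw [prod_mul_distrib]

/-- truncated function -/
noncomputable def GN {N : ℕ} (p : ℕ → ℝ) (B : ℕ → Finset ℕ) (J : ℕ)
    (D : Finset (Fin N → Finset ℕ)) (ω : Fin N → Finset ℕ) : ℝ :=
  ∑ σ ∈ D, CN p B J σ * psi p σ ω

/-- Parseval for finite combinations of characters -/
lemma parseval {N : ℕ} {p : ℕ → ℝ} {Q : Finset ℕ} (D : Finset (Fin N → Finset ℕ))
    (hD : D ⊆ Om N Q) (a : (Fin N → Finset ℕ) → ℝ) :
    EN p Q (fun ω => (∑ σ ∈ D, a σ * psi p σ ω) ^ 2) =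
      ∑ σ ∈ D, a σ ^ 2 * ∏ i, ∏ q ∈ σ i, (p q * (1 - p q)) := by
  have h1 : (fun ω : Fin N → Finset ℕ => (∑ σ ∈ D, a σ * psi p σ ω) ^ 2) =
      fun ω => ∑ σ ∈ D, ∑ τ ∈ D, (a σ * a τ) * (psi p σ ω * psi p τ ω) := by
    funext ω
    rw [pow_two, sum_mul_sum]
    exact sum_congr rfl fun σ _ => sum_congr rfl fun τ _ => by ring
  rw [h1, EN_sum]
  refine sum_congr rfl fun σ hσ => ?_
  rw [EN_sum]
  have h2 : ∀ τ ∈ D, EN p Q (fun ω => (a σ * a τ) * (psi p σ ω * psi p τ ω)) =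
      if σ = τ then a σ ^ 2 * ∏ i, ∏ q ∈ σ i, (p q * (1 - p q)) else 0 := by
    intro τ hτ
    rw [EN_smul, EN_psi (hD hσ) (hD hτ)]
    split_ifs with h
    · subst h; ring
    · ring
  rw [sum_congr rfl h2, sum_ite_eq]
  simp [hσ]

/-- second moment of one site -/
noncomputable def A0 (p : ℕ → ℝ) (B : ℕ → Finset ℕ) (J : ℕ) (Q : Finset ℕ) : ℝ :=
  ∑ ω ∈ Q.powerset, mu p Q ω * cov B J ω ^ 2

lemma A0_eq_Aw (p : ℕ → ℝ) {B : ℕ → Finset ℕ} {Q : Finset ℕ} {J : ℕ}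
    (hB : ∀ m < J, B m ⊆ Q) : A0 p B J Q = Aw p (fun _ => 1) B J Q := by
  unfold A0 Aw
  have h1 : ∀ ω ∈ Q.powerset, mu p Q ω * cov B J ω ^ 2 =
      ∑ S ∈ Q.powerset, ∑ T ∈ Q.powerset, (cco p B J S * cco p B J T) *
        (mu p Q ω * (chi p S ω * chi p T ω)) := by
    intro ω _
    rw [cov_expand p hB ω, pow_two, sum_mul_sum, mul_sum]
    refine sum_congr rfl fun S _ => ?_
    rw [mul_sum]
    exact sum_congr rfl fun T _ => by ring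
  rw [sum_congr rfl h1, sum_comm]
  refine sum_congr rfl fun S hS => ?_
  rw [sum_comm]
  have h2 : ∀ T ∈ Q.powerset, ∑ ω ∈ Q.powerset, (cco p B J S * cco p B J T) *
        (mu p Q ω * (chi p S ω * chi p T ω)) =
      if S = T then cco p B J S ^ 2 * ∏ q ∈ S, (p q * (1 - p q) * 1) else 0 := by
    intro T hT
    rw [← mul_sum, E_chi (mem_powerset.1 hS) (mem_powerset.1 hT)]
    split_ifs with h
    · subst h
      simp only [mul_one]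
      ring
    · ring
  rw [sum_congr rfl h2, sum_ite_eq]
  simp [hS]

lemma EN_FN_sq {N : ℕ} (p : ℕ → ℝ) (B : ℕ → Finset ℕ) (J : ℕ) (Q : Finset ℕ) :
    EN (N := N) p Q (fun ω => FN B J ω ^ 2) = A0 p B J Q ^ N := by
  have h1 : (fun ω : Fin N → Finset ℕ => FN B J ω ^ 2) = fun ω => ∏ i, cov B J (ω i) ^ 2 := by
    funext ω
    unfold FN
    rw [prod_pow]
  rw [h1, EN_prod p Q (fun _ ω => cov B J ω ^ 2)]
  unfold A0
  simp

/-- the size of a character -/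
noncomputable def deg {N : ℕ} (σ : Fin N → Finset ℕ) : ℝ := ∏ i, ∏ q ∈ σ i, (q : ℝ)

/-- tail bound -/
lemma tail_bound {N : ℕ} {p : ℕ → ℝ} {B : ℕ → Finset ℕ} {Q : Finset ℕ} {J : ℕ}
    (hB : ∀ m < J, B m ⊆ Q) (h0 : ∀ q ∈ Q, 0 ≤ p q) (h1 : ∀ q ∈ Q, p q ≤ 1)
    (R θ : ℝ) (hR : 0 < R) (hθ : 0 ≤ θ)  :
    EN (N := N) p Q (fun ω => (FN B J ω - GN p B J ((Om N Q).filter fun σ => deg σ ≤ R) ω) ^ 2) ≤
      R ^ (-θ) * Aw p (fun q => (q : ℝ) ^ θ) B J Q ^ N := by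
  classical
  have h2 : (fun ω : Fin N → Finset ℕ => (FN B J ω -
      GN p B J ((Om N Q).filter fun σ => deg σ ≤ R) ω) ^ 2) =
      fun ω => (∑ σ ∈ (Om N Q).filter fun σ => ¬ deg σ ≤ R, CN p B J σ * psi p σ ω) ^ 2 := by
    funext ω
    unfold GN
    rw [FN_expand p hB ω, ← sum_filter_add_sum_filter_not (Om N Q) (fun σ => deg σ ≤ R)]
    ring
  rw [h2, parseval _ (filter_subset _ _)]
  have h3 : Aw p (fun q => (q : ℝ) ^ θ) B J Q ^ N =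
      ∑ σ ∈ Om N Q, CN p B J σ ^ 2 * (∏ i, ∏ q ∈ σ i, (p q * (1 - p q))) * (deg σ) ^ θ := by
    have h4 : Aw p (fun q => (q : ℝ) ^ θ) B J Q ^ N =
        ∏ _i : Fin N, Aw p (fun q => (q : ℝ) ^ θ) B J Q := by simp
    rw [h4]
    unfold Aw
    rw [prod_univ_sum]
    refine sum_congr rfl fun σ _ => ?_
    unfold CN deg
    rw [prod_mul_distrib, prod_pow]
    have h5 : (∏ i, ∏ q ∈ σ i, (q : ℝ)) ^ θ = ∏ i, ∏ q ∈ σ i, (q : ℝ) ^ θ := by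
      rw [← Real.finsetProd_rpow _ _ (fun i _ => prod_nonneg fun q _ => Nat.cast_nonneg q)]
      refine prod_congr rfl fun i _ => ?_
      rw [← Real.finsetProd_rpow _ _ (fun q _ => Nat.cast_nonneg q)]
    rw [h5, mul_assoc, ← prod_mul_distrib]
    congr 1
    refine prod_congr rfl fun i _ => ?_
    rw [← prod_mul_distrib]
  rw [h3, mul_sum]
  have hnn : ∀ σ ∈ Om N Q, 0 ≤ CN p B J σ ^ 2 * (∏ i, ∏ q ∈ σ i, (p q * (1 - p q))) := by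
    intro σ hσ
    refine mul_nonneg (sq_nonneg _) (prod_nonneg fun i _ => prod_nonneg fun q hq => ?_)
    have hq' := mem_Om.1 hσ i hq
    have := h0 q hq'
    have := h1 q hq'
    exact mul_nonneg (by linarith) (by linarith)
  calc ∑ σ ∈ (Om N Q).filter fun σ => ¬ deg σ ≤ R,
        CN p B J σ ^ 2 * ∏ i, ∏ q ∈ σ i, (p q * (1 - p q))
      ≤ ∑ σ ∈ (Om N Q).filter fun σ => ¬ deg σ ≤ R,
        R ^ (-θ) * (CN p B J σ ^ 2 * (∏ i, ∏ q ∈ σ i, (p q * (1 - p q))) * (deg σ) ^ θ) := by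
        refine sum_le_sum fun σ hσ => ?_
        obtain ⟨hσ1, hσ2⟩ := mem_filter.1 hσ
        push Not at hσ2
        have h6 : 1 ≤ R ^ (-θ) * (deg σ) ^ θ := by
          rw [Real.rpow_neg hR.le, ← div_eq_inv_mul, one_le_div (Real.rpow_pos_of_pos hR θ)]
          exact Real.rpow_le_rpow hR.le hσ2.le hθ
        have h7 := hnn σ hσ1
        nlinarith
    _ ≤ _ := by
        refine sum_le_sum_of_subset_of_nonneg (filter_subset _ _) fun σ hσ _ => ?_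
        refine mul_nonneg (Real.rpow_nonneg hR.le _) (mul_nonneg (hnn σ hσ) ?_)
        exact Real.rpow_nonneg (prod_nonneg fun i _ => prod_nonneg fun q _ => Nat.cast_nonneg q) _

end Pool.Agent.GapSieve
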