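import Mathlib

/-!
# One site: Fourier expansion of the covering function

`Q` is a finite set of primes, a subset `ω ⊆ Q` is the set of primes which hit a given site;
`mu` is the product Bernoulli measure.  `cov` is `1 - (1/J) ∑_m 1[ω ∩ B m = ∅]`.
-/

open Finset

namespace Pool.Agent.GapSieve

/-- product Bernoulli weight of the subset `ω` of `Q` -/
noncomputable def mu (p : ℕ → ℝ) (Q ω : Finset ℕ) : ℝ :=
  (∏ q ∈ ω, p q) * ∏ q ∈ Q \ ω, (1 - p q)

lemma mu_nonneg {p : ℕ → ℝ} {Q ω : Finset ℕ} (hω : ω ⊆ Q) (h0 : ∀ q ∈ Q, 0 ≤ p q)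
    (h1 : ∀ q ∈ Q, p q ≤ 1) : 0 ≤ mu p Q ω := by
  unfold mu
  refine mul_nonneg (prod_nonneg fun q hq => h0 q (hω hq)) (prod_nonneg fun q hq => ?_)
  have := h1 q (mem_sdiff.1 hq).1
  linarith

lemma E_prod (p a b : ℕ → ℝ) (Q : Finset ℕ) :
    ∑ ω ∈ Q.powerset, mu p Q ω * ((∏ q ∈ ω, a q) * ∏ q ∈ Q \ ω, b q) =
      ∏ q ∈ Q, (p q * a q + (1 - p q) * b q) := by
  rw [prod_add]
  refine sum_congr rfl fun ω _ => ?_
  unfold mu
  simp only [prod_mul_distrib]
  ring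

/-- the normalised characters -/
noncomputable def chi (p : ℕ → ℝ) (S ω : Finset ℕ) : ℝ :=
  ∏ q ∈ S, ((if q ∈ ω then 1 else 0) - p q)

lemma abs_chi_le {p : ℕ → ℝ} {S : Finset ℕ} (h0 : ∀ q ∈ S, 0 ≤ p q)
    (h1 : ∀ q ∈ S, p q ≤ 1) (ω : Finset ℕ) : |chi p S ω| ≤ 1 := by
  unfold chi
  rw [abs_prod]
  refine prod_le_one (fun _ _ => abs_nonneg _) fun q hq => ?_
  have := h0 q hq
  have := h1 q hq
  split_ifs <;> rw [abs_le] <;> constructor <;> linarith

lemma prod_split (Q ω : Finset ℕ) (hω : ω ⊆ Q) (h : ℕ → ℝ) :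
    ∏ q ∈ Q, h q = (∏ q ∈ ω, h q) * ∏ q ∈ Q \ ω, h q := by
  rw [mul_comm, prod_sdiff hω]

lemma chi_eq_prod {p : ℕ → ℝ} {Q S : Finset ℕ} (hS : S ⊆ Q) (ω : Finset ℕ) (hω : ω ⊆ Q) :
    chi p S ω = (∏ q ∈ ω, (if q ∈ S then 1 - p q else 1)) *
      ∏ q ∈ Q \ ω, (if q ∈ S then - p q else 1) := by
  have h1 : chi p S ω = ∏ q ∈ Q, (if q ∈ S then ((if q ∈ ω then 1 else 0) - p q) else 1) := by
    unfold chi
    rw [← prod_filter, filter_mem_eq_inter, inter_eq_right.2 hS]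
  rw [h1, prod_split Q ω hω]
  congr 1
  · refine prod_congr rfl fun q hq => ?_
    simp [hq]
  · refine prod_congr rfl fun q hq => ?_
    simp [(mem_sdiff.1 hq).2]

lemma E_chi {p : ℕ → ℝ} {Q S T : Finset ℕ} (hS : S ⊆ Q) (hT : T ⊆ Q) :
    ∑ ω ∈ Q.powerset, mu p Q ω * (chi p S ω * chi p T ω) =
      if S = T then ∏ q ∈ S, (p q * (1 - p q)) else 0 := by
  have h1 : ∑ ω ∈ Q.powerset, mu p Q ω * (chi p S ω * chi p T ω) =
      ∑ ω ∈ Q.powerset, mu p Q ω * ((∏ q ∈ ω, ((if q ∈ S then 1 - p q else 1) *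
        (if q ∈ T then 1 - p q else 1))) *
        ∏ q ∈ Q \ ω, ((if q ∈ S then - p q else 1) * (if q ∈ T then - p q else 1))) := by
    refine sum_congr rfl fun ω hω => ?_
    rw [mem_powerset] at hω
    rw [chi_eq_prod hS ω hω, chi_eq_prod hT ω hω]
    simp only [prod_mul_distrib]
    ring
  rw [h1, E_prod]
  split_ifs with h
  · subst h
    rw [← prod_subset hS (f := fun q => p q * ((if q ∈ S then 1 - p q else 1) *
        (if q ∈ S then 1 - p q else 1)) + (1 - p q) * ((if q ∈ S then - p q else 1) *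
        (if q ∈ S then - p q else 1)))]
    · refine prod_congr rfl fun q hq => ?_
      simp only [hq, if_true]
      ring
    · intro q _ hq
      simp [hq]
  · obtain ⟨q, hq⟩ : ∃ q, ¬ (q ∈ S ↔ q ∈ T) := by
      by_contra hne
      push Not at hne
      exact h (Finset.ext hne)
    have hqQ : q ∈ Q := by
      by_contra hqQ
      apply hq
      constructor
      · intro h'; exact absurd (hS h') hqQ
      · intro h'; exact absurd (hT h') hqQ
    refine prod_eq_zero hqQ ?_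
    by_cases h1 : q ∈ S
    · have h2 : q ∉ T := fun h2 => hq ⟨fun _ => h2, fun _ => h1⟩
      simp only [h1, h2, if_true, if_false]
      ring
    · have h2 : q ∈ T := by
        by_contra h2
        exact hq ⟨fun h' => absurd h' h1, fun h' => absurd h' h2⟩
      simp only [h1, h2, if_true, if_false]
      ring

lemma E_one (p : ℕ → ℝ) (Q : Finset ℕ) : ∑ ω ∈ Q.powerset, mu p Q ω = 1 := by
  have h := E_prod p (fun _ => 1) (fun _ => 1) Q
  simp only [prod_const_one, mul_one] at h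
  rw [h]
  refine prod_eq_one fun q _ => ?_
  ring

/-- the covering function of a site -/
noncomputable def cov (B : ℕ → Finset ℕ) (J : ℕ) (ω : Finset ℕ) : ℝ :=
  1 - (∑ m ∈ range J, if Disjoint ω (B m) then (1 : ℝ) else 0) / J

/-- coefficients of the indicator of `ω ∩ B m = ∅` -/
noncomputable def dco (p : ℕ → ℝ) (B : ℕ → Finset ℕ) (m : ℕ) (S : Finset ℕ) : ℝ :=
  if S ⊆ B m then (-1) ^ S.card * ∏ q ∈ B m \ S, (1 - p q) else 0

/-- coefficients of the covering function -/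
noncomputable def cco (p : ℕ → ℝ) (B : ℕ → Finset ℕ) (J : ℕ) (S : Finset ℕ) : ℝ :=
  (if S = ∅ then 1 else 0) - (∑ m ∈ range J, dco p B m S) / J

/-- the sieve product -/
noncomputable def V (p : ℕ → ℝ) (B : ℕ → Finset ℕ) (m : ℕ) : ℝ := ∏ q ∈ B m, (1 - p q)

lemma disj_expand (p : ℕ → ℝ) {B : ℕ → Finset ℕ} {Q : Finset ℕ} {m : ℕ} (hB : B m ⊆ Q)
    (ω : Finset ℕ) :
    (if Disjoint ω (B m) then (1 : ℝ) else 0) = ∑ S ∈ Q.powerset, dco p B m S * chi p S ω := by
  have h1 : (if Disjoint ω (B m) then (1 : ℝ) else 0) =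
      ∏ q ∈ B m, (-((if q ∈ ω then 1 else 0) - p q) + (1 - p q)) := by
    split_ifs with h
    · symm
      refine prod_eq_one fun q hq => ?_
      have : q ∉ ω := fun h' => (disjoint_left.1 h h') hq
      simp [this]
    · symm
      rw [not_disjoint_iff] at h
      obtain ⟨q, hq, hq'⟩ := h
      refine prod_eq_zero hq' ?_
      simp [hq]
  rw [h1, prod_add]
  have h2 : ∑ S ∈ Q.powerset, dco p B m S * chi p S ω =
      ∑ S ∈ (B m).powerset, dco p B m S * chi p S ω := by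
    symm
    refine sum_subset (powerset_mono.2 hB) fun S _ hS => ?_
    rw [mem_powerset] at hS
    unfold dco
    rw [if_neg hS, zero_mul]
  rw [h2]
  refine sum_congr rfl fun S hS => ?_
  rw [mem_powerset] at hS
  unfold dco chi
  rw [if_pos hS, prod_neg]
  ring

lemma cov_expand (p : ℕ → ℝ) {B : ℕ → Finset ℕ} {Q : Finset ℕ} {J : ℕ}
    (hB : ∀ m < J, B m ⊆ Q) (ω : Finset ℕ) :
    cov B J ω = ∑ S ∈ Q.powerset, cco p B J S * chi p S ω := by
  unfold cov cco
  have h1 : ∑ m ∈ range J, (if Disjoint ω (B m) then (1 : ℝ) else 0) =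
      ∑ S ∈ Q.powerset, (∑ m ∈ range J, dco p B m S) * chi p S ω := by
    rw [sum_congr rfl fun m hm => disj_expand p (hB m (mem_range.1 hm)) ω, sum_comm]
    refine sum_congr rfl fun S _ => ?_
    rw [sum_mul]
  rw [h1]
  have h2 : ∑ S ∈ Q.powerset, ((if S = ∅ then (1 : ℝ) else 0) -
      (∑ m ∈ range J, dco p B m S) / J) * chi p S ω =
      ∑ S ∈ Q.powerset, (if S = ∅ then (1 : ℝ) else 0) * chi p S ω -
      (∑ S ∈ Q.powerset, (∑ m ∈ range J, dco p B m S) * chi p S ω) / J := by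
    rw [sum_div, ← sum_sub_distrib]
    refine sum_congr rfl fun S _ => ?_
    ring
  rw [h2]
  congr 1
  rw [sum_eq_single_of_mem ∅ (empty_mem_powerset Q)]
  · simp [chi]
  · intro S _ hS
    simp [hS]

/-- weighted Parseval sum -/
noncomputable def Aw (p w : ℕ → ℝ) (B : ℕ → Finset ℕ) (J : ℕ) (Q : Finset ℕ) : ℝ :=
  ∑ S ∈ Q.powerset, cco p B J S ^ 2 * ∏ q ∈ S, (p q * (1 - p q) * w q)

lemma dco_pair (p w : ℕ → ℝ) {B : ℕ → Finset ℕ} {Q : Finset ℕ} {m m' : ℕ}
    (hm : m ≤ m') (hmono : Monotone B) (hB : B m' ⊆ Q) :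
    ∑ S ∈ Q.powerset, dco p B m S * dco p B m' S * ∏ q ∈ S, (p q * (1 - p q) * w q) =
      V p B m' * ∏ q ∈ B m, (1 + p q * (w q - 1)) := by
  have hBm : B m ⊆ B m' := hmono hm
  have h2 : ∑ S ∈ Q.powerset, dco p B m S * dco p B m' S * ∏ q ∈ S, (p q * (1 - p q) * w q) =
      ∑ S ∈ (B m).powerset, dco p B m S * dco p B m' S *
        ∏ q ∈ S, (p q * (1 - p q) * w q) := by
    symm
    refine sum_subset (powerset_mono.2 (hBm.trans hB)) fun S _ hS => ?_
    rw [mem_powerset] at hS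
    unfold dco
    rw [if_neg hS, zero_mul, zero_mul]
  have h3 : V p B m' = (∏ q ∈ B m' \ B m, (1 - p q)) * ∏ q ∈ B m, (1 - p q) := by
    unfold V
    rw [prod_sdiff hBm]
  rw [h2, h3, mul_assoc, ← prod_mul_distrib]
  have h4 : ∏ q ∈ B m, (1 - p q) * (1 + p q * (w q - 1)) =
      ∏ q ∈ B m, (p q * (1 - p q) * w q + (1 - p q) ^ 2) := by
    refine prod_congr rfl fun q _ => ?_
    ring
  rw [h4, prod_add, mul_sum]
  refine sum_congr rfl fun S hS => ?_
  rw [mem_powerset] at hS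
  unfold dco
  rw [if_pos hS, if_pos (hS.trans hBm)]
  have h5 : ∏ q ∈ B m' \ S, (1 - p q) =
      (∏ q ∈ B m' \ B m, (1 - p q)) * ∏ q ∈ B m \ S, (1 - p q) := by
    rw [← prod_union]
    · refine prod_congr ?_ fun _ _ => rfl
      ext q
      simp only [mem_sdiff, mem_union]
      constructor
      · rintro ⟨h, h'⟩
        by_cases hq : q ∈ B m
        · exact Or.inr ⟨hq, h'⟩
        · exact Or.inl ⟨h, hq⟩
      · rintro (⟨h, h'⟩ | ⟨h, h'⟩)
        · exact ⟨h, fun h'' => h' (hS h'')⟩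
        · exact ⟨hBm h, h'⟩
    · rw [disjoint_left]
      intro q hq hq'
      rw [mem_sdiff] at hq hq'
      exact hq.2 hq'.1
  rw [h5, prod_pow]
  have h6 : ((-1 : ℝ) ^ S.card) * (-1) ^ S.card = 1 := by
    rw [← mul_pow]; norm_num
  linear_combination ((∏ q ∈ B m \ S, (1 - p q)) * (∏ q ∈ B m' \ B m, (1 - p q)) *
    (∏ q ∈ B m \ S, (1 - p q)) * ∏ q ∈ S, (p q * (1 - p q) * w q)) * h6

lemma dco_pair' (p w : ℕ → ℝ) {B : ℕ → Finset ℕ} {Q : Finset ℕ} {m m' J : ℕ}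
    (hm : m < J) (hm' : m' < J) (hmono : Monotone B) (hB : ∀ m < J, B m ⊆ Q) :
    ∑ S ∈ Q.powerset, dco p B m S * dco p B m' S * ∏ q ∈ S, (p q * (1 - p q) * w q) =
      V p B (max m m') * ∏ q ∈ B (min m m'), (1 + p q * (w q - 1)) := by
  rcases le_total m m' with h | h
  · rw [max_eq_right h, min_eq_left h, dco_pair p w h hmono (hB m' hm')]
  · rw [max_eq_left h, min_eq_right h, ← dco_pair p w h hmono (hB m hm)]
    refine sum_congr rfl fun S _ => ?_
    ring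

lemma Aw_eq (p w : ℕ → ℝ) {B : ℕ → Finset ℕ} {Q : Finset ℕ} {J : ℕ}
    (hmono : Monotone B) (hB : ∀ m < J, B m ⊆ Q) :
    Aw p w B J Q = 1 - 2 * (∑ m ∈ range J, V p B m) / J +
      (∑ m ∈ range J, ∑ m' ∈ range J, V p B (max m m') *
        ∏ q ∈ B (min m m'), (1 + p q * (w q - 1))) / (J : ℝ) ^ 2 := by
  have h1 : ∑ m ∈ range J, ∑ m' ∈ range J, V p B (max m m') *
        ∏ q ∈ B (min m m'), (1 + p q * (w q - 1)) =
      ∑ S ∈ Q.powerset, (∑ m ∈ range J, dco p B m S) ^ 2 *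
        ∏ q ∈ S, (p q * (1 - p q) * w q) := by
    have h2 : ∀ m ∈ range J, ∑ m' ∈ range J, V p B (max m m') *
        ∏ q ∈ B (min m m'), (1 + p q * (w q - 1)) =
        ∑ S ∈ Q.powerset, (dco p B m S * ∑ m' ∈ range J, dco p B m' S) *
          ∏ q ∈ S, (p q * (1 - p q) * w q) := by
      intro m hm
      rw [mem_range] at hm
      have h3 : ∀ m' ∈ range J, V p B (max m m') *
        ∏ q ∈ B (min m m'), (1 + p q * (w q - 1)) =
        ∑ S ∈ Q.powerset, dco p B m S * dco p B m' S * ∏ q ∈ S, (p q * (1 - p q) * w q) := by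
        intro m' hm'
        rw [mem_range] at hm'
        rw [dco_pair' p w hm hm' hmono hB]
      rw [sum_congr rfl h3, sum_comm]
      refine sum_congr rfl fun S _ => ?_
      rw [mul_sum, sum_mul]
    rw [sum_congr rfl h2, sum_comm]
    refine sum_congr rfl fun S _ => ?_
    rw [← sum_mul, ← sum_mul, pow_two]
  have h4 : ∑ m ∈ range J, V p B m = ∑ m ∈ range J, dco p B m ∅ := by
    refine sum_congr rfl fun m _ => ?_
    simp [V, dco]
  rw [h1, h4]
  unfold Aw cco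
  have h5 : ∀ S ∈ Q.powerset, ((if S = ∅ then (1 : ℝ) else 0) -
      (∑ m ∈ range J, dco p B m S) / J) ^ 2 * ∏ q ∈ S, (p q * (1 - p q) * w q) =
      (if S = ∅ then (1 - 2 * (∑ m ∈ range J, dco p B m S) / J) else 0) +
      ((∑ m ∈ range J, dco p B m S) ^ 2 * ∏ q ∈ S, (p q * (1 - p q) * w q)) / (J : ℝ) ^ 2 := by
    intro S _
    split_ifs with h
    · subst h
      simp only [prod_empty]
      ring
    · ring
  rw [sum_congr rfl h5, sum_add_distrib, ← sum_div, sum_ite_eq' ]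
  simp

end Pool.Agent.GapSieve
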