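import Pool.Agent.Lib.GapSieve.Cover

/-!
# The residues hit by a prime for the polynomial `n ^ 2 + 1`
-/

open Finset

namespace Pool.Agent.GapSieve

/-- the hitting relation -/
def hitP {N : ℕ} (a M : ℕ) (j : Fin N → ℕ) (q : ℕ) (i : Fin N) (t : ℕ) : Prop :=
  q ∣ (a + M * t + j i) ^ 2 + 1

lemma dvd_iff_zmod {q : ℕ} (a M t j : ℕ) :
    q ∣ (a + M * t + j) ^ 2 + 1 ↔ ((a : ZMod q) + M * t + j) ^ 2 + 1 = 0 := by
  rw [← ZMod.natCast_eq_zero_iff]
  push_cast
  rfl

lemma hit_per {q : ℕ} (a M t j : ℕ) :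
    q ∣ (a + M * (t + q) + j) ^ 2 + 1 ↔ q ∣ (a + M * t + j) ^ 2 + 1 := by
  rw [dvd_iff_zmod, dvd_iff_zmod]
  push_cast
  simp

/-- a prime `1 mod 4` hits exactly two residues -/
lemma hit_card {q : ℕ} (hq : q.Prime) (h4 : q % 4 = 1) (a M j : ℕ) (hM : ¬ q ∣ M) :
    ((range q).filter fun t => q ∣ (a + M * t + j) ^ 2 + 1).card = 2 := by
  have : Fact q.Prime := ⟨hq⟩
  have hsq : IsSquare (-1 : ZMod q) := ZMod.exists_sq_eq_neg_one_iff.2 (by omega)
  obtain ⟨r, hr⟩ := hsq
  have hM0 : (M : ZMod q) ≠ 0 := by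
    rw [Ne, ZMod.natCast_eq_zero_iff]
    exact hM
  have h2 : (2 : ZMod q) ≠ 0 := by
    have : ((2 : ℕ) : ZMod q) ≠ 0 := by
      rw [Ne, ZMod.natCast_eq_zero_iff]
      intro h
      have := Nat.le_of_dvd (by norm_num) h
      have := hq.two_le
      interval_cases q
      omega
    exact_mod_cast this
  have hr0 : r ≠ 0 := by
    rintro rfl
    simp at hr
  set t1 : ZMod q := (r - a - j) / M with ht1
  set t2 : ZMod q := (-r - a - j) / M with ht2
  have hne : t1 ≠ t2 := by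
    intro h
    rw [ht1, ht2, div_left_inj' hM0] at h
    have h3 : 2 * r = 0 := by linear_combination h
    rcases mul_eq_zero.1 h3 with h4 | h4
    · exact h2 h4
    · exact hr0 h4
  have hset : (range q).filter (fun t => q ∣ (a + M * t + j) ^ 2 + 1) = {t1.val, t2.val} := by
    ext t
    rw [mem_filter, mem_range, mem_insert, mem_singleton]
    have key : ∀ t : ZMod q, ((a : ZMod q) + M * t + j) ^ 2 + 1 = 0 ↔ t = t1 ∨ t = t2 := by
      intro t
      have e : ((a : ZMod q) + M * t + j) ^ 2 + 1 =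
          ((a : ZMod q) + M * t + j - r) * ((a : ZMod q) + M * t + j + r) := by
        linear_combination (-1 : ZMod q) * hr
      rw [e, mul_eq_zero]
      refine or_congr ?_ ?_
      · rw [ht1, eq_div_iff hM0]
        constructor
        · intro h; linear_combination h
        · intro h; linear_combination h
      · rw [ht2, eq_div_iff hM0]
        constructor
        · intro h; linear_combination h
        · intro h; linear_combination h
    constructor
    · rintro ⟨ht, hd⟩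
      rw [dvd_iff_zmod, key] at hd
      rcases hd with h | h
      · left; rw [← h, ZMod.val_natCast_of_lt ht]
      · right; rw [← h, ZMod.val_natCast_of_lt ht]
    · rintro (h | h)
      · refine ⟨h ▸ ZMod.val_lt t1, ?_⟩
        rw [dvd_iff_zmod, key]
        left
        rw [h, ZMod.natCast_zmod_val]
      · refine ⟨h ▸ ZMod.val_lt t2, ?_⟩
        rw [dvd_iff_zmod, key]
        right
        rw [h, ZMod.natCast_zmod_val]
  rw [hset, card_pair]
  intro h
  exact hne (ZMod.val_injective q h)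

/-- a large prime hits at most one site -/
lemma hit_excl {q U : ℕ} (hq : q.Prime) (hU : U ^ 2 + 4 < q) (b j j' : ℕ) (hj : j ≤ U)
    (hj' : j' ≤ U) (h1 : q ∣ (b + j) ^ 2 + 1) (h2 : q ∣ (b + j') ^ 2 + 1) : j = j' := by
  by_contra hne
  have h1' : (q : ℤ) ∣ ((b : ℤ) + j) ^ 2 + 1 := by exact_mod_cast h1
  have h2' : (q : ℤ) ∣ ((b : ℤ) + j') ^ 2 + 1 := by exact_mod_cast h2
  have hd : ((j : ℤ) - j') ^ 2 ≤ (U : ℤ) ^ 2 := by
    have hj0 : (j : ℤ) ≤ U := by exact_mod_cast hj
    have hj0' : (j' : ℤ) ≤ U := by exact_mod_cast hj'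
    have : (0 : ℤ) ≤ j := by positivity
    have : (0 : ℤ) ≤ j' := by positivity
    nlinarith
  have hUq : (U : ℤ) ^ 2 + 4 < q := by exact_mod_cast hU
  have h3 : (q : ℤ) ∣ ((j : ℤ) - j') * (2 * b + j + j') := by
    have := dvd_sub h1' h2'
    have e : ((b : ℤ) + j) ^ 2 + 1 - (((b : ℤ) + j') ^ 2 + 1) =
        ((j : ℤ) - j') * (2 * b + j + j') := by ring
    rwa [e] at this
  have hqp : Prime (q : ℤ) := Nat.prime_iff_prime_int.1 hq
  have hjne : ((j : ℤ) - j') ≠ 0 := by
    intro h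
    apply hne
    have : (j : ℤ) = j' := by linarith
    exact_mod_cast this
  rcases hqp.dvd_or_dvd h3 with h4 | h4
  · have h5 : (q : ℤ) ∣ ((j : ℤ) - j') ^ 2 := dvd_pow h4 (by norm_num)
    have h6 := Int.le_of_dvd (by positivity) h5
    linarith
  · have h5 : (q : ℤ) ∣ ((j : ℤ) - j') ^ 2 + 4 := by
      have e : ((j : ℤ) - j') ^ 2 + 4 = 4 * (((b : ℤ) + j) ^ 2 + 1) -
          (2 * b + j + j') * (2 * (b + j) + (j - j')) := by ring
      rw [e]
      exact dvd_sub (h1'.mul_left 4) (h4.mul_right _)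
    have h6 := Int.le_of_dvd (by positivity) h5
    linarith

/-- the small primes -/
def smallP (z : ℕ) : Finset ℕ := (Ioc 2 z).filter fun p => p.Prime ∧ p % 4 = 1

/-- the survivors of the small sieve -/
def surv (z U a : ℕ) : Finset ℕ := (Ioc 0 U).filter fun j => ∀ p ∈ smallP z, ¬ p ∣ (a + j) ^ 2 + 1

/-- the average number of survivors -/
lemma surv_avg (z U : ℕ) :
    ∑ a ∈ range (∏ p ∈ smallP z, p), ((surv z U a).card : ℝ) =
      U * ∏ p ∈ smallP z, ((p : ℝ) - 2) := by
  classical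
  have hpr : ∀ p ∈ smallP z, p.Prime ∧ p % 4 = 1 := fun p hp => (mem_filter.1 hp).2
  have h1 : ∀ a, ((surv z U a).card : ℝ) =
      ∑ j ∈ Ioc 0 U, ∏ p ∈ smallP z, (if p ∣ (a + j) ^ 2 + 1 then (0 : ℝ) else 1) := by
    intro a
    unfold surv
    rw [card_filter, Nat.cast_sum]
    refine sum_congr rfl fun j _ => ?_
    by_cases h : ∀ p ∈ smallP z, ¬ p ∣ (a + j) ^ 2 + 1
    · rw [if_pos h, Nat.cast_one]
      symm
      exact prod_eq_one fun p hp => by rw [if_neg (h p hp)]
    · rw [if_neg h, Nat.cast_zero]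
      push Not at h
      obtain ⟨p, hp, hd⟩ := h
      symm
      exact prod_eq_zero hp (by rw [if_pos hd])
  simp only [h1]
  rw [sum_comm]
  have h2 : ∀ j ∈ Ioc 0 U, ∑ a ∈ range (∏ p ∈ smallP z, p), ∏ p ∈ smallP z,
      (if p ∣ (a + j) ^ 2 + 1 then (0 : ℝ) else 1) = ∏ p ∈ smallP z, ((p : ℝ) - 2) := by
    intro j _
    rw [crt_prod (smallP z) (fun p hp => (hpr p hp).1.pos)
      (fun p hp p' hp' hne => (Nat.coprime_primes (hpr p hp).1 (hpr p' hp').1).2 hne)
      (fun p a => if p ∣ (a + j) ^ 2 + 1 then (0 : ℝ) else 1)]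
    · refine prod_congr rfl fun p hp => ?_
      have h3 := hit_card (hpr p hp).1 (hpr p hp).2 0 1 j (by
        rw [Nat.dvd_one]; exact (hpr p hp).1.ne_one)
      simp only [zero_add, one_mul] at h3
      have h4 : ∑ a ∈ range p, (if p ∣ (a + j) ^ 2 + 1 then (0 : ℝ) else 1) =
          ∑ a ∈ range p, (1 - if p ∣ (a + j) ^ 2 + 1 then (1 : ℝ) else 0) := by
        refine sum_congr rfl fun a _ => ?_
        split_ifs <;> ring
      rw [h4, sum_sub_distrib, sum_const, card_range, nsmul_eq_mul, mul_one, sum_ite, sum_const,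
        sum_const_zero, add_zero, h3, nsmul_eq_mul]
      norm_num
    · intro p hp a
      have h5 := hit_per (q := p) 0 1 a j
      simp only [zero_add, one_mul] at h5
      simp only [h5]
  rw [sum_congr rfl h2, sum_const, Nat.card_Ioc, nsmul_eq_mul, Nat.sub_zero]

/-- a good residue class for the small sieve -/
lemma exists_good {C : ℝ} (hC : ∀ M K : ℕ, 2 ≤ M → M ≤ K →
    Real.log (Real.log K) - Real.log (Real.log M) - C ≤
      ∑ p ∈ Ioc M K with p.Prime ∧ p % 4 = 1, 2 / (p : ℝ)) (z U : ℕ) (hz : 2 ≤ z) :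
    ∃ a : ℕ, a < ∏ p ∈ smallP z, p ∧ ((surv z U a).card : ℝ) ≤ U * Real.exp C / Real.log z := by
  have hpr : ∀ p ∈ smallP z, p.Prime ∧ p % 4 = 1 := fun p hp => (mem_filter.1 hp).2
  set P := ∏ p ∈ smallP z, p with hP
  have hPpos : 0 < P := prod_pos fun p hp => (hpr p hp).1.pos
  have hPR : (0 : ℝ) < P := by exact_mod_cast hPpos
  have hlz : 0 < Real.log z := Real.log_pos (by exact_mod_cast hz)
  have h1 := surv_avg z U
  have h2 : ∏ p ∈ smallP z, ((p : ℝ) - 2) = P * ∏ p ∈ smallP z, (1 - 2 / (p : ℝ)) := by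
    rw [hP, Nat.cast_prod, ← prod_mul_distrib]
    refine prod_congr rfl fun p hp => ?_
    have : (p : ℝ) ≠ 0 := by exact_mod_cast (hpr p hp).1.ne_zero
    field_simp
  have h3 : ∏ p ∈ smallP z, (1 - 2 / (p : ℝ)) ≤ Real.exp C / Real.log z := by
    have h4 : ∏ p ∈ smallP z, (1 - 2 / (p : ℝ)) ≤ Real.exp (-∑ p ∈ smallP z, 2 / (p : ℝ)) := by
      rw [← sum_neg_distrib, Real.exp_sum]
      refine prod_le_prod (fun p hp => ?_) fun p _ => ?_
      · have h5 : (2 : ℝ) ≤ p := by exact_mod_cast (hpr p hp).1.two_le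
        have : (2 : ℝ) / p ≤ 1 := by rw [div_le_one (by linarith)]; exact h5
        linarith
      · have := Real.add_one_le_exp (-(2 / (p : ℝ)))
        linarith
    refine h4.trans ?_
    have h6 : Real.log (Real.log z) - Real.log (Real.log ((2 : ℕ) : ℝ)) - C ≤
        ∑ p ∈ smallP z, 2 / (p : ℝ) := hC 2 z le_rfl hz
    have h7 : Real.log (Real.log ((2 : ℕ) : ℝ)) ≤ 0 := by
      have := Real.log_two_lt_d9
      have := Real.log_two_gt_d9
      refine Real.log_nonpos (by push_cast; linarith) (by push_cast; linarith)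
    have h8 : Real.exp C / Real.log z = Real.exp (C - Real.log (Real.log z)) := by
      rw [Real.exp_sub, Real.exp_log hlz]
    rw [h8]
    refine Real.exp_le_exp.2 ?_
    generalize ∑ p ∈ smallP z, 2 / (p : ℝ) = S at h6 ⊢
    generalize Real.log (Real.log z) = A at h6 ⊢
    generalize Real.log (Real.log ((2 : ℕ) : ℝ)) = B at h6 h7
    linarith
  by_contra hcon
  push Not at hcon
  have h9 : ∑ a ∈ range P, (U * Real.exp C / Real.log z) < ∑ a ∈ range P,
      ((surv z U a).card : ℝ) := by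
    refine sum_lt_sum_of_nonempty ⟨0, mem_range.2 hPpos⟩ fun a ha => ?_
    exact hcon a (mem_range.1 ha)
  rw [h1, h2, sum_const, card_range, nsmul_eq_mul] at h9
  have h10 : (U : ℝ) * (P * ∏ p ∈ smallP z, (1 - 2 / (p : ℝ))) ≤
      P * (U * Real.exp C / Real.log z) := by
    have h11 := mul_le_mul_of_nonneg_left h3 (show (0 : ℝ) ≤ U * P by positivity)
    calc (U : ℝ) * (P * ∏ p ∈ smallP z, (1 - 2 / (p : ℝ))) =
          U * P * ∏ p ∈ smallP z, (1 - 2 / (p : ℝ)) := by ring
      _ ≤ U * P * (Real.exp C / Real.log z) := h11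
      _ = P * (U * Real.exp C / Real.log z) := by ring
  linarith

lemma prod_smallP_le (z : ℕ) : ((∏ p ∈ smallP z, p : ℕ) : ℝ) ≤ Real.exp (2 * z) := by
  have h1 : ∏ p ∈ smallP z, p ≤ primorial z := by
    unfold primorial smallP
    refine prod_le_prod_of_subset_of_one_le' ?_ ?_
    · intro p hp
      rw [mem_filter, mem_Ioc] at hp
      rw [mem_filter, mem_range]
      exact ⟨by omega, hp.2.1⟩
    · intro p hp _
      exact (mem_filter.1 hp).2.one_le
  have h2 := h1.trans (primorial_le_four_pow z)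
  have h3 : ((∏ p ∈ smallP z, p : ℕ) : ℝ) ≤ 4 ^ z := by exact_mod_cast h2
  refine h3.trans ?_
  have h4 : (4 : ℝ) ≤ Real.exp 2 := by
    have h5 := Real.quadratic_le_exp_of_nonneg (x := (2 : ℝ)) (by norm_num)
    linarith
  calc (4 : ℝ) ^ z ≤ Real.exp 2 ^ z := pow_le_pow_left₀ (by norm_num) h4 z
    _ = Real.exp (2 * z) := by rw [← Real.exp_nat_mul]; ring_nf

end Pool.Agent.GapSieve
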